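import Mathlib
import Pool.Agent.Lib.P0c8ca5S.HH
import Pool.Agent.Lib.P0c8ca5Q.Defs

/-!
# Module GrpYa: the choice of a layer
-/

namespace Pool.Agent.Lib.P0c8ca5.Yy

open Pool.Agent.Lib.P0c8ca5.Bq Pool.Agent.Lib.P0c8ca5.Ps

theorem exists_CN {p : ℕ} [hp : Fact p.Prime] {A : Type*} [Group A] [Finite A] {M : Subgroup A}
    [hMn : M.Normal] (hM : PSolv p (A ⧸ M)) (hnp : ¬ ∀ x : A, Prm p M x) :
    ∃ C N : Subgroup A, C.Normal ∧ N.Normal ∧ C ≤ N ∧ C ≠ N ∧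
      (∀ x ∈ N, ∃ n : ℕ, x ^ p ^ n ∈ C) ∧
      (∀ T : Subgroup A, T.Normal → C ≤ T → T ≤ N → T = C ∨ T = N) ∧
      ∀ x : A, Prm p N x := by
  classical
  -- the minimal `N`
  obtain ⟨N, ⟨hNn, hMN, hN⟩, hNmin⟩ : ∃ N : Subgroup A,
      (N.Normal ∧ M ≤ N ∧ ∀ x : A, Prm p N x) ∧
      ∀ T : Subgroup A, (T.Normal ∧ M ≤ T ∧ ∀ x : A, Prm p T x) → T ≤ N → T = N := by
    have hf : ({N : Subgroup A | N.Normal ∧ M ≤ N ∧ ∀ x : A, Prm p N x}).Finite := Set.toFinite _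
    have hne : ({N : Subgroup A | N.Normal ∧ M ≤ N ∧ ∀ x : A, Prm p N x}).Nonempty := by
      refine ⟨⊤, inferInstance, le_top, fun x => ⟨1, ?_, Subgroup.mem_top _⟩⟩
      exact hp.out.one_lt.ne' ∘ Nat.dvd_one.mp
    obtain ⟨N, hN⟩ := hf.exists_minimal hne
    exact ⟨N, hN.prop, fun T hT hle => le_antisymm hle (hN.le_of_le hT hle)⟩
  have key : ∀ T : Subgroup A, T.Normal → M ≤ T → T ≤ N → (∀ x ∈ N, ∃ m : ℕ, ¬ p ∣ m ∧ x ^ m ∈ T) →
      T = N := by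
    intro T hT hMT hTN h
    refine hNmin T ⟨hT, hMT, fun x => ?_⟩ hTN
    obtain ⟨m, hm, hx⟩ := hN x
    obtain ⟨m', hm', hx'⟩ := h _ hx
    refine ⟨m * m', ?_, ?_⟩
    · rw [hp.out.dvd_mul]
      tauto
    · rw [pow_mul]
      exact hx'
  have hNM : ¬ N ≤ M := by
    intro h
    apply hnp
    intro x
    obtain ⟨m, hm, hx⟩ := hN x
    exact ⟨m, hm, h hx⟩
  -- the series
  set π : A →* A ⧸ M := QuotientGroup.mk' M with hπ
  obtain ⟨n, s, hs0, hsn, hsN, hst⟩ := hM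
  have hex : ∃ j, N ≤ (s j).comap π := ⟨n, by rw [hsn, Subgroup.comap_top]; exact le_top⟩
  set j := Nat.find hex with hj
  have hjs : N ≤ (s j).comap π := Nat.find_spec hex
  have hj0 : j ≠ 0 := by
    intro h0
    rw [h0, hs0, MonoidHom.comap_bot, hπ, QuotientGroup.ker_mk'] at hjs
    exact hNM hjs
  obtain ⟨i, hi⟩ := Nat.exists_eq_succ_of_ne_zero hj0
  have hjn : j ≤ n := Nat.find_min' hex (by rw [hsn, Subgroup.comap_top]; exact le_top)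
  have hin : i < n := by omega
  have hni : ¬ N ≤ (s i).comap π := Nat.find_min hex (by omega)
  obtain ⟨hle, hcase⟩ := hst i hin
  rw [hi] at hjs
  have hsin : ((s i).comap π).Normal := (hsN i).comap π
  set C₁ : Subgroup A := N ⊓ (s i).comap π with hC₁
  have hC₁n : C₁.Normal := inferInstance
  have hMC₁ : M ≤ C₁ := by
    refine le_inf hMN ?_
    intro x hx
    rw [Subgroup.mem_comap]
    have : π x = 1 := (QuotientGroup.eq_one_iff x).mpr hx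
    rw [this]
    exact (s i).one_mem
  have hC₁N : C₁ ≠ N := by
    intro h
    apply hni
    rw [← h]
    exact inf_le_right
  have hpC₁ : ∀ x ∈ N, ∃ m : ℕ, x ^ p ^ m ∈ C₁ := by
    rcases hcase with h | h
    · intro x hx
      obtain ⟨m, hm⟩ := h (π x) (hjs hx)
      refine ⟨m, N.pow_mem hx _, ?_⟩
      have h1 : π (x ^ p ^ m) ∈ s i := by
        rw [map_pow]
        exact hm
      exact h1
    · exfalso
      apply hC₁N
      apply key C₁ hC₁n hMC₁ inf_le_left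
      intro x hx
      obtain ⟨m, hm, hm'⟩ := h (π x) (hjs hx)
      refine ⟨m, hm, N.pow_mem hx _, ?_⟩
      have h1 : π (x ^ m) ∈ s i := by
        rw [map_pow]
        exact hm'
      exact h1
  -- the maximal `C`
  obtain ⟨C, ⟨hCn, hC₁C, hCN, hCne⟩, hCmax⟩ : ∃ C : Subgroup A,
      (C.Normal ∧ C₁ ≤ C ∧ C ≤ N ∧ C ≠ N) ∧
      ∀ T : Subgroup A, (T.Normal ∧ C₁ ≤ T ∧ T ≤ N ∧ T ≠ N) → C ≤ T → T = C := by
    have hf : ({T : Subgroup A | T.Normal ∧ C₁ ≤ T ∧ T ≤ N ∧ T ≠ N}).Finite := Set.toFinite _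
    have hne : ({T : Subgroup A | T.Normal ∧ C₁ ≤ T ∧ T ≤ N ∧ T ≠ N}).Nonempty :=
      ⟨C₁, hC₁n, le_rfl, inf_le_left, hC₁N⟩
    obtain ⟨C, hC⟩ := hf.exists_maximal hne
    exact ⟨C, hC.prop, fun T hT hle => le_antisymm (hC.le_of_ge hT hle) hle⟩
  refine ⟨C, N, hCn, hNn, hCN, hCne, ?_, ?_, hN⟩
  · intro x hx
    obtain ⟨m, hm⟩ := hpC₁ x hx
    exact ⟨m, hC₁C hm⟩
  · intro T hT hCT hTN
    by_cases h : T = N
    · exact Or.inr h
    · exact Or.inl (hCmax T ⟨hT, hC₁C.trans hCT, hTN, h⟩ hCT)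

end Pool.Agent.Lib.P0c8ca5.Yy
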