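import Mathlib
import Pool.Agent.Lib.P0c8ca5Z.GrpC
import Pool.Agent.Lib.P0c8ca5Q.Defs

/-!
# Module GrpYb: the upper part of a layer

`V ≠ 1` is a normal p-subgroup of the finite group `G`, minimal normal, `G / V` is a p'-group.
-/

namespace Pool.Agent.Lib.P0c8ca5.Yy

open Pool.Agent.Lib.P0c8ca5.Bq

open scoped commutatorElement

namespace GrpYbAux

variable {p : ℕ} [hp : Fact p.Prime] {G : Type*} [Group G] [Finite G] {V : Subgroup G} [V.Normal]

theorem comm_of_min (hV : IsPGroup p V) (hne : V ≠ ⊥)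
    (hmin : ∀ W : Subgroup G, W.Normal → W ≤ V → W = ⊥ ∨ W = V) :
    ∀ x ∈ V, ∀ y ∈ V, y * x = x * y := by
  have hle : ⁅V, V⁆ ≤ V := Subgroup.commutator_le_left V V
  have hbot : ⁅V, V⁆ = ⊥ := by
    rcases hmin ⁅V, V⁆ inferInstance hle with h | h
    · exact h
    · exfalso
      have hn : Nontrivial V := (Subgroup.nontrivial_iff_ne_bot V).mpr hne
      have hnil : Group.IsNilpotent V := hV.isNilpotent
      have hlt := Group.IsSolvable.commutator_lt_top_of_nontrivial (G := V)
      apply hlt.ne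
      have h1 := Subgroup.map_subtype_commutator V
      rw [h] at h1
      apply Subgroup.map_injective V.subtype_injective
      rw [h1, ← MonoidHom.range_eq_map, Subgroup.range_subtype]
  intro x hx y hy
  have h1 : ⁅x, y⁆ ∈ (⊥ : Subgroup G) := by
    rw [← hbot]
    exact Subgroup.commutator_mem_commutator hx hy
  rw [Subgroup.mem_bot, commutatorElement_eq_one_iff_mul_comm] at h1
  exact h1.symm

theorem index_not_dvd (hidx : ∀ x : G, Prm p V x) : ¬ p ∣ V.index := by
  intro h
  rw [Subgroup.index] at h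
  obtain ⟨x, hx⟩ := exists_prime_orderOf_dvd_card' p h
  obtain ⟨g, rfl⟩ := QuotientGroup.mk_surjective x
  obtain ⟨m, hm, hg⟩ := hidx g
  apply hm
  rw [← hx]
  apply orderOf_dvd_of_pow_eq_one
  rw [← QuotientGroup.mk_pow, QuotientGroup.eq_one_iff]
  exact hg

end GrpYbAux

open GrpYbAux

/-- the upper part of a layer -/
theorem layer_top {p : ℕ} [hp : Fact p.Prime] {G : Type*} [Group G] [Finite G] {V : Subgroup G}
    [hVn : V.Normal] (hV : IsPGroup p V) (hne : V ≠ ⊥)
    (hmin : ∀ W : Subgroup G, W.Normal → W ≤ V → W = ⊥ ∨ W = V)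
    (hidx : ∀ x : G, Prm p V x)
    (hres : ∀ T : Subgroup G, T.Normal → (∀ x : G, ∃ n : ℕ, x ^ p ^ n ∈ T) → T = ⊤) :
    ∃ L D : Subgroup G, L.Normal ∧ D.Normal ∧ L ≤ D ∧ V ≤ D ∧ (∀ x ∈ V, ∀ y ∈ V, y * x = x * y) ∧
      (∀ x, x ∈ D ↔ ∀ n ∈ V, n * x = x * n) ∧ (∀ x ∈ D, ∃ n : ℕ, x ^ p ^ n ∈ L) ∧
      ((∀ x y : G, y * x * y⁻¹ * x⁻¹ ∈ D) → ∃ t : G, D ⊔ Subgroup.zpowers t = ⊤) ∧
      ∀ g : G, L ⊔ Subgroup.zpowers g ≠ ⊤ := by
  classical
  have hcom := comm_of_min hV hne hmin
  have hi := index_not_dvd hidx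
  obtain ⟨e, he⟩ := (IsPGroup.iff_card (p := p) (G := V)).mp hV
  have hcop : Nat.Coprime (Nat.card V) V.index := by
    rw [he]
    exact Nat.Coprime.pow_left _ ((Nat.Prime.coprime_iff_not_dvd hp.out).mpr hi)
  obtain ⟨H, hH⟩ := Subgroup.exists_right_complement'_of_coprime hcop
  set D : Subgroup G := Subgroup.centralizer (V : Set G) with hD
  have hDn : D.Normal := Subgroup.normal_centralizer
  have hDm : ∀ x, x ∈ D ↔ ∀ n ∈ V, n * x = x * n := fun x => Subgroup.mem_centralizer_iff
  have hVD : V ≤ D := by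
    intro x hx
    rw [hDm]
    intro n hn
    exact hcom x hx n hn
  set L : Subgroup G := H ⊓ D with hL
  have hLD : L ≤ D := inf_le_right
  -- decomposition of the elements of `D`
  have hdec : ∀ d ∈ D, ∃ v ∈ V, ∃ l ∈ L, d = v * l := by
    intro d hd
    have h1 : d ∈ V ⊔ H := by
      rw [hH.sup_eq_top]
      exact Subgroup.mem_top d
    rw [Subgroup.mem_sup_of_normal_left] at h1
    obtain ⟨v, hv, l, hl, rfl⟩ := h1
    refine ⟨v, hv, l, ⟨hl, ?_⟩, rfl⟩
    have h2 : l = v⁻¹ * (v * l) := by group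
    rw [h2]
    exact D.mul_mem (D.inv_mem (hVD hv)) hd
  have hpow : ∀ v ∈ V, ∀ l ∈ L, ∀ m : ℕ, (v * l) ^ m = v ^ m * l ^ m := by
    intro v hv l hl m
    have h1 : v * l = l * v := (hDm l).mp (hLD hl) v hv
    exact (show Commute v l from h1).mul_pow m
  have hVp : ∀ v ∈ V, ∃ n : ℕ, v ^ p ^ n = 1 := by
    intro v hv
    obtain ⟨n, hn⟩ := hV ⟨v, hv⟩
    refine ⟨n, ?_⟩
    have := congrArg Subtype.val hn
    simpa using this
  have hcardL : ¬ p ∣ Nat.card L := by
    intro h
    apply hi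
    have h1 : Nat.card L ∣ Nat.card H := Subgroup.card_dvd_of_le inf_le_left
    have h2 : V.index = Nat.card H := hH.symm.index_eq_card
    rw [h2]
    exact h.trans h1
  have hLn : L.Normal := by
    constructor
    intro l hl g
    have h1 : g * l * g⁻¹ ∈ D := hDn.conj_mem l (hLD hl) g
    obtain ⟨v, hv, l', hl', h2⟩ := hdec _ h1
    have h3 : (g * l * g⁻¹) ^ Nat.card L = 1 := by
      rw [conj_pow]
      have h4 : l ^ Nat.card L = 1 := by
        have h5 : (⟨l, hl⟩ : L) ^ Nat.card L = 1 := pow_card_eq_one'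
        have h6 := congrArg Subtype.val h5
        rw [SubmonoidClass.coe_pow] at h6
        exact h6
      rw [h4, mul_one, mul_inv_cancel]
    have h4 : l' ^ Nat.card L = 1 := by
      have h5 : (⟨l', hl'⟩ : L) ^ Nat.card L = 1 := pow_card_eq_one'
      have h6 := congrArg Subtype.val h5
      rw [SubmonoidClass.coe_pow] at h6
      exact h6
    rw [h2, hpow v hv l' hl', h4, mul_one] at h3
    obtain ⟨n, hn⟩ := hVp v hv
    have h6 : orderOf v ∣ Nat.gcd (Nat.card L) (p ^ n) :=
      Nat.dvd_gcd (orderOf_dvd_of_pow_eq_one h3) (orderOf_dvd_of_pow_eq_one hn)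
    have h7 : Nat.gcd (Nat.card L) (p ^ n) = 1 := by
      apply Nat.Coprime.pow_right
      exact ((Nat.Prime.coprime_iff_not_dvd hp.out).mpr hcardL).symm
    rw [h7, Nat.dvd_one, orderOf_eq_one_iff] at h6
    rw [h2, h6, one_mul]
    exact hl'
  have hpD : ∀ x ∈ D, ∃ n : ℕ, x ^ p ^ n ∈ L := by
    intro x hx
    obtain ⟨v, hv, l, hl, rfl⟩ := hdec x hx
    obtain ⟨n, hn⟩ := hVp v hv
    refine ⟨n, ?_⟩
    rw [hpow v hv l hl, hn, one_mul]
    exact L.pow_mem hl _
  refine ⟨L, D, hLn, hDn, hLD, hVD, hcom, hDm, hpD, ?_, ?_⟩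
  · -- the quotient is cyclic
    intro hab
    let cg : CommGroup V := { (inferInstance : Group V) with
      mul_comm := fun a b => Subtype.ext (hcom b.1 b.2 a.1 a.2) }
    have hnt : Nontrivial V := (Subgroup.nontrivial_iff_ne_bot V).mpr hne
    let φ : G →* MulAut V := MulAut.conjNormal
    have hφ : ∀ (g : G) (v : V), ((φ g v : V) : G) = g * v * g⁻¹ := fun g v =>
      MulAut.conjNormal_apply g v
    have hker : ∀ g, φ g = 1 ↔ g ∈ D := by
      intro g
      rw [hDm]
      constructor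
      · intro h n hn
        have h1 := hφ g ⟨n, hn⟩
        rw [h] at h1
        have h2 : n = g * n * g⁻¹ := h1
        nth_rewrite 1 [h2]
        group
      · intro h
        apply MulEquiv.ext
        intro v
        apply Subtype.ext
        rw [hφ]
        show g * (v : G) * g⁻¹ = v
        rw [← h v v.2, mul_inv_cancel_right]
    have hcy : IsCyclic ↥φ.range := by
      apply Zz.cyclic_of_irred φ
      · intro a b
        have h1 := (hker _).mpr (hab a b)
        rw [map_mul, map_mul, map_mul, map_inv, map_inv] at h1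
        have h2 : φ b * φ a = φ a * φ b := by
          have h3 : φ b * φ a = (φ b * φ a * (φ b)⁻¹ * (φ a)⁻¹) * (φ a * φ b) := by group
          rw [h3, h1, one_mul]
        exact h2.symm
      · intro W hW
        have h1 : (W.map V.subtype).Normal := by
          constructor
          rintro _ ⟨w, hw, rfl⟩ g
          refine ⟨φ g w, hW g w hw, ?_⟩
          rw [Subgroup.subtype_apply, Subgroup.subtype_apply, hφ]
        have h2 : W.map V.subtype ≤ V := by
          rintro _ ⟨w, _, rfl⟩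
          exact w.2
        rcases hmin _ h1 h2 with h | h
        · left
          exact (Subgroup.map_eq_bot_iff_of_injective W V.subtype_injective).mp h
        · right
          apply Subgroup.map_injective V.subtype_injective
          rw [h, ← MonoidHom.range_eq_map, Subgroup.range_subtype]
    obtain ⟨⟨_, t, rfl⟩, ht⟩ := hcy.exists_generator
    refine ⟨t, ?_⟩
    rw [eq_top_iff]
    intro g _
    obtain ⟨k, hk⟩ := Subgroup.mem_zpowers_iff.mp (ht ⟨φ g, g, rfl⟩)
    have h1 : φ t ^ k = φ g := by simpa using congrArg Subtype.val hk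
    have h2 : g * (t ^ k)⁻¹ ∈ D := by
      rw [← hker, map_mul, map_inv, map_zpow, h1, mul_inv_cancel]
    have h3 : g = (g * (t ^ k)⁻¹) * t ^ k := by group
    rw [h3]
    exact Subgroup.mul_mem_sup h2 (Subgroup.zpow_mem_zpowers t k)
  · -- not cyclic modulo `L`
    intro g hg
    have hcomL : ∀ x y : G, y * x * y⁻¹ * x⁻¹ ∈ L := by
      have h1 : ∀ x : G, ∃ l ∈ L, ∃ k : ℤ, x = l * g ^ k := by
        intro x
        have h2 : x ∈ L ⊔ Subgroup.zpowers g := by
          rw [hg]
          exact Subgroup.mem_top x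
        rw [Subgroup.mem_sup_of_normal_left] at h2
        obtain ⟨l, hl, z, hz, rfl⟩ := h2
        obtain ⟨k, rfl⟩ := Subgroup.mem_zpowers_iff.mp hz
        exact ⟨l, hl, k, rfl⟩
      intro x y
      rw [← QuotientGroup.eq_one_iff (N := L)]
      obtain ⟨l, hl, k, rfl⟩ := h1 x
      obtain ⟨l', hl', k', rfl⟩ := h1 y
      have e1 : ((l * g ^ k : G) : G ⧸ L) = ((g : G ⧸ L)) ^ k := by
        rw [QuotientGroup.mk_mul, (QuotientGroup.eq_one_iff l).mpr hl, one_mul,
          QuotientGroup.mk_zpow]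
      have e2 : ((l' * g ^ k' : G) : G ⧸ L) = ((g : G ⧸ L)) ^ k' := by
        rw [QuotientGroup.mk_mul, (QuotientGroup.eq_one_iff l').mpr hl', one_mul,
          QuotientGroup.mk_zpow]
      rw [QuotientGroup.mk_mul, QuotientGroup.mk_mul, QuotientGroup.mk_mul, QuotientGroup.mk_inv,
        QuotientGroup.mk_inv, e1, e2]
      rw [← zpow_neg, ← zpow_neg, ← zpow_add, ← zpow_add, ← zpow_add]
      have : k' + k + -k' + -k = 0 := by ring
      rw [this, zpow_zero]
    have hVL : ∀ v, v ∈ V → v ∈ L → v = 1 := by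
      intro v hv hl
      have h1 : v ∈ V ⊓ H := ⟨hv, hl.1⟩
      rw [disjoint_iff.mp hH.disjoint] at h1
      exact Subgroup.mem_bot.mp h1
    have hDtop : D = ⊤ := by
      rw [eq_top_iff]
      intro a _
      rw [hDm]
      intro v hv
      have h1 : a * v * a⁻¹ * v⁻¹ ∈ V := V.mul_mem (hVn.conj_mem v hv a) (V.inv_mem hv)
      have h2 := hVL _ h1 (hcomL v a)
      have h3 : a * v = (a * v * a⁻¹ * v⁻¹) * (v * a) := by group
      rw [h3, h2, one_mul]
    have hLtop : L = ⊤ := by
      apply hres L hLn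
      intro x
      apply hpD
      rw [hDtop]
      exact Subgroup.mem_top x
    apply hne
    rw [eq_bot_iff]
    intro v hv
    rw [Subgroup.mem_bot]
    apply hVL v hv
    rw [hLtop]
    exact Subgroup.mem_top v

end Pool.Agent.Lib.P0c8ca5.Yy
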