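import Mathlib
import Pool.Agent.Lib.P0c8ca5Y.GrpYb
import Pool.Agent.Lib.P0c8ca5C.Defs

/-!
# Module GrpYc: the upper part of a layer

`C < N` are normal subgroups of the finite group `A`, `N / C` is a p-group and a chief factor, `A / N` is a p'-group.
-/

namespace Pool.Agent.Lib.P0c8ca5.Yy

open Pool.Agent.Lib.P0c8ca5.Cy Pool.Agent.Lib.P0c8ca5.Bq GrpYbAux

theorem layer_of_quot {p : ℕ} [Fact p.Prime] {A : Type*} [Group A] [Finite A] {C N : Subgroup A}
    [C.Normal] [N.Normal] (hCN : C ≤ N) (hne : C ≠ N)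
    (hpN : ∀ x ∈ N, ∃ n : ℕ, x ^ p ^ n ∈ C)
    (hmax : ∀ T : Subgroup A, T.Normal → C ≤ T → T ≤ N → T = C ∨ T = N)
    (hidx : ∀ x : A, Prm p N x)
    (hres : ∀ T : Subgroup A, T.Normal → (∀ x : A, ∃ n : ℕ, x ^ p ^ n ∈ T) → T = ⊤) :
    ∃ B₀ B₁ : Subgroup A, B₀.Normal ∧ B₁.Normal ∧
      (∀ x ∈ N, ∀ y ∈ N, y * x * y⁻¹ * x⁻¹ ∈ C) ∧
      (∀ x, x ∈ B₁ ↔ ∀ n ∈ N, x * n * x⁻¹ * n⁻¹ ∈ C) ∧
      (∀ x : A, Prm p B₁ x) ∧
      ((¬ ∀ x y : A, y * x * y⁻¹ * x⁻¹ ∈ B₁) ∨
        (HypExt p B₀ B₁ ⊤ ∧ ∀ g : A, B₀ ⊔ Subgroup.zpowers g ≠ ⊤)) := by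
  classical
  set π : A →* A ⧸ C := QuotientGroup.mk' C with hπ
  have hπs : Function.Surjective π := QuotientGroup.mk'_surjective C
  have hπ1 : ∀ x : A, π x = 1 ↔ x ∈ C := fun x => QuotientGroup.eq_one_iff x
  set V : Subgroup (A ⧸ C) := N.map π with hV
  have hVn : V.Normal := Subgroup.Normal.map inferInstance π hπs
  have hcomapV : V.comap π = N := by
    rw [hV, Subgroup.comap_map_eq, hπ, QuotientGroup.ker_mk', sup_eq_left.mpr hCN]
  have hmemV : ∀ x : A, π x ∈ V ↔ x ∈ N := by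
    intro x
    rw [← Subgroup.mem_comap, hcomapV]
  have hVp : IsPGroup p V := by
    rintro ⟨_, x, hx, rfl⟩
    obtain ⟨n, hn⟩ := hpN x hx
    refine ⟨n, Subtype.ext ?_⟩
    rw [SubmonoidClass.coe_pow]
    show π x ^ p ^ n = 1
    rw [← map_pow, hπ1]
    exact hn
  have hVne : V ≠ ⊥ := by
    intro h
    apply hne
    apply le_antisymm hCN
    intro x hx
    rw [← hπ1]
    have : π x ∈ V := (hmemV x).mpr hx
    rw [h] at this
    exact Subgroup.mem_bot.mp this
  have hmin : ∀ W : Subgroup (A ⧸ C), W.Normal → W ≤ V → W = ⊥ ∨ W = V := by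
    intro W hW hWV
    have h1 : (W.comap π).Normal := hW.comap π
    have h2 : C ≤ W.comap π := by
      intro x hx
      rw [Subgroup.mem_comap, (hπ1 x).mpr hx]
      exact W.one_mem
    have h3 : W.comap π ≤ N := by
      rw [← hcomapV]
      exact Subgroup.comap_mono hWV
    rcases hmax _ h1 h2 h3 with h | h
    · left
      apply Subgroup.comap_injective hπs
      rw [h, MonoidHom.comap_bot, hπ, QuotientGroup.ker_mk']
    · right
      apply Subgroup.comap_injective hπs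
      rw [h, hcomapV]
  have hidx' : ∀ x : A ⧸ C, Prm p V x := by
    intro x
    obtain ⟨a, rfl⟩ := hπs x
    obtain ⟨m, hm, ha⟩ := hidx a
    refine ⟨m, hm, ?_⟩
    rw [← map_pow, hmemV]
    exact ha
  have hres' : ∀ T : Subgroup (A ⧸ C), T.Normal → (∀ x : A ⧸ C, ∃ n : ℕ, x ^ p ^ n ∈ T) →
      T = ⊤ := by
    intro T hT h
    apply Subgroup.comap_injective hπs
    rw [Subgroup.comap_top]
    apply hres _ (hT.comap π)
    intro x
    obtain ⟨n, hn⟩ := h (π x)
    refine ⟨n, ?_⟩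
    rw [Subgroup.mem_comap, map_pow]
    exact hn
  obtain ⟨L, D, hLn, hDn, hLD, hVD, hcom, hDm, hpD, hcyc, hncyc⟩ :=
    layer_top hVp hVne hmin hidx' hres'
  have hB₁n : (D.comap π).Normal := hDn.comap π
  have hprm : ∀ x : A, Prm p (D.comap π) x := by
    intro x
    obtain ⟨m, hm, hx⟩ := hidx x
    exact ⟨m, hm, hVD ((hmemV _).mpr hx)⟩
  refine ⟨L.comap π, D.comap π, hLn.comap π, hB₁n, ?_, ?_, hprm, ?_⟩
  · intro x hx y hy
    rw [← hπ1, map_mul, map_mul, map_mul, map_inv, map_inv,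
      hcom (π x) ((hmemV x).mpr hx) (π y) ((hmemV y).mpr hy)]
    group
  · intro x
    rw [Subgroup.mem_comap, hDm]
    constructor
    · intro h n hn
      rw [← hπ1, map_mul, map_mul, map_mul, map_inv, map_inv, ← h (π n) ((hmemV n).mpr hn)]
      group
    · rintro h _ ⟨n, hn, rfl⟩
      have h1 := (hπ1 _).mpr (h n hn)
      rw [map_mul, map_mul, map_mul, map_inv, map_inv] at h1
      have h2 : π x * π n = (π x * π n * (π x)⁻¹ * (π n)⁻¹) * (π n * π x) := by group
      rw [h2, h1, one_mul]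
  · by_cases hab : ∀ x y : A, y * x * y⁻¹ * x⁻¹ ∈ D.comap π
    · right
      have hab' : ∀ x y : A ⧸ C, y * x * y⁻¹ * x⁻¹ ∈ D := by
        intro x y
        obtain ⟨a, rfl⟩ := hπs x
        obtain ⟨b, rfl⟩ := hπs y
        have := hab a b
        rw [Subgroup.mem_comap, map_mul, map_mul, map_mul, map_inv, map_inv] at this
        exact this
      refine ⟨⟨Subgroup.comap_mono hLD, ?_, ⟨le_top, ?_, ?_, ?_⟩, ?_⟩, ?_⟩
      · have := hLn.comap π
        rw [Subgroup.normalizer_eq_top]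
      · rw [Subgroup.normalizer_eq_top]
      · obtain ⟨t, ht⟩ := hcyc hab'
        obtain ⟨s, rfl⟩ := hπs t
        refine ⟨s, Subgroup.mem_top s, ?_⟩
        rw [eq_top_iff]
        intro a _
        have h1 : π a ∈ D ⊔ Subgroup.zpowers (π s) := by
          rw [ht]
          exact Subgroup.mem_top _
        rw [Subgroup.mem_sup_of_normal_left] at h1
        obtain ⟨d, hd, z, hz, hdz⟩ := h1
        obtain ⟨k, rfl⟩ := Subgroup.mem_zpowers_iff.mp hz
        have h2 : a * (s ^ k)⁻¹ ∈ D.comap π := by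
          rw [Subgroup.mem_comap, map_mul, map_inv, map_zpow, ← hdz, mul_inv_cancel_right]
          exact hd
        have h3 : a = (a * (s ^ k)⁻¹) * s ^ k := by group
        rw [h3]
        exact Subgroup.mul_mem_sup h2 (Subgroup.zpow_mem_zpowers s k)
      · rw [Subgroup.relIndex_top_right]
        exact index_not_dvd hprm
      · intro x hx
        obtain ⟨n, hn⟩ := hpD _ hx
        refine ⟨n, ?_⟩
        rw [Subgroup.mem_comap, map_pow]
        exact hn
      · intro g hg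
        apply hncyc (π g)
        rw [eq_top_iff]
        intro y _
        obtain ⟨a, rfl⟩ := hπs y
        have hLn' : (L.comap π).Normal := hLn.comap π
        have h1 : a ∈ L.comap π ⊔ Subgroup.zpowers g := by
          rw [hg]
          exact Subgroup.mem_top a
        rw [Subgroup.mem_sup_of_normal_left] at h1
        obtain ⟨l, hl, z, hz, rfl⟩ := h1
        obtain ⟨k, rfl⟩ := Subgroup.mem_zpowers_iff.mp hz
        rw [map_mul, map_zpow]
        exact Subgroup.mul_mem_sup hl (Subgroup.zpow_mem_zpowers (π g) k)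
    · left
      exact hab

end Pool.Agent.Lib.P0c8ca5.Yy
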