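import Mathlib
import Pool.Agent.Lib.P0c8ca5Z.GrpC
import Pool.Agent.Lib.P0c8ca5S.HH
import Pool.Agent.Lib.P0c8ca5Q.Defs
import Pool.Agent.Lib.P0c8ca5C.Defs
import Pool.Agent.Lib.P0c8ca5Y.GrpYa
import Pool.Agent.Lib.P0c8ca5Y.GrpYc

/-!
# Module GrpY: a layer of a group with a p-solvable quotient

`A` is a finite group without proper normal subgroups with a p-group quotient, `A / M` is p-solvable, of order divisible by `p`.

PROOF of `exists_layer`.  (0) Choose `N` minimal (for the cardinality) among the normal subgroups of `A` with `M ≤ N` and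
`∀ x, Prm p N x` (`⊤` is one); `N ≠ M` by `hnp`.  If `T` is normal in `A`, `M ≤ T ≤ N` and every `x ∈ N` has a power `x ^ m ∈ T`, `p ∤ m`, then
`T = N` (minimality, `(x ^ m) ^ m' = x ^ (m m')`).  The series of `PSolv p (A ⧸ M)`: let `i` be the largest index such that the image of `N`
is not contained in `s i`; it is contained in `s (i + 1)`; let `C₁` be the preimage of the intersection of the image of `N` with `s i`
(`theorem top_factor` in P0c8ca5Z.GrpS is the same argument): `M ≤ C₁ < N`, `C₁` normal, and `N / C₁` is a p-group (the p'-case is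
excluded).  Let `C` be maximal among the normal subgroups `T` of `A` with `C₁ ≤ T < N`.
(1) Work in `A₁ = A ⧸ C`: `V` = the image of `N`, a normal p-subgroup `≠ 1`, and a normal subgroup `W ≤ V` of `A₁` is `⊥` or `V`.
`V` is abelian: `⁅V, V⁆` is normal in `A₁` and `≠ V` (`V` is a nontrivial p-group, so nilpotent, solvable).
(2) Schur-Zassenhaus (`Subgroup.exists_right_complement'_of_coprime`): there is `H` with `V ⊓ H = ⊥`, `V ⊔ H = ⊤` (`|V|` is a power of `p`,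
the index of `V` is prime to `p` because `∀ x, Prm p N x`, by Cauchy).  `D = Subgroup.centralizer V ≥ V`, normal; `L = H ⊓ D`; every `d ∈ D`
is `v * l` with `v ∈ V`, `l ∈ L` (`V ≤ D`), `v` and `l` commute.  `L` is a p'-group (`L ⊓ V = ⊥`, `A₁ / V` is a p'-group).  `L` is normal in
`A₁`: for `g ∈ A₁`, `l ∈ L` let `g l g⁻¹ = v l'`; with `m = |L|`: `1 = v ^ m * l' ^ m = v ^ m`, so `v = 1` (`p ∤ m`).
For `d = v l`: `d ^ p ^ n = l ^ p ^ n ∈ L` for large `n`.  `B₀`, `B₁` are the preimages (`comap`) of `L`, `D`.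
(3) If all commutators of `A` are in `B₁`: `φ = MulAut.conjNormal : A₁ →* MulAut V` has the kernel `D`, its range is abelian, the
invariant subgroups of `V` are the normal subgroups of `A₁` in `V`; `cyclic_of_irred` (P0c8ca5Z.GrpC): `A₁ / D` is cyclic,
`D ⊔ zpowers t = ⊤` for some `t`.  `p ∤` the index of `B₁ ≥ N`.  So `HypExt p B₀ B₁ ⊤`.
(4) Let `B₀ ⊔ zpowers g = ⊤`, so `L ⊔ zpowers ḡ = ⊤`: `A₁ / L` is cyclic, so for `v ∈ V`, `a ∈ A₁`, `a v a⁻¹ v⁻¹ ∈ L ⊓ V = ⊥`.  So `D = ⊤`, and by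
(2) every `x ∈ A₁` has a power `x ^ p ^ n ∈ L`; by `hres` `B₀ = ⊤`, so `L = ⊤ ≥ V`, `V = ⊥`, a contradiction.
(`theorem exists_hyp` in P0c8ca5Z.GrpV is a similar statement, with a similar proof, for an abelian quotient `A / N`.)
-/

namespace Pool.Agent.Lib.P0c8ca5.Yy

open Pool.Agent.Lib.P0c8ca5.Cy Pool.Agent.Lib.P0c8ca5.Bq Pool.Agent.Lib.P0c8ca5.Ps

theorem exists_layer {p : ℕ} [Fact p.Prime] {A : Type*} [Group A] [Finite A] {M : Subgroup A}
    [M.Normal] (hM : PSolv p (A ⧸ M)) (hnp : ¬ ∀ x : A, Prm p M x)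
    (hres : ∀ T : Subgroup A, T.Normal → (∀ x : A, ∃ n : ℕ, x ^ p ^ n ∈ T) → T = ⊤) :
    ∃ C N B₀ B₁ : Subgroup A, C.Normal ∧ N.Normal ∧ B₀.Normal ∧ B₁.Normal ∧ C ≤ N ∧
      (∀ x ∈ N, ∃ n : ℕ, x ^ p ^ n ∈ C) ∧
      (∀ x ∈ N, ∀ y ∈ N, y * x * y⁻¹ * x⁻¹ ∈ C) ∧
      (∀ x, x ∈ B₁ ↔ ∀ n ∈ N, x * n * x⁻¹ * n⁻¹ ∈ C) ∧
      (∀ x : A, Prm p B₁ x) ∧
      ((¬ ∀ x y : A, y * x * y⁻¹ * x⁻¹ ∈ B₁) ∨
        (HypExt p B₀ B₁ ⊤ ∧ ∀ g : A, B₀ ⊔ Subgroup.zpowers g ≠ ⊤)) := by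
  obtain ⟨C, N, hCn, hNn, hCN, hne, hpN, hmax, hidx⟩ := exists_CN hM hnp
  obtain ⟨B₀, B₁, h0, h1, h2, h3, h4, h5⟩ := layer_of_quot hCN hne hpN hmax hidx hres
  exact ⟨C, N, B₀, B₁, hCn, hNn, h0, h1, hCN, hpN, h2, h3, h4, h5⟩

end Pool.Agent.Lib.P0c8ca5.Yy
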