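import Mathlib
import Pool.Agent.Lib.P0c8ca5T.PExt
import Pool.Agent.Lib.P0c8ca5T.PsC

/-!
# Module Syl: a relation on pairs and the main condition

`PairSyl p P' P`: `P'` is contained in the image of `P ⊓ K` under a homomorphism `f` of a subgroup `K` of `H` onto `H'` such that `p` does
not divide the index of `P ⊓ ker f` in `ker f`.
`CycQ p H P`: for some normal subgroups `S`, `M` of `H` with `S` and `H ⧸ M` p-solvable, the image of `P ⊓ M` modulo `S` is cyclic.

PROOF of `of_subgroup`.  `f = id`, the kernel is trivial.  PROOF of `of_hom`.  `K = ⊤`.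
PROOF of `pairSyl_sec`.  As `pairSec_sec` in P0c8ca5T.PairA: `f` is the map `K → sec K R`, its kernel is `R.subgroupOf K ≤ P.subgroupOf K`,
so the relative index is `1`.
PROOF of `CycQ.of_pairSyl`.  Let `S`, `M` be as in `CycQ p H P`, `M_K = M.subgroupOf K`, `P_K = P.subgroupOf K`, `R = f.ker`;
`S' = (S.subgroupOf K).map f`, `M' = M_K.map f`, normal in `H'` (`f` is surjective).  `S'` is p-solvable (`PSolv.of_section`).  `H' ⧸ M'` is a
quotient of `K ⧸ M_K`, which embeds in `H ⧸ M` (a section of `H ⧸ M`).  Main point: `P' ⊓ M' ≤ (P_K ⊓ M_K).map f`.  Let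
`f x = f m ∈ P'`, `x ∈ P_K`, `m ∈ M_K`.  Then `x ∈ M_K * R`.  Let `T = P_K ⊓ R`, of index prime to `p` in `R`.  Work in `K ⧸ M_K`
(map `q`): `q T ≤ q R`, the index of `q T` in `q R` divides the index of `T` in `R`, so it is prime to `p`; `q T ≤ q P_K ⊓ q R ≤ q R` and
`q P_K ⊓ q R` is a p-group, so its index over `q T` is a power of `p` that divides the index of `q T` in `q R`: `q P_K ⊓ q R = q T`.  As `q x` is
in `q P_K ⊓ q R`, `x = m' t` with `t ∈ T`, `m' ∈ M_K`; so `m' = x t⁻¹ ∈ P_K ⊓ M_K` and `f x = f m'` because `t ∈ ker f`.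
Then the image of `P' ⊓ M'` modulo `S'` is cyclic: it is contained in the image of `P_K ⊓ M_K` under `K → H' ⧸ S'`, whose kernel contains
`S.subgroupOf K`; the image of `P_K ⊓ M_K` in `H ⧸ S` is contained in the cyclic group `(P ⊓ M).map (mk' S)` (`cyc_of_ker`,
`cyc_of_le` in P0c8ca5T.PsC; see the proof of `CycModPs.of_pairSec` there).
-/

namespace Pool.Agent.Lib.P0c8ca5.Yy

open Pool.Agent.Lib.P0c8ca5.Ps

/-- `P'` is contained in the image of `P` under a homomorphism from a subgroup of `H` onto `H'`, and `P` contains a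
Sylow p-subgroup of the kernel -/
def PairSyl (p : ℕ) {H' H : Type*} [Group H'] [Group H] (P' : Subgroup H') (P : Subgroup H) :
    Prop :=
  ∃ (K : Subgroup H) (f : ↥K →* H'), Function.Surjective f ∧ P' ≤ (P.subgroupOf K).map f ∧
    ¬ p ∣ (P.subgroupOf K).relIndex f.ker

/-- the image of `P ⊓ M` modulo `S` is cyclic, `S` and `H ⧸ M` are p-solvable -/
def CycQ (p : ℕ) (H : Type*) [Group H] (P : Subgroup H) : Prop :=
  ∃ (S M : Subgroup H) (_ : S.Normal) (_ : M.Normal), PSolv p ↥S ∧ PSolv p (H ⧸ M) ∧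
    IsCyclic ↥((P ⊓ M).map (QuotientGroup.mk' S))

theorem PairSyl.of_hom {p : ℕ} {H' H : Type*} [Group H'] [Group H] {P' : Subgroup H'}
    {P : Subgroup H} (f : H →* H') (hf : Function.Surjective f) (h : P' ≤ P.map f)
    (hk : ¬ p ∣ P.relIndex f.ker) : PairSyl p P' P := by
  refine ⟨⊤, f.comp (Subgroup.subtype ⊤), ?_, ?_, ?_⟩
  · intro x
    obtain ⟨y, rfl⟩ := hf x
    exact ⟨⟨y, Subgroup.mem_top y⟩, rfl⟩
  · intro x hx
    obtain ⟨y, hy, rfl⟩ := h hx
    exact ⟨⟨y, Subgroup.mem_top y⟩, Subgroup.mem_subgroupOf.2 hy, rfl⟩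
  · have h1 : (f.comp (Subgroup.subtype ⊤)).ker.map (Subgroup.subtype ⊤) = f.ker := by
      ext x
      constructor
      · rintro ⟨y, hy, rfl⟩
        exact hy
      · intro hx
        exact ⟨⟨x, Subgroup.mem_top x⟩, hx, rfl⟩
    have h2 : (P.subgroupOf ⊤).relIndex (f.comp (Subgroup.subtype ⊤)).ker
        = P.relIndex ((f.comp (Subgroup.subtype ⊤)).ker.map (Subgroup.subtype ⊤)) :=
      Subgroup.relIndex_comap P (Subgroup.subtype ⊤) _
    rwa [h2, h1]

theorem PairSyl.of_subgroup {p : ℕ} [Fact p.Prime] {H : Type*} [Group H] {K : Subgroup H}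
    (P : Subgroup ↥K) : PairSyl p P (P.map K.subtype) := by
  refine ⟨K, MonoidHom.id K, Function.surjective_id, ?_, ?_⟩
  · intro x hx
    exact ⟨x, Subgroup.mem_subgroupOf.2 ⟨x, hx, rfl⟩, rfl⟩
  · rw [MonoidHom.ker_id, Subgroup.relIndex_bot_right]
    exact (Fact.out : p.Prime).one_lt.ne' ∘ Nat.dvd_one.1

theorem pairSyl_sec {p : ℕ} [Fact p.Prime] {A : Type*} [Group A] [Finite A] {K R P : Subgroup A}
    {P' : Subgroup ↥(sec K R)} (hn : K ≤ Subgroup.normalizer (R : Set A)) (hPK : P ≤ K)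
    (hRP : R ≤ P) (hP : P'.map (sec K R).subtype ≤ sec P R) : PairSyl p P' P := by
  let α : ↥K →* NQ R := (QuotientGroup.mk' _).comp (Subgroup.inclusion hn)
  have hα : ∀ x, α x ∈ sec K R := fun x => qm_mem_sec (hn x.2) x.2
  refine ⟨K, α.codRestrict (sec K R) hα, ?_, ?_, ?_⟩
  · rintro ⟨w, hw⟩
    obtain ⟨x, hx, hx', rfl⟩ := mem_sec.1 hw
    exact ⟨⟨x, hx⟩, rfl⟩
  · intro w hw
    obtain ⟨x, hx, hx', h1⟩ := mem_sec.1 (hP ⟨w, hw, rfl⟩)
    exact ⟨⟨x, hPK hx⟩, Subgroup.mem_subgroupOf.2 hx, Subtype.ext h1.symm⟩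
  · have h1 : (P.subgroupOf K).relIndex (α.codRestrict (sec K R) hα).ker = 1 := by
      rw [Subgroup.relIndex_eq_one]
      intro x hx
      have h2 : qm R (x : A) (hn x.2) = 1 := congrArg Subtype.val ((MonoidHom.mem_ker).1 hx)
      exact Subgroup.mem_subgroupOf.2 (hRP (qm_eq_one_iff.1 h2))
    rw [h1]
    exact (Fact.out : p.Prime).one_lt.ne' ∘ Nat.dvd_one.1

namespace SylAux

theorem mem_map_inf {p : ℕ} [Fact p.Prime] {K H' : Type*} [Group K] [Finite K] [Group H']
    {f : K →* H'} {P M : Subgroup K} (hP : IsPGroup p P) (hM : M.Normal)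
    (hk : ¬ p ∣ P.relIndex f.ker) {y : H'} (h1 : y ∈ P.map f) (h2 : y ∈ M.map f) :
    y ∈ (P ⊓ M).map f := by
  obtain ⟨a, ha, rfl⟩ := h1
  obtain ⟨m, hm, hma⟩ := h2
  let q : K →* K ⧸ M := QuotientGroup.mk' M
  have hr : m⁻¹ * a ∈ f.ker := by
    rw [MonoidHom.mem_ker, map_mul, map_inv, hma, inv_mul_cancel]
  have hqa : q a ∈ (P.map q) ⊓ (f.ker.map q) := by
    refine ⟨⟨a, ha, rfl⟩, ⟨m⁻¹ * a, hr, ?_⟩⟩
    have h3 : q m = 1 := (QuotientGroup.eq_one_iff (N := M) m).2 hm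
    rw [map_mul, map_inv, h3, inv_one, one_mul]
  have hle : (P.map q) ⊓ (f.ker.map q) ≤ (P ⊓ f.ker).map q := by
    have h3 : (P ⊓ f.ker).map q ≤ (P.map q) ⊓ (f.ker.map q) :=
      le_inf (Subgroup.map_mono inf_le_left) (Subgroup.map_mono inf_le_right)
    have h4 := Subgroup.relIndex_mul_relIndex _ _ _ h3 (inf_le_right : (P.map q) ⊓ (f.ker.map q) ≤ _)
    have h5 : ((P ⊓ f.ker).map q).relIndex (f.ker.map q) ∣ P.relIndex f.ker := by
      rw [← Subgroup.relIndex_comap, ← Subgroup.inf_relIndex_right P]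
      exact Subgroup.relIndex_dvd_of_le_left _ (Subgroup.le_comap_map q _)
    have h6 : ¬ p ∣ ((P ⊓ f.ker).map q).relIndex ((P.map q) ⊓ (f.ker.map q)) := by
      intro hd
      apply hk
      refine dvd_trans ?_ h5
      rw [← h4]
      exact hd.mul_right _
    have h7 : IsPGroup p ↥((P.map q) ⊓ (f.ker.map q)) := (hP.map q).to_le inf_le_left
    obtain ⟨n, hn⟩ := IsPGroup.iff_card.1 h7
    have h8 := Subgroup.relIndex_dvd_card ((P ⊓ f.ker).map q) ((P.map q) ⊓ (f.ker.map q))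
    rw [hn] at h8
    obtain ⟨i, -, hi⟩ := (Nat.dvd_prime_pow (Fact.out : p.Prime)).1 h8
    rcases Nat.eq_zero_or_pos i with h0 | h0
    · rw [h0, pow_zero] at hi
      exact Subgroup.relIndex_eq_one.1 hi
    · exfalso
      apply h6
      rw [hi]
      exact dvd_pow_self p h0.ne'
  obtain ⟨t, ⟨ht1, ht2⟩, hta⟩ := hle hqa
  have h3 : t⁻¹ * a ∈ M := by
    rw [← QuotientGroup.eq]
    exact hta
  have h4 : a * t⁻¹ ∈ M := by
    have h5 := hM.conj_mem _ h3 t
    rwa [mul_assoc, mul_assoc, mul_inv_cancel_left] at h5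
  refine ⟨a * t⁻¹, ⟨P.mul_mem ha (P.inv_mem ht1), h4⟩, ?_⟩
  have h5 : f t = 1 := ht2
  rw [map_mul, map_inv, h5, inv_one, mul_one]

theorem psolv_quot {p : ℕ} {K L : Type*} [Group K] [Group L] {M : Subgroup K} [M.Normal]
    (hMs : PSolv p (K ⧸ M)) {K' : Subgroup K} {f : ↥K' →* L} (hf : Function.Surjective f)
    [((M.subgroupOf K').map f).Normal] : PSolv p (L ⧸ (M.subgroupOf K').map f) := by
  have h1 : IsSection (L ⧸ (M.subgroupOf K').map f) (K ⧸ M) := by
    have h2 : IsSection (↥K' ⧸ M.subgroupOf K') (K ⧸ M) := by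
      refine IsSection.of_injective (QuotientGroup.lift (M.subgroupOf K')
        ((QuotientGroup.mk' M).comp K'.subtype) ?_) ?_
      · intro x hx
        exact (QuotientGroup.eq_one_iff (N := M) (x : K)).2 (Subgroup.mem_subgroupOf.1 hx)
      · rw [injective_iff_map_eq_one]
        intro x
        induction x using QuotientGroup.induction_on with
        | H z =>
          intro hz
          rw [QuotientGroup.eq_one_iff]
          exact Subgroup.mem_subgroupOf.2 ((QuotientGroup.eq_one_iff (N := M) (z : K)).1 hz)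
    refine (IsSection.of_surjective (QuotientGroup.map (M.subgroupOf K')
      ((M.subgroupOf K').map f) f (Subgroup.le_comap_map f _)) ?_).trans h2
    intro y
    obtain ⟨z, rfl⟩ := QuotientGroup.mk'_surjective _ y
    obtain ⟨x, rfl⟩ := hf z
    exact ⟨QuotientGroup.mk x, rfl⟩
  exact hMs.of_section h1

end SylAux

theorem CycQ.of_pairSyl {p : ℕ} [Fact p.Prime] {H H' : Type*} [Group H] [Group H'] [Finite H]
    {P : Subgroup H} {P' : Subgroup H'} (hP : IsPGroup p P) (hs : PairSyl p P' P)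
    (h : CycQ p H P) : CycQ p H' P' := by
  obtain ⟨K, f, hf, hPf, hk⟩ := hs
  obtain ⟨S, M, hSn, hMn, hS, hM, hc⟩ := h
  have hSn1 : (S.subgroupOf K).Normal := inferInstance
  have hMn1 : (M.subgroupOf K).Normal := inferInstance
  have hSn2 : ((S.subgroupOf K).map f).Normal := hSn1.map f hf
  have hMn2 : ((M.subgroupOf K).map f).Normal := hMn1.map f hf
  refine ⟨(S.subgroupOf K).map f, (M.subgroupOf K).map f, hSn2, hMn2, ?_,
    SylAux.psolv_quot hM hf, ?_⟩
  · refine hS.of_section ((IsSection.of_surjective (f.subgroupMap (S.subgroupOf K))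
      (f.subgroupMap_surjective (S.subgroupOf K))).trans ?_)
    let g : ↥(S.subgroupOf K) →* ↥S :=
      { toFun := fun x => ⟨x.1.1, Subgroup.mem_subgroupOf.1 x.2⟩
        map_one' := rfl
        map_mul' := fun _ _ => rfl }
    apply IsSection.of_injective g
    intro x y hxy
    have h3 := congrArg Subtype.val hxy
    exact Subtype.ext (Subtype.ext h3)
  · let R : Subgroup ↥K := P.subgroupOf K ⊓ M.subgroupOf K
    let α : ↥R →* H ⧸ S :=
      (QuotientGroup.mk' S).comp (K.subtype.comp R.subtype)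
    let β : ↥R →* H' ⧸ (S.subgroupOf K).map f :=
      (QuotientGroup.mk' ((S.subgroupOf K).map f)).comp (f.comp R.subtype)
    have hα : IsCyclic ↥α.range := by
      refine cyc_of_le ?_ hc
      rintro _ ⟨x, rfl⟩
      exact ⟨x.1.1, ⟨Subgroup.mem_subgroupOf.1 x.2.1, Subgroup.mem_subgroupOf.1 x.2.2⟩, rfl⟩
    have hk' : α.ker ≤ β.ker := by
      intro x hx
      rw [MonoidHom.mem_ker] at hx ⊢
      have h3 : (x.1.1 : H) ∈ S := (QuotientGroup.eq_one_iff (N := S) _).1 hx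
      have h4 : f x.1 ∈ (S.subgroupOf K).map f := ⟨x.1, Subgroup.mem_subgroupOf.2 h3, rfl⟩
      exact (QuotientGroup.eq_one_iff (N := (S.subgroupOf K).map f) _).2 h4
    refine cyc_of_le ?_ (cyc_of_ker hk' hα)
    rintro _ ⟨x, ⟨hx1, hx2⟩, rfl⟩
    obtain ⟨y, hy, rfl⟩ := SylAux.mem_map_inf (p := p) hP.comap_subtype hMn1 hk (hPf hx1) hx2
    exact ⟨⟨y, hy⟩, rfl⟩

end Pool.Agent.Lib.P0c8ca5.Yy
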