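import Mathlib
import Pool.Agent.Lib.P0c8ca5T.PairA
import Pool.Agent.Lib.P0c8ca5Y.Syl
import Pool.Agent.Lib.P0c8ca5Q.Red2

/-!
# Module RedS: reduction of the blockwise weight conjecture to reduced blocks, conditions inherited by `PairSyl`
-/

namespace Pool.Agent.Lib.P0c8ca5.Yy

open MonoidAlgebra Pool.Agent.Lib.P0c8ca5 Pool.Agent.Lib.P0c8ca5.RedAux

universe u v

/-- the reduction of the blockwise weight conjecture to reduced blocks -/
theorem baw_of_reduced_syl {p : ℕ} [Fact p.Prime] {k : Type v} [Field k] [IsAlgClosed k] [CharP k p]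
    {G₀ : Type*} [Group G₀] (C : ∀ (H : Type u) [Group H], Subgroup H → Prop)
    (hC : ∀ (H H' : Type u) [Group H] [Group H'] [Finite H] (P : Subgroup H)
      (P' : Subgroup H'), IsPGroup p P → PairSyl p P' P → C H P → C H' P')
    (hred : ∀ (H : Type u) [Group H] [Finite H], IsSection H G₀ → ∀ b : MonoidAlgebra k H,
      Reduced p b → PairCond C p b →
      (∃ P : Subgroup H, IsPGroup p P ∧ HasBr P b ∧ p < Nat.card P) → NavarroEq p ⊤ ⊤ b) :
    ∀ (n : ℕ) (H : Type u) [Group H] [Finite H], Nat.card H = n → IsSection H G₀ →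
      ∀ b : MonoidAlgebra k H, IsBlock ⊤ b → PairCond C p b → NavarroEq p ⊤ ⊤ b := by
  intro n
  induction n using Nat.strong_induction_on with
  | _ n ih =>
  intro H _ _ hcard hsec b hb hdef
  classical
  have : Fintype H := Fintype.ofFinite H
  -- subgroups and sections
  have hsub : ∀ (Y : Subgroup H) (c : MonoidAlgebra k H), Y ≠ ⊤ → IsBlock Y c →
      (∀ P : Subgroup H, P ≤ Y → IsPGroup p P → HasBr P c → C H P) → NavarroEq p Y Y c := by
    intro Y c hY hc hdc
    apply navarro_transport hc
    refine ih (Nat.card Y) ?_ Y rfl ((IsSection.of_subgroup Y).trans hsec) _ (dn_isBlock hc) ?_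
    · rw [← hcard]
      exact lt_of_le_of_ne (Subgroup.card_le_card_group Y) (fun h => hY (Subgroup.eq_top_of_card_eq Y h))
    · intro P hpP hbr
      refine hC _ _ _ _ (hpP.map _) (PairSyl.of_subgroup P)
        (hdc _ ?_ (hpP.map _) (hasBr_up' hbr))
      rintro _ ⟨x, _, rfl⟩
      exact x.2
  -- Step A: a normal p-subgroup
  by_cases hA : ∃ R : Subgroup H, R.Normal ∧ IsPGroup p R ∧ R ≠ ⊥
  · obtain ⟨R, hRn, hpR, hRne⟩ := hA
    have hn : (⊤ : Subgroup H) ≤ Subgroup.normalizer (R : Set H) := by
      rw [Subgroup.normalizer_eq_top]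
    apply Rk.navarro_infl le_top hn hpR hb
    intro b' hb' hne'
    have : Fintype (NQ R) := Fintype.ofFinite _
    apply navarro_transport hb'
    refine ih (Nat.card ↥(sec ⊤ R)) ?_ ↥(sec ⊤ R) rfl ?_ _ (dn_isBlock hb') ?_
    · have h1 := Rk.Inf3Aux.card_secK (K := ⊤) (R := R) le_top hn
      rw [Subgroup.card_top, hcard] at h1
      have h2 : 1 < Nat.card R := by
        rw [Subgroup.one_lt_card_iff_ne_bot]
        exact hRne
      have h3 : 0 < Nat.card ↥(sec ⊤ R) := Nat.card_pos
      rw [h1]
      exact lt_mul_of_one_lt_left h3 h2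
    · exact ((isSection_sec hn).trans (IsSection.of_subgroup _)).trans hsec
    · intro P hpP hbr
      have hP' : P.map (sec ⊤ R).subtype ≤ sec ⊤ R := by
        rintro _ ⟨y, _, rfl⟩
        exact y.2
      obtain ⟨P₁, h1, h2, h3, h4, h5⟩ := hasBr_infl_sec (p := p) le_top hn hpR hb.suppIn hb.invBy
        hb.idem hb' hne' hP' (hpP.map _) (hasBr_up' hbr)
      refine hC _ _ _ _ h3 ?_ (hdef P₁ h3 h4)
      exact pairSyl_sec hn h2 h1 (by rw [h5])
  push Not at hA
  -- Step B: a block of a normal subgroup that is not invariant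
  by_cases hB : ∃ (N : Subgroup H) (c : MonoidAlgebra k H) (g : H), N.Normal ∧ IsBlock N c ∧
      b * c ≠ 0 ∧ cj g c ≠ c
  · obtain ⟨N, c, g, hN, hc, hbc, hgc⟩ := hB
    let Y : Subgroup H :=
      { carrier := {g | cj g c = c}
        mul_mem' := by
          intro x y hx hy
          change cj (x * y) c = c
          rw [← cj_cj, hy, hx]
        one_mem' := cj_one_left c
        inv_mem' := by
          intro x hx
          change cj x⁻¹ c = c
          have h1 : cj x⁻¹ (cj x c) = cj x⁻¹ c := congrArg (cj x⁻¹) hx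
          rw [cj_cj, inv_mul_cancel, cj_one_left] at h1
          exact h1.symm }
    have hY : ∀ g, g ∈ Y ↔ cj g c = c := fun g => Iff.rfl
    have hYne : Y ≠ ⊤ := by
      intro h0
      apply hgc
      rw [← hY, h0]
      exact Subgroup.mem_top g
    apply Fr.navarro_stab hN hb hc hbc hY
    apply hsub Y _ hYne (Fr.isBlock_stab hN hb hc hbc hY)
    intro P hPY hpP hbr
    exact hdef P hpP (Fr.hasBr_stab hN hb hc hY hPY hpP hbr)
  push Not at hB
  -- Step C: a normal subgroup of `p`-power index
  by_cases hR : ∃ (N : Subgroup H) (_ : N.Normal), IsPGroup p (H ⧸ N) ∧ N ≠ ⊤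
  · obtain ⟨N, hN, hpN, hNne⟩ := hR
    obtain ⟨c, hc, hbc⟩ := exists_covered (p := p) N hb.ne_zero
    have hinv : InvBy ⊤ c := by
      rw [invBy_iff_cj]
      intro g _
      exact hB N c g hN hc hbc
    have hp : ∀ x : H, ∃ n : ℕ, x ^ p ^ n ∈ N := by
      intro x
      obtain ⟨n, hn⟩ := hpN (QuotientGroup.mk x)
      refine ⟨n, ?_⟩
      rwa [← QuotientGroup.mk_pow, QuotientGroup.eq_one_iff] at hn
    have hbc' : b = c := by
      rcases hb.eq_or_mul_eq_zero (isBlock_up le_top hp hc hinv) with h | h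
      · exact h
      · exact absurd h hbc
    have h1 : ∀ H', N ≤ H' → NavarroEq p N H' c := by
      intro H' hNH'
      apply navarro_of_baw hNH' (fun x _ => mem_norm_of_normal N x) (fun x _ => hp x) hc
        (hinv.mono le_top)
      intro σ hne hσ hσS b' hb' hbe
      apply hsub _ _ _ hb'
      · intro P hP hpP hbr
        apply hdef P hpP
        rw [hbc']
        exact hasBr_of_chain_block hNH' hc (hinv.mono le_top) hne hσ hσS hb' hbe hpP hP hbr
      · intro h0
        apply hNne
        rw [eq_top_iff, ← h0]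
        exact inf_le_left
    have key := equivariant_iff (p := p) hp hc hinv
    rw [hbc']
    apply key.2 (key.1.1 h1) ⊤ ⊤ le_top le_rfl
    rw [Subgroup.normalizer_eq_top]
  push Not at hR
  -- the unique block covered is a central idempotent above `b`
  have hcen : ∀ (N : Subgroup H) (c' : MonoidAlgebra k H), N.Normal → IsBlock N c' → b * c' ≠ 0 →
      InvBy ⊤ c' ∧ b * c' = b := by
    intro N c' hN hc' hbc'
    have hinv : InvBy (⊤ : Subgroup H) c' := by
      rw [invBy_iff_cj]
      intro g _
      exact hB N c' g hN hc' hbc'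
    have hmem : c' ∈ fixAlg k (⊤ : Subgroup H) ⊤ :=
      mem_fixAlg.2 ⟨fun _ _ => Subgroup.mem_top _, hinv⟩
    refine ⟨hinv, ?_⟩
    rw [Fr.comm_top hb.mem c']
    rcases hb.mul_eq hmem hc'.idem with h | h
    · exfalso
      apply hbc'
      rw [Fr.comm_top hb.mem c', h]
    · exact h
  -- Step K: the kernel
  let K : Subgroup H :=
    { carrier := {x | single x (1 : k) * b = b}
      mul_mem' := by
        intro x y hx hy
        change single (x * y) (1 : k) * b = b
        have h1 : single (x * y) (1 : k) = single x 1 * single y 1 := by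
          rw [single_mul_single, one_mul]
        rw [h1, mul_assoc, show single y (1 : k) * b = b from hy]
        exact hx
      one_mem' := by
        change single (1 : H) (1 : k) * b = b
        exact one_mul b
      inv_mem' := by
        intro x hx
        change single x⁻¹ (1 : k) * b = b
        have h1 : single x⁻¹ (1 : k) * (single x 1 * b) = b := by
          rw [← mul_assoc, single_mul_single, inv_mul_cancel, one_mul]
          exact one_mul b
        rwa [show single x (1 : k) * b = b from hx] at h1 }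
  have hKmem : ∀ x, x ∈ K ↔ single x (1 : k) * b = b := fun x => Iff.rfl
  by_cases hK : K ≠ ⊥
  · have hKn : K.Normal := by
      refine ⟨fun x hx g => ?_⟩
      rw [hKmem] at hx ⊢
      have h1 := congrArg (cj g) hx
      rw [cj_mul, Fr.cj_top hb.mem] at h1
      have h2 : cj g (single x (1 : k)) = single (g * x * g⁻¹) 1 := by
        rw [cj, single_mul_single, single_mul_single, one_mul, one_mul]
      rwa [h2] at h1
    let π : H →* H ⧸ K := QuotientGroup.mk' K
    have hπ : Function.Surjective π := QuotientGroup.mk'_surjective K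
    have hkerK : π.ker = K := QuotientGroup.ker_mk' K
    have hker : (Nat.card π.ker : k) ≠ 0 := by
      rw [hkerK]
      exact Kr.card_kernel_ne_zero (p := p) hb.mem hb.idem hb.ne_zero (fun x hx => hx)
    have hKT : Kr.KT π b := Kr.KT_of_ker (fun x hx => by
      have h1 : x ∈ π.ker := hx
      rw [hkerK] at h1
      exact h1)
    have : Fintype (H ⧸ K) := Fintype.ofFinite _
    apply Kr.navarro_pm hπ hker hb hKT
    refine ih (Nat.card (H ⧸ K)) ?_ (H ⧸ K) rfl ((IsSection.of_surjective π hπ).trans hsec) _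
      (Kr.isBlock_pm hπ hker hb hKT) ?_
    · have h1 : Nat.card H = Nat.card (H ⧸ K) * Nat.card K :=
        Subgroup.card_eq_card_quotient_mul_card_subgroup K
      have h2 : 1 < Nat.card K := by
        rw [Subgroup.one_lt_card_iff_ne_bot]
        exact hK
      rw [← hcard, h1]
      exact lt_mul_of_one_lt_right Nat.card_pos h2
    · intro P' hpP' hbr
      obtain ⟨P, h1, h2, h3⟩ := Kr.exists_hasBr_of_pm hπ hker hb.invBy hpP' hbr
      refine hC _ _ _ _ h1 ?_ (hdef P h1 h3)
      refine PairSyl.of_hom π hπ (by rw [h2]) ?_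
      intro hd
      apply hker
      have h6 : p ∣ Nat.card π.ker := hd.trans (Subgroup.index_dvd_card _)
      exact (CharP.cast_eq_zero_iff k p _).2 h6
  push Not at hK
  have hfaith : ∀ x : H, single x (1 : k) * b = b → x = 1 := by
    intro x hx
    have h1 : x ∈ K := hx
    rwa [hK, Subgroup.mem_bot] at h1
  -- Step D: small defect
  by_cases hD : ∀ P : Subgroup H, IsPGroup p P → HasBr P b → Nat.card P ≤ p
  · exact Rk.base hb hD
  push Not at hD
  have hAb : ∀ N : Subgroup H, N.Normal → (∀ x ∈ N, ∀ y ∈ N, x * y = y * x) →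
      N ≤ Subgroup.center H ∧ IsCyclic N := by
    intro N hN hcomm
    obtain ⟨c, hc, hbc⟩ := exists_covered (p := p) N hb.ne_zero
    obtain ⟨hinv, hbc'⟩ := hcen N c hN hc hbc
    have hp := not_dvd_of_abelian hA hN hcomm
    exact ⟨Kr.central_of_abelian hN hcomm hp hb.mem hc hinv hbc' hfaith,
      Kr.cyclic_of_abelian hcomm hp hb.mem hc hbc' hfaith⟩
  refine hred H hsec b ⟨hb, fun P hP hpP => hA P hP hpP, fun N hN hpN => hR N hN hpN, ?_, hfaith,
    fun N hN hcomm => (hAb N hN hcomm).1, ?_⟩ hdef hD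
  · intro N hN
    obtain ⟨c, hc, hbc⟩ := exists_covered (p := p) N hb.ne_zero
    refine ⟨c, ⟨hc, hbc⟩, ?_⟩
    rintro c' ⟨hc', hbc'⟩
    rcases hc'.eq_or_mul_eq_zero hc with h | h
    · exact h
    · exfalso
      apply hbc
      have h1 : b * c' * c = b * c := by rw [(hcen N c' hN hc' hbc').2]
      rw [← h1, mul_assoc, h, mul_zero]
  · refine (hAb (Subgroup.center H) inferInstance ?_).2
    intro x hx y _
    exact ((Subgroup.mem_center_iff.1 hx) y).symm

open Pool.Agent.Lib.P0c8ca5.Red2Aux

/-- the reduction of the blockwise weight conjecture to strongly reduced blocks -/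
theorem baw_of_reduced2_syl {p : ℕ} [Fact p.Prime] {k : Type v} [Field k] [IsAlgClosed k] [CharP k p]
    {G₀ : Type*} [Group G₀] (C : ∀ (H : Type u) [Group H], Subgroup H → Prop)
    (hC : ∀ (H H' : Type u) [Group H] [Group H'] [Finite H] (P : Subgroup H)
      (P' : Subgroup H'), IsPGroup p P → PairSyl p P' P → C H P → C H' P')
    (hred : ∀ (H : Type u) [Group H] [Finite H], IsSection H G₀ → ∀ b : MonoidAlgebra k H,
      Reduced2 p b → PairCond C p b →
      (∃ P : Subgroup H, IsPGroup p P ∧ HasBr P b ∧ ¬ IsCyclic P) → NavarroEq p ⊤ ⊤ b) :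
    ∀ (n : ℕ) (H : Type u) [Group H] [Finite H], Nat.card H = n → IsSection H G₀ →
      ∀ b : MonoidAlgebra k H, IsBlock ⊤ b → PairCond C p b → NavarroEq p ⊤ ⊤ b := by
  intro n
  induction n using Nat.strong_induction_on with
  | _ n ih =>
  intro H _ _ hcard hsec b hb hdef
  refine baw_of_reduced_syl (p := p) (k := k) (G₀ := H) C hC ?_ n H hcard (IsSection.refl H) b hb hdef
  intro H' _ _ hsec' b' hb' hdef' _
  have hle : Nat.card H' ≤ n := by
    rw [← hcard]
    exact hsec'.card_le
  rcases lt_or_eq_of_le hle with hlt | heq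
  · exact ih _ hlt H' rfl (hsec'.trans hsec) b' hb'.block hdef'
  by_cases hq : ∀ N M : Subgroup H', N.Normal → M.Normal → N ≤ M → ¬ p ∣ Nat.card N →
      (∀ x ∈ M, ∃ n : ℕ, x ^ p ^ n ∈ N) → M = N
  · by_cases hcyc : ∀ P : Subgroup H', IsPGroup p P → HasBr P b' → IsCyclic P
    · have : Fintype H' := Fintype.ofFinite H'
      exact Cb.base_cyc H' b' hb'.block (fun P _ hP hbr => ⟨hcyc P hP hbr, trivial⟩)
    · push Not at hcyc
      exact hred H' (hsec'.trans hsec) b' ⟨hb'.block, hb'.residual, hq, hb'.prim, hb'.faithful,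
        hb'.abelian, hb'.cyclic⟩ hdef' hcyc
  · push Not at hq
    obtain ⟨N, M, hN, hM, hNM, hpN, hpM, hne⟩ := hq
    have : Fintype H' := Fintype.ofFinite H'
    apply step_quot hb' hN hM hNM hpN hpM hne
    intro Y hY c hc hbr
    apply navarro_transport hc
    refine ih (Nat.card Y) ?_ Y rfl
      (((IsSection.of_subgroup Y).trans hsec').trans hsec) _ (dn_isBlock hc) ?_
    · rw [← heq]
      exact lt_of_le_of_ne (Subgroup.card_le_card_group Y)
        (fun h => hY (Subgroup.eq_top_of_card_eq Y h))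
    · intro P hpP hbrP
      refine hC _ _ _ _ (hpP.map _) (PairSyl.of_subgroup P) (hdef' _ (hpP.map _) (hbr _ ?_ (hpP.map _)
        (RedAux.hasBr_up' hbrP)))
      rintro _ ⟨x, _, rfl⟩
      exact x.2

end Pool.Agent.Lib.P0c8ca5.Yy
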