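import Mathlib
import Pool.Agent.Lib.P0c8ca5.Reg
import Pool.Agent.Lib.P0c8ca5Q.DecA
import Pool.Agent.Lib.P0c8ca5Q.Sup

/-!
# Module SuppA: the support of a block over a section that is an abelian p-group

`C ≤ N` are normal in `A`, `N / C` is an abelian p-group, `c` is an `A`-invariant block of `C`, `b` a central idempotent of `kA`
with `b * c = b`.  Then `b` is supported on the elements that act trivially on `N / C` (`supp_cent` in SuppB).

`B₁ = cen C N` is the normal subgroup of these elements.  `IN` below: `InvBy N u`, i.e. `u` commutes with `kN`.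
PROOF of `norm_cen`, `le_cen`: direct (`C`, `N` normal; `N / C` abelian).
PROOF of `loc`.  `c` is a block of `N` (`isBlock_up` / `isBlock_up'`: `N / C` a p-group, `c` invariant), and `PrimIdem.nilp_or_unit`
(P0c8ca5.CommAlg) in the commutative Artinian ring `fixAlg k N N` (`IsBlock.primIdem`).
PROOF of `not_unit`.  Let `P ≤ N` be a p-subgroup with `C ⊔ P = N` and `HasBr P c` (`exists_br_sup` in P0c8ca5.Reg).  `resS C(P)` is
multiplicative on the `P`-invariant elements (`resS_mul`), so `resS C(P) u * resS C(P) v = resS C(P) c ≠ 0`; hence `u.coeff y ≠ 0` for some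
`y ∈ C(P)`.  `y x⁻¹ ∈ N` and `y` acts trivially on `N / C`: for `n = c₀ q` (`c₀ ∈ C`, `q ∈ P`), `y n y⁻¹ n⁻¹ = (y c₀ y⁻¹) c₀⁻¹ ∈ C`.  So
`y ∈ cen C N`, and `x ∈ N y ⊆ cen C N`.
-/

namespace Pool.Agent.Lib.P0c8ca5.Yy

open MonoidAlgebra Pool.Agent.Lib.P0c8ca5.Bq

variable {p : ℕ} {k : Type*} [Field k] {A : Type*} [Group A]

/-- the elements that act trivially on `N / C` -/
def cen (C N : Subgroup A) [hC : C.Normal] [hN : N.Normal] : Subgroup A where
  carrier := {x | ∀ n ∈ N, x * n * x⁻¹ * n⁻¹ ∈ C}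
  mul_mem' := by
    rintro a b ha hb n hn
    have h1 := hC.conj_mem _ (hb n hn) a
    have h2 := C.mul_mem h1 (ha n hn)
    have e : a * (b * n * b⁻¹ * n⁻¹) * a⁻¹ * (a * n * a⁻¹ * n⁻¹) = a * b * n * (a * b)⁻¹ * n⁻¹ := by
      group
    rwa [e] at h2
  one_mem' := by
    intro n _
    have e : (1 : A) * n * 1⁻¹ * n⁻¹ = 1 := by group
    rw [e]
    exact C.one_mem
  inv_mem' := by
    rintro a ha n hn
    have h1 := hC.conj_mem _ (C.inv_mem (ha n hn)) a⁻¹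
    have e : a⁻¹ * (a * n * a⁻¹ * n⁻¹)⁻¹ * a⁻¹⁻¹ = a⁻¹ * n * a⁻¹⁻¹ * n⁻¹ := by group
    rwa [e] at h1

theorem mem_cen {C N : Subgroup A} [C.Normal] [N.Normal] {x : A} :
    x ∈ cen C N ↔ ∀ n ∈ N, x * n * x⁻¹ * n⁻¹ ∈ C := Iff.rfl

theorem norm_cen (C N : Subgroup A) [C.Normal] [N.Normal] : (cen C N).Normal := by
  refine ⟨fun x hx g n hn => ?_⟩
  have h1 : g⁻¹ * n * g ∈ N := by
    have h := (inferInstance : N.Normal).conj_mem n hn g⁻¹
    rwa [inv_inv] at h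
  have h2 := (inferInstance : C.Normal).conj_mem _ (hx _ h1) g
  have e : g * (x * (g⁻¹ * n * g) * x⁻¹ * (g⁻¹ * n * g)⁻¹) * g⁻¹
      = g * x * g⁻¹ * n * (g * x * g⁻¹)⁻¹ * n⁻¹ := by group
  rwa [e] at h2

theorem le_cen {C N : Subgroup A} [C.Normal] [N.Normal]
    (hab : ∀ x ∈ N, ∀ y ∈ N, y * x * y⁻¹ * x⁻¹ ∈ C) : N ≤ cen C N :=
  fun x hx n hn => hab n hn x hx

/-- `u = a_x * v` of degree `g` -/
def Good (C N : Subgroup A) [C.Normal] [N.Normal] (c a : MonoidAlgebra k A) (g : A)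
    (u : MonoidAlgebra k A) : Prop :=
  (∀ z, u.coeff z ≠ 0 → z * g⁻¹ ∈ N) ∧ InvBy N u ∧ u * c = u ∧
    ∃ x v, x ∉ cen C N ∧ InvBy N v ∧ u = resS (cos N x) a * v

theorem loc [Fact p.Prime] [CharP k p] [IsAlgClosed k] [Fintype A] {C N : Subgroup A}
    [C.Normal] [N.Normal] (hCN : C ≤ N) (hp : ∀ x ∈ N, ∃ n : ℕ, x ^ p ^ n ∈ C)
    {c : MonoidAlgebra k A} (hc : IsBlock C c) (hci : InvBy ⊤ c) {u : MonoidAlgebra k A}
    (hu : u ∈ fixAlg k N N) (huc : u * c = u) :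
    IsNilpotent u ∨ ∃ u' ∈ fixAlg k N N, u * u' = c := by
  have hb : IsBlock N c := isBlock_up' hCN (fun x _ => mem_norm_of_normal C x) hp hc
    (hci.mono le_top)
  have : IsArtinianRing (fixAlg k N N) := IsArtinianRing.of_finite k _
  rcases hb.primIdem.nilp_or_unit (⟨u, hu⟩ : fixAlg k N N) with h | ⟨w, hw⟩
  · left
    obtain ⟨n, hn⟩ := h
    refine ⟨n, ?_⟩
    have h1 := congrArg Subtype.val hn
    have h2 : (((⟨u, hu⟩ : fixAlg k N N) * ⟨c, hb.mem⟩ : fixAlg k N N) :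
        MonoidAlgebra k A) = u := huc
    rw [SubmonoidClass.coe_pow, h2] at h1
    exact h1
  · right
    refine ⟨w.1 * c, (fixAlg k N N).mul_mem w.2 hb.mem, ?_⟩
    have h1 := congrArg Subtype.val hw
    rw [← mul_assoc]
    exact h1

theorem not_unit [Fact p.Prime] [CharP k p] [IsAlgClosed k] [Fintype A] {C N : Subgroup A}
    [C.Normal] [N.Normal] (hCN : C ≤ N) (hp : ∀ x ∈ N, ∃ n : ℕ, x ^ p ^ n ∈ C)
    (hab : ∀ x ∈ N, ∀ y ∈ N, y * x * y⁻¹ * x⁻¹ ∈ C)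
    {c : MonoidAlgebra k A} (hc : IsBlock C c) (hci : InvBy ⊤ c) {x : A} (hx : x ∉ cen C N)
    {u v : MonoidAlgebra k A} (hu : ∀ z, u.coeff z ≠ 0 → z * x⁻¹ ∈ N) (hui : InvBy N u)
    (hvi : InvBy N v) : u * v ≠ c := by
  intro huv
  obtain ⟨P, hPN, hP, hsup, z, hz, hcz⟩ := exists_br_sup (p := p) hc (hci.mono (le_top : N ≤ ⊤))
    hCN (fun x _ => mem_norm_of_normal C x) hp
  have h1 := resS_mul hP (hui.mono hPN) (hvi.mono hPN)
  rw [huv] at h1
  have h2 : ∃ y ∈ Subgroup.centralizer (P : Set A), u.coeff y ≠ 0 := by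
    by_contra hcon
    push Not at hcon
    have h3 : resS (Subgroup.centralizer (P : Set A) : Set A) u = 0 := by
      ext y
      by_cases hy : y ∈ (Subgroup.centralizer (P : Set A) : Set A)
      · rw [coeff_resS_of_mem _ hy, hcon y hy]; rfl
      · rw [coeff_resS_of_notMem _ hy]; rfl
    rw [h3, zero_mul] at h1
    have h4 := congrArg (fun b : MonoidAlgebra k A => b.coeff z) h1
    change (resS _ c).coeff z = (0 : MonoidAlgebra k A).coeff z at h4
    rw [coeff_resS_of_mem _ hz] at h4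
    exact hcz h4
  obtain ⟨y, hy, huy⟩ := h2
  have hyN := hu y huy
  have hycen : y ∈ cen C N := by
    intro n hn
    rw [← hsup] at hn
    obtain ⟨c₀, hc₀, q, hq, rfl⟩ := Subgroup.mem_sup_of_normal_left.1 hn
    have h3 : q * y = y * q := Subgroup.mem_centralizer_iff.1 hy q hq
    have h4 : q * y⁻¹ * q⁻¹ = y⁻¹ := by
      have h5 : q * y⁻¹ = y⁻¹ * q := by
        calc q * y⁻¹ = y⁻¹ * (y * q) * y⁻¹ := by group
          _ = y⁻¹ * (q * y) * y⁻¹ := by rw [h3]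
          _ = y⁻¹ * q := by group
      rw [h5, mul_inv_cancel_right]
    have e : y * (c₀ * q) * y⁻¹ * (c₀ * q)⁻¹ = y * c₀ * y⁻¹ * c₀⁻¹ := by
      calc y * (c₀ * q) * y⁻¹ * (c₀ * q)⁻¹ = y * c₀ * (q * y⁻¹ * q⁻¹) * c₀⁻¹ := by group
        _ = _ := by rw [h4]
    rw [e]
    exact C.mul_mem ((inferInstance : C.Normal).conj_mem c₀ hc₀ y) (C.inv_mem hc₀)
  apply hx
  have h6 : x = (y * x⁻¹)⁻¹ * y := by group
  rw [h6]
  exact (cen C N).mul_mem ((cen C N).inv_mem (le_cen hab hyN)) hycen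

end Pool.Agent.Lib.P0c8ca5.Yy
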