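import Mathlib
import Pool.Agent.Lib.P0c8ca5Y.SuppA

/-!
# Module SuppB: the support of a block over a section that is an abelian p-group, main part

PROOF of `nilp`.  Suppose `a` is not nilpotent.  Let `a` be central (`InvBy ⊤ a`), `a * c = a`, no element of the support in `cen C N`.  Choose `n₀`
with `a ^ n₀ * kA = a ^ (n₀ + 1) * kA` (finite dimension), `L = a ^ n₀ * kA ≠ 0`; `a` acts injectively on `L` (it is surjective).
(i) There is `w ∈ L`, `w ≠ 0`, with `z * w = 0` for all nilpotent `z ∈ fixAlg k N N`: otherwise for every `w ∈ L`, `w ≠ 0` there is such a `z` with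
`z * w ≠ 0`, `z * w ∈ L` (`a` is central); iterating, products of arbitrarily many nilpotent elements `z₁, …, zₙ` of the commutative
Artinian ring `fixAlg k N N` are nonzero, but the nilradical is nilpotent (`IsArtinianRing.isNilpotent_nilradical`).
Let `W` be the set of all `w ∈ L` with `z * w = 0` for all nilpotent `z ∈ fixAlg k N N`.  (ii) `W` is stable under the components
`a_x = resS (cos N x) a`: they commute with `kN` (`InvBy N a_x`), and `a_x * a ^ n₀ = a ^ n₀ * a_x`.  (iii) For `w ∈ W`, `w ≠ 0`: `a * w ≠ 0`, and `a` is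
the sum of its components over the cosets of `N` in `A`, so `a_x * w ≠ 0` for some `x`; `x ∉ cen C N` because `a_x ≠ 0` and `N ≤ cen C N`.
(iv) Iterate from `w₀ ∈ W`, `w₀ ≠ 0`: `w (i + 1) = a_{x (i+1)} * w i ≠ 0`, `w i ∈ W`, `g 0 = 1`, `g (i + 1) = x (i + 1) * g i`.  For `i < j`:
`w j = u * w i` where `u` satisfies `Good (g j * (g i)⁻¹) u` (`good_step`, `good_mul`: induction on `j`).  By the pigeonhole principle
there are `i < j` with `g j * (g i)⁻¹ ∈ N`; then `u ∈ fixAlg k N N`, `u * c = u`.  If `u` is nilpotent, `w j = u * w i = 0`, a contradiction.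
Otherwise `u * u' = c` for some `u' ∈ fixAlg k N N` (`loc`), `u = a_x * v` with `x ∉ cen C N`, against `not_unit` for `a_x` and `v * u'`.
PROOF of `supp_cent`.  `b' = resS (cen C N) b` is central (`cen C N` is normal) and `a = b - b'` is central, `a * c = a` (`resS` of a normal
subgroup containing the support of `c` commutes with the multiplication by `c`), so `a` is nilpotent by `nilp`.  `b` and `a` commute, so
`b' ^ p ^ n = (b - a) ^ p ^ n = b ^ p ^ n - a ^ p ^ n = b` for large `n` (`sub_pow_char_pow_of_commute`), and `b' ^ p ^ n` is supported in `cen C N`.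
-/

namespace Pool.Agent.Lib.P0c8ca5.Yy

open MonoidAlgebra Pool.Agent.Lib.P0c8ca5.Bq

variable {p : ℕ} {k : Type*} [Field k] {A : Type*} [Group A]

namespace SuppBAux

theorem invMul {M : Subgroup A} {a b : MonoidAlgebra k A} (ha : InvBy M a)
    (hb : InvBy M b) : InvBy M (a * b) := by
  rw [invBy_iff_commute] at ha hb ⊢
  exact fun g hg => (ha g hg).mul_right (hb g hg)

theorem invOne {M : Subgroup A} : InvBy M (1 : MonoidAlgebra k A) := by
  rw [invBy_iff_commute]
  exact fun g _ => Commute.one_right _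

theorem suppOne {M : Subgroup A} : SuppIn M (1 : MonoidAlgebra k A) :=
  (mem_fixAlg.1 (fixAlg k M M).one_mem).1

theorem suppTop (a : MonoidAlgebra k A) : SuppIn (⊤ : Subgroup A) a :=
  fun x _ => Subgroup.mem_top x

theorem supp_pow {M : Subgroup A} {a : MonoidAlgebra k A} (ha : SuppIn M a) (n : ℕ) :
    SuppIn M (a ^ n) := by
  induction n with
  | zero => rw [pow_zero]; exact suppOne
  | succ n ih => rw [pow_succ]; exact ih.mul ha

/-- the components are invariant -/
theorem inv_comp {N : Subgroup A} [hN : N.Normal] {a : MonoidAlgebra k A} (ha : InvBy ⊤ a)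
    (x : A) : InvBy N (resS (cos N x) a) := by
  intro n hn z
  have key : n * z * n⁻¹ ∈ cos N x ↔ z ∈ cos N x := by
    rw [mem_cos, mem_cos]
    have e : n * z * n⁻¹ * x⁻¹ = n * (z * n⁻¹ * z⁻¹) * (z * x⁻¹) := by group
    rw [e]
    exact N.mul_mem_cancel_left (N.mul_mem hn (hN.conj_mem _ (N.inv_mem hn) z))
  by_cases hz : z ∈ cos N x
  · rw [coeff_resS_of_mem _ hz, coeff_resS_of_mem _ (key.2 hz), ha n (Subgroup.mem_top n)]
  · rw [coeff_resS_of_notMem _ hz, coeff_resS_of_notMem _ (fun h => hz (key.1 h))]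

theorem supp_comp {N : Subgroup A} {a : MonoidAlgebra k A} {x z : A}
    (h : (resS (cos N x) a).coeff z ≠ 0) : z * x⁻¹ ∈ N := by
  by_contra h'
  exact h (coeff_resS_of_notMem _ h')

open Classical in
/-- an element is the sum of its components -/
theorem sum_comp [Fintype A] {N : Subgroup A} [hN : N.Normal] (a : MonoidAlgebra k A) :
    a = ∑ q : A ⧸ N, resS (cos N q.out) a := by
  ext z
  have key : ∀ q : A ⧸ N, z ∈ cos N q.out ↔ (QuotientGroup.mk z : A ⧸ N) = q := by
    intro q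
    have h1 : (QuotientGroup.mk z : A ⧸ N) = q ↔ z⁻¹ * q.out ∈ N := by
      conv_lhs => rw [← QuotientGroup.out_eq' q]
      exact QuotientGroup.eq
    rw [h1, mem_cos]
    constructor
    · intro h
      have h2 := hN.conj_mem _ (N.inv_mem h) z⁻¹
      have e : z⁻¹ * (z * (q.out)⁻¹)⁻¹ * z⁻¹⁻¹ = z⁻¹ * q.out := by group
      rwa [e] at h2
    · intro h
      have h2 := hN.conj_mem _ (N.inv_mem h) z
      have e : z * (z⁻¹ * q.out)⁻¹ * z⁻¹ = z * (q.out)⁻¹ := by group
      rwa [e] at h2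
  rw [coeff_sum, Finsupp.finsetSum_apply, Finset.sum_eq_single (QuotientGroup.mk z : A ⧸ N)]
  · rw [coeff_resS_of_mem _ ((key _).2 rfl)]
  · intro q _ hq
    exact coeff_resS_of_notMem _ (fun h => hq ((key q).1 h).symm)
  · intro h; exact absurd (Finset.mem_univ _) h

/-- a nonzero element of `L` killed by the nilpotent elements -/
theorem exists_w [Fintype A] {N : Subgroup A} {L : MonoidAlgebra k A → Prop}
    (hL : ∀ z ∈ fixAlg k N N, ∀ w, L w → L (z * w)) {w₀ : MonoidAlgebra k A} (h0 : L w₀)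
    (h0' : w₀ ≠ 0) :
    ∃ w, L w ∧ w ≠ 0 ∧ ∀ z ∈ fixAlg k N N, IsNilpotent z → z * w = 0 := by
  classical
  have hA : IsArtinianRing (fixAlg k N N) := IsArtinianRing.of_finite k _
  obtain ⟨m, hm⟩ := IsArtinianRing.isNilpotent_nilradical (R := fixAlg k N N)
  have hP : ∃ i : ℕ, ∃ w, L w ∧ w ≠ 0 ∧
      ∀ z : fixAlg k N N, z ∈ (nilradical (fixAlg k N N)) ^ i → (z : MonoidAlgebra k A) * w = 0 := by
    refine ⟨m, w₀, h0, h0', fun z hz => ?_⟩
    rw [hm] at hz
    have hz' : z = 0 := hz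
    rw [hz']
    exact zero_mul w₀
  obtain ⟨w, hw, hw0, hwz⟩ := Nat.find_spec hP
  have hmin := fun i => Nat.find_min hP (m := i)
  generalize Nat.find hP = i at hwz hmin
  cases i with
  | zero =>
    exfalso
    apply hw0
    have h2 : (1 : fixAlg k N N) ∈ (nilradical (fixAlg k N N)) ^ 0 := by
      rw [pow_zero, Ideal.one_eq_top]
      trivial
    have h1 := hwz 1 h2
    have h3 : ((1 : fixAlg k N N) : MonoidAlgebra k A) = 1 := rfl
    rwa [h3, one_mul] at h1
  | succ i =>
    refine ⟨w, hw, hw0, fun z hz hzn => ?_⟩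
    by_contra hne
    apply hmin i (Nat.lt_succ_self i)
    refine ⟨z * w, hL z hz w hw, hne, fun z' hz' => ?_⟩
    obtain ⟨n, hn⟩ := hzn
    have h1 : (⟨z, hz⟩ : fixAlg k N N) ∈ nilradical (fixAlg k N N) := by
      rw [mem_nilradical]
      exact ⟨n, Subtype.ext hn⟩
    have h2 : z' * ⟨z, hz⟩ ∈ (nilradical (fixAlg k N N)) ^ (i + 1) := by
      rw [pow_succ]
      exact Ideal.mul_mem_mul hz' h1
    have h3 := hwz _ h2
    have h4 : ((z' * ⟨z, hz⟩ : fixAlg k N N) : MonoidAlgebra k A) = z' * z := rfl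
    rwa [h4, mul_assoc] at h3

/-- the kernels of the powers become stationary -/
theorem exists_stat [Fintype A] (a : MonoidAlgebra k A) :
    ∃ n : ℕ, ∀ r : MonoidAlgebra k A, a * (a ^ n * r) = 0 → a ^ n * r = 0 := by
  obtain ⟨n, -, hn⟩ := Module.End.exists_ker_pow_eq_ker_pow_succ
    (LinearMap.mulLeft k a : Module.End k (MonoidAlgebra k A))
  refine ⟨n, fun r hr => ?_⟩
  have h1 : ∀ m : ℕ, ∀ r : MonoidAlgebra k A,
      ((LinearMap.mulLeft k a : Module.End k (MonoidAlgebra k A)) ^ m) r = a ^ m * r := by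
    intro m r
    rw [LinearMap.pow_mulLeft, LinearMap.mulLeft_apply]
  have h2 : r ∈ LinearMap.ker
      ((LinearMap.mulLeft k a : Module.End k (MonoidAlgebra k A)) ^ n.succ) := by
    rw [LinearMap.mem_ker, h1, pow_succ', mul_assoc]
    exact hr
  rw [← hn, LinearMap.mem_ker, h1] at h2
  exact h2

end SuppBAux

open SuppBAux in
theorem nilp [Fact p.Prime] [CharP k p] [IsAlgClosed k] [Fintype A] {C N : Subgroup A}
    [C.Normal] [N.Normal] (hCN : C ≤ N) (hp : ∀ x ∈ N, ∃ n : ℕ, x ^ p ^ n ∈ C)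
    (hab : ∀ x ∈ N, ∀ y ∈ N, y * x * y⁻¹ * x⁻¹ ∈ C)
    {c : MonoidAlgebra k A} (hc : IsBlock C c) (hci : InvBy ⊤ c) {a : MonoidAlgebra k A}
    (hai : InvBy ⊤ a) (hac : a * c = a) (hsupp : ∀ x ∈ cen C N, a.coeff x = 0) :
    IsNilpotent a := by
  classical
  by_contra hnil
  have hc1 : SuppIn N c := hc.suppIn.mono hCN
  have hcomm : ∀ u : MonoidAlgebra k A, u * c = c * u := fun u => commute_of (suppTop u) hci
  have hacomm : ∀ u : MonoidAlgebra k A, u * a = a * u := fun u => commute_of (suppTop u) hai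
  obtain ⟨n₀, hn₀⟩ := exists_stat a
  have hpc : ∀ u : MonoidAlgebra k A, u * a ^ n₀ = a ^ n₀ * u := by
    intro u
    exact ((show Commute u a from hacomm u).pow_right n₀).eq
  let L : MonoidAlgebra k A → Prop := fun w => ∃ r, w = a ^ n₀ * r
  have hLm : ∀ z w, L w → L (z * w) := by
    rintro z w ⟨r, rfl⟩
    exact ⟨z * r, by rw [← mul_assoc, hpc z, mul_assoc]⟩
  obtain ⟨w₀, hw₀L, hw₀0, hw₀z⟩ := exists_w (N := N) (L := L) (fun z _ w hw => hLm z w hw)
    (w₀ := a ^ n₀) ⟨1, (mul_one _).symm⟩ (fun h => hnil ⟨n₀, h⟩)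
  let W : Set (MonoidAlgebra k A) := {w | L w ∧ w ≠ 0 ∧
    ∀ z ∈ fixAlg k N N, IsNilpotent z → z * w = 0}
  have hstep : ∀ w ∈ W, ∃ x, x ∉ cen C N ∧ resS (cos N x) a * w ∈ W := by
    rintro w ⟨hwL, hw0, hwz⟩
    have h1 : a * w ≠ 0 := by
      intro h
      obtain ⟨r, rfl⟩ := hwL
      exact hw0 (hn₀ r h)
    have h2 : ∃ q : A ⧸ N, resS (cos N q.out) a * w ≠ 0 := by
      by_contra hall
      push Not at hall
      apply h1
      rw [sum_comp (N := N) a, Finset.sum_mul]
      exact Finset.sum_eq_zero (fun q _ => hall q)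
    obtain ⟨q, hq⟩ := h2
    refine ⟨q.out, ?_, hLm _ w hwL, hq, ?_⟩
    · intro hx
      apply hq
      have h3 : resS (cos N q.out) a = 0 := by
        ext z
        by_cases hz : z ∈ cos N q.out
        · rw [coeff_resS_of_mem _ hz]
          apply hsupp
          have h4 := (cen C N).mul_mem (le_cen hab hz) hx
          rwa [inv_mul_cancel_right] at h4
        · exact coeff_resS_of_notMem _ hz
      rw [h3, zero_mul]
    · intro z hz hzn
      rw [← mul_assoc, commute_of (mem_fixAlg.1 hz).1 (inv_comp hai q.out), mul_assoc,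
        hwz z hz hzn, mul_zero]
  choose! X hX hX' using hstep
  let st : ℕ → MonoidAlgebra k A × A := fun n =>
    Nat.rec (w₀, 1) (fun _ s => (resS (cos N (X s.1)) a * s.1, X s.1 * s.2)) n
  have st0 : st 0 = (w₀, 1) := rfl
  have sts : ∀ n, st (n + 1) = (resS (cos N (X (st n).1)) a * (st n).1, X (st n).1 * (st n).2) :=
    fun n => rfl
  have hW : ∀ n, (st n).1 ∈ W := by
    intro n
    induction n with
    | zero => exact ⟨hw₀L, hw₀0, hw₀z⟩
    | succ n ih => rw [sts]; exact hX' _ ih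
  have hcx : ∀ x, resS (cos N x) a * c = resS (cos N x) a := by
    intro x
    rw [hcomm, ← resS_mul_cos hc1 a x, ← hcomm, hac]
  have key : ∀ i j, i ≤ j → ∃ u : MonoidAlgebra k A,
      (∀ z, u.coeff z ≠ 0 → z * ((st j).2 * ((st i).2)⁻¹)⁻¹ ∈ N) ∧ InvBy N u ∧
      (st j).1 = u * (st i).1 ∧ (i < j → u * c = u ∧ ∃ x v, x ∉ cen C N ∧ InvBy N v ∧
        u = resS (cos N x) a * v) := by
    intro i j hij
    induction j, hij using Nat.le_induction with
    | base =>
      refine ⟨1, fun z hz => ?_, invOne, (one_mul _).symm, fun h => absurd h (lt_irrefl _)⟩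
      rw [mul_inv_cancel, inv_one, mul_one]
      exact suppOne z hz
    | succ j hij ih =>
      obtain ⟨u, hu1, hu2, hu3, -⟩ := ih
      refine ⟨resS (cos N (X (st j).1)) a * u, fun z hz => ?_, invMul (inv_comp hai _) hu2, ?_,
        fun _ => ⟨?_, X (st j).1, u, hX _ (hW j), hu2, rfl⟩⟩
      · rw [coeff_mul_apply_left] at hz
        obtain ⟨y, hy, hy'⟩ := Finset.exists_ne_zero_of_sum_ne_zero hz
        have h1 := supp_comp (left_ne_zero_of_mul hy')
        have h2 := hu1 _ (right_ne_zero_of_mul hy')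
        rw [sts]
        have h3 := N.mul_mem ((inferInstance : N.Normal).conj_mem _ h2 y) h1
        have e : y * (y⁻¹ * z * ((st j).2 * (st i).2⁻¹)⁻¹) * y⁻¹ * (y * (X (st j).1)⁻¹)
            = z * (X (st j).1 * (st j).2 * (st i).2⁻¹)⁻¹ := by group
        rwa [e] at h3
      · rw [sts, mul_assoc, ← hu3]
      · rw [mul_assoc, hcomm u, ← mul_assoc, hcx]
  obtain ⟨i', j', hne, heq⟩ := Finite.exists_ne_map_eq_of_infinite (fun n => (st n).2)
  obtain ⟨i, j, hij, hg⟩ : ∃ i j, i < j ∧ (st i).2 = (st j).2 := by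
    rcases lt_or_gt_of_ne hne with h | h
    · exact ⟨i', j', h, heq⟩
    · exact ⟨j', i', h, heq.symm⟩
  obtain ⟨u, hu1, hu2, hu3, hu4⟩ := key i j hij.le
  obtain ⟨huc, x, v, hx, hv, huv⟩ := hu4 hij
  have hus : SuppIn N u := by
    intro z hz
    have h1 := hu1 z hz
    rwa [hg, mul_inv_cancel, inv_one, mul_one] at h1
  have hum : u ∈ fixAlg k N N := mem_fixAlg.2 ⟨hus, hu2⟩
  rcases loc hCN hp hc hci hum huc with h | ⟨u', hu', h⟩
  · apply (hW j).2.1
    rw [hu3]
    exact (hW i).2.2 u hum h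
  · refine not_unit hCN hp hab hc hci hx (u := resS (cos N x) a) (v := v * u')
      (fun z hz => supp_comp hz) (inv_comp hai x) (invMul hv (mem_fixAlg.1 hu').2) ?_
    rw [← mul_assoc, ← huv, h]

open SuppBAux in
/-- the support of a block -/
theorem supp_cent [Fact p.Prime] [CharP k p] [IsAlgClosed k] [Fintype A] {C N : Subgroup A}
    [C.Normal] [N.Normal] (hCN : C ≤ N) (hp : ∀ x ∈ N, ∃ n : ℕ, x ^ p ^ n ∈ C)
    (hab : ∀ x ∈ N, ∀ y ∈ N, y * x * y⁻¹ * x⁻¹ ∈ C)
    {c : MonoidAlgebra k A} (hc : IsBlock C c) (hci : InvBy ⊤ c) {b : MonoidAlgebra k A}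
    (hbi : InvBy ⊤ b) (hbb : b * b = b) (hbc : b * c = b) : SuppIn (cen C N) b := by
  classical
  have hcn : (cen C N).Normal := norm_cen C N
  have hcomm : ∀ u : MonoidAlgebra k A, u * c = c * u := fun u => commute_of (suppTop u) hci
  have hbcomm : ∀ u : MonoidAlgebra k A, u * b = b * u := fun u => commute_of (suppTop u) hbi
  obtain ⟨b', hb'⟩ : ∃ b', b' = resS (cen C N : Set A) b := ⟨_, rfl⟩
  have hb's : SuppIn (cen C N) b' := by rw [hb']; exact resS_suppIn
  have hb'i : InvBy ⊤ b' := by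
    rw [hb']
    refine resS_invBy ?_ hbi
    rw [Subgroup.normalizer_eq_top]
  have hcs : SuppIn (cen C N) c := (hc.suppIn.mono hCN).mono (le_cen hab)
  have hcos : cos (cen C N) (1 : A) = (cen C N : Set A) := by
    ext z
    rw [mem_cos, inv_one, mul_one]
    exact Iff.rfl
  have hb'c : b' * c = b' := by
    have h1 := resS_mul_cos hcs b 1
    rw [hcos, ← hcomm, hbc, ← hb', ← hcomm] at h1
    exact h1.symm
  have hai : InvBy ⊤ (b - b') := by
    intro g hg x
    rw [coeff_sub, Finsupp.sub_apply, Finsupp.sub_apply, hbi g hg x, hb'i g hg x]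
  have hac : (b - b') * c = b - b' := by rw [sub_mul, hbc, hb'c]
  have hsupp : ∀ x ∈ cen C N, (b - b').coeff x = 0 := by
    intro x hx
    rw [coeff_sub, Finsupp.sub_apply, hb', coeff_resS_of_mem _ hx, sub_self]
  obtain ⟨m, hm⟩ := nilp hCN hp hab hc hci hai hac hsupp
  have hchar : CharP (MonoidAlgebra k A) p :=
    charP_of_injective_algebraMap (algebraMap k (MonoidAlgebra k A)).injective p
  have hp1 : 1 < p := (Fact.out : p.Prime).one_lt
  have h1 : (b - b') ^ p ^ m = 0 := by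
    have h2 : m ≤ p ^ m := (Nat.lt_pow_self hp1).le
    obtain ⟨d, hd⟩ := Nat.exists_eq_add_of_le h2
    rw [hd, pow_add, hm, zero_mul]
  have h2 : b ^ p ^ m = b := by
    have h3 : ∀ j : ℕ, b ^ (j + 1) = b := by
      intro j
      induction j with
      | zero => simp
      | succ j ih => rw [pow_succ, ih, hbb]
    obtain ⟨j, hj⟩ := Nat.exists_eq_succ_of_ne_zero (pow_ne_zero m (Fact.out : p.Prime).ne_zero)
    rw [hj]
    exact h3 j
  have hc' : Commute b b' := (hbcomm b').symm
  rw [sub_pow_char_pow_of_commute _ _ hc', h2, sub_eq_zero] at h1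
  rw [h1]
  exact supp_pow hb's _

end Pool.Agent.Lib.P0c8ca5.Yy
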