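import Mathlib
import Pool.Agent.Lib.P0c8ca5Y.GrpY
import Pool.Agent.Lib.P0c8ca5Y.SuppB
import Pool.Agent.Lib.P0c8ca5Y.RedS
import Pool.Agent.Lib.P0c8ca5Z.Pr
import Pool.Agent.Lib.P0c8ca5C.HAss
import Pool.Agent.Lib.P0c8ca5C.SecCyc
import Pool.Agent.Lib.P0c8ca5S.Psv
import Pool.Agent.Lib.P0c8ca5T.PsC

/-!
# The blockwise weight conjecture for blocks with cyclic defect up to p-solvable normal subgroups and quotients
-/

namespace Pool.Agent.Lib.P0c8ca5.Yy

open MonoidAlgebra Pool.Agent.Lib.P0c8ca5 Pool.Agent.Lib.P0c8ca5.Cy Pool.Agent.Lib.P0c8ca5.Bq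
  Pool.Agent.Lib.P0c8ca5.Ps Pool.Agent.Lib.P0c8ca5.Zz

universe u v

/-- one layer: the weight equality for a primitive block follows from the one for proper subgroups -/
theorem step_layer {p : ℕ} [Fact p.Prime] {k : Type v} [Field k] [CharP k p] [IsAlgClosed k]
    {A : Type u} [Group A] [Fintype A] {b : MonoidAlgebra k A} (hb : IsBlock (⊤ : Subgroup A) b)
    (hprim : ∀ N : Subgroup A, N.Normal → ∃! c : MonoidAlgebra k A, IsBlock N c ∧ b * c ≠ 0)
    {M : Subgroup A} [M.Normal] (hM : PSolv p (A ⧸ M)) (hnp : ¬ ∀ x : A, Prm p M x)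
    (hres : ∀ T : Subgroup A, T.Normal → (∀ x : A, ∃ n : ℕ, x ^ p ^ n ∈ T) → T = ⊤)
    (hW : ∀ Y : Subgroup A, Y ≠ ⊤ → SuppIn Y b → WEq p Y b) : WEq p (⊤ : Subgroup A) b := by
  obtain ⟨C, N, B₀, B₁, hC, hN, hB₀, hB₁, hCN, hpN, hab, hcen, hpB, halt⟩ :=
    exists_layer hM hnp hres
  obtain ⟨c, ⟨hc, hbc⟩, huniq⟩ := hprim C hC
  -- `c` is invariant
  have hci : InvBy (⊤ : Subgroup A) c := by
    rw [invBy_iff_cj]
    intro g _
    apply huniq
    constructor
    · have h1 := isBlock_cg hc g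
      rwa [cg_normal] at h1
    · intro h0
      apply hbc
      have h1 := congrArg (cj g⁻¹) h0
      rw [cj_mul, cj_zero, cj_cj, inv_mul_cancel, cj_one_left] at h1
      have h2 : cj g⁻¹ b = b := (invBy_iff_cj.1 hb.invBy) _ (Subgroup.mem_top _)
      rwa [h2] at h1
  have hmem : c ∈ fixAlg k (⊤ : Subgroup A) ⊤ :=
    mem_fixAlg.2 ⟨fun _ _ => Subgroup.mem_top _, hci⟩
  have hcomm : c * b = b * c := commute_of (fun _ _ => Subgroup.mem_top _) hb.invBy
  have hbc' : b * c = b := by
    rcases hb.mul_eq hmem hc.idem with h | h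
    · rw [hcomm] at h; exact absurd h hbc
    · rw [← hcomm]; exact h
  -- the support
  have hsB₁ : SuppIn B₁ b := by
    intro x hx
    rw [hcen]
    exact supp_cent hCN hpN hab hc hci hb.invBy hb.idem hbc' x hx
  rcases halt with hna | ⟨hh, hg⟩
  · refine weq_pairs (N := B₁) le_top (fun x _ => mem_norm_of_normal B₁ x) (fun y _ => hpB y) ?_
      hsB₁ hb.invBy hb.idem ?_
    · intro h
      exact hna (fun x y => h x (Subgroup.mem_top x) y (Subgroup.mem_top y))
    · intro Y hBY hY
      exact hW Y hY.ne (hsB₁.mono hBY)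
  · have hsB₀ : SuppIn B₀ b :=
      supp_in_of_pQuotient hh.CN (fun x _ => mem_norm_of_normal B₀ x) hh.pgrp
        (mem_fixAlg.2 ⟨hsB₁, hb.invBy.mono le_top⟩) hb.idem
    refine weq_hyp (C := B₀) (N := B₁) hh hsB₀ hb.invBy hb.idem ?_
    intro g
    exact hW _ (hg g) (hsB₀.mono le_sup_left)

/-- the condition passes to subgroups -/
theorem cycQ_map {p : ℕ} [Fact p.Prime] {H : Type u} [Group H] [Finite H] {Y : Subgroup H}
    {P : Subgroup ↥Y} (hP : IsPGroup p P) (h : CycQ p H (P.map Y.subtype)) : CycQ p ↥Y P :=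
  h.of_pairSyl (hP.map _) (PairSyl.of_subgroup P)

theorem base_q_aux {p : ℕ} [Fact p.Prime] {k : Type v} [Field k] [IsAlgClosed k] [CharP k p] :
    ∀ (n : ℕ) (H : Type u) [Group H] [Finite H], Nat.card H = n →
      ∀ b : MonoidAlgebra k H, IsBlock ⊤ b →
      (∀ P : Subgroup H, IsPGroup p P → HasBr P b → CycQ p H P) → NavarroEq p ⊤ ⊤ b := by
  intro n
  induction n using Nat.strong_induction_on with
  | _ n ih =>
  intro H _ _ hcard b hb hC
  refine baw_of_reduced2_syl (p := p) (k := k) (G₀ := H) (fun H _ P => CycQ p H P)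
    (fun _ _ _ _ _ _ _ hP hs h => h.of_pairSyl hP hs) ?_ n H hcard (IsSection.refl H) b hb hC
  intro H' _ _ hsec b' hb' hC' hnc
  have hle : Nat.card H' ≤ n := by
    rw [← hcard]
    exact hsec.card_le
  rcases lt_or_eq_of_le hle with hlt | heq
  · exact ih _ hlt H' rfl b' hb'.block hC'
  obtain ⟨P, hP, hPb, hPc⟩ := hnc
  obtain ⟨S, M, hSn, hMn, hS, hM, hc⟩ := hC' P hP hPb
  obtain ⟨N, hN, hpN, hmax⟩ := exists_core (p := p) H'
  have hSN : S ≤ N := psolv_le_core hN hpN hmax (fun M hM hNM hpM =>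
    hb'.quot N M hN hM hNM hpN hpM) hSn hS
  -- `P ⊓ M` is cyclic
  have hcyc : IsCyclic ↥(P ⊓ M) := by
    let α : ↥(P ⊓ M) →* H' ⧸ S := (QuotientGroup.mk' S).comp (P ⊓ M).subtype
    have hα : IsCyclic ↥α.range := by
      refine cyc_of_le ?_ hc
      rintro _ ⟨x, rfl⟩
      exact ⟨x.1, x.2, rfl⟩
    have hinj : Function.Injective α := by
      rw [injective_iff_map_eq_one]
      intro x hx
      have h1 : (x : H') ∈ S := (QuotientGroup.eq_one_iff (N := S) _).1 hx
      have h2 : (x : H') ∈ N := hSN h1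
      obtain ⟨n, hn⟩ := hP ⟨x.1, x.2.1⟩
      have h3 : orderOf (x : H') ∣ p ^ n := by
        apply orderOf_dvd_of_pow_eq_one
        exact congrArg Subtype.val hn
      have h4 : orderOf (x : H') ∣ Nat.card N := by
        have h5 := orderOf_dvd_natCard (⟨x, h2⟩ : ↥N)
        rwa [Subgroup.orderOf_mk] at h5
      have h5 : orderOf (x : H') = 1 := by
        obtain ⟨i, -, hi⟩ := (Nat.dvd_prime_pow (Fact.out : p.Prime)).1 h3
        rcases Nat.eq_zero_or_pos i with h0 | h0
        · rw [hi, h0, pow_zero]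
        · exfalso
          apply hpN
          refine dvd_trans ?_ h4
          rw [hi]
          exact dvd_pow_self p h0.ne'
      exact Subtype.ext (orderOf_eq_one_iff.1 h5)
    have h1 : Function.Injective α.rangeRestrict := (MonoidHom.rangeRestrict_injective_iff).2 hinj
    exact isCyclic_of_injective α.rangeRestrict h1
  -- so `P` is not contained in `M`
  have hnp : ¬ ∀ x : H', Prm p M x := by
    intro h
    apply hPc
    have hPM : P ≤ M := by
      intro x hx
      obtain ⟨m, hm, hmM⟩ := h x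
      obtain ⟨r, hr⟩ := hP ⟨x, hx⟩
      have hr' : x ^ p ^ r = 1 := congrArg Subtype.val hr
      have h1 : x ^ p ^ r ∈ M := by rw [hr']; exact M.one_mem
      have h2 : Nat.gcd m (p ^ r) = 1 := by
        have h3 : Nat.Coprime m p :=
          ((Nat.Prime.coprime_iff_not_dvd (Fact.out : p.Prime)).2 hm).symm
        exact h3.pow_right r
      have h3 := GqAux.pow_gcd_mem hmM h1
      rwa [h2, pow_one] at h3
    rwa [inf_eq_left.2 hPM] at hcyc
  have : Fintype H' := Fintype.ofFinite H'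
  apply PsvAux.navarro_of_weq hb'.block
  refine step_layer hb'.block hb'.prim hM hnp ?_ ?_
  · intro T hT hpT
    apply hb'.residual T
    intro x
    obtain ⟨y, rfl⟩ := QuotientGroup.mk_surjective x
    obtain ⟨m, hm⟩ := hpT y
    refine ⟨m, ?_⟩
    rw [← QuotientGroup.mk_pow, QuotientGroup.eq_one_iff]
    exact hm
  · intro Y hY hYb
    have hbY : InvBy Y b' := hb'.block.invBy.mono le_top
    apply Cy.weq_of_blocks hYb hbY hb'.block.idem
    intro f hf hfb
    apply navarro_transport hf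
    have hmem : b' ∈ fixAlg k Y Y := mem_fixAlg.2 ⟨hYb, hbY⟩
    have hcomm : b' * f = f * b' := commute_of hYb hf.invBy
    have hmul : f * b' = f := by
      rcases hf.mul_eq hmem hb'.block.idem with h | h
      · rw [hcomm] at h; exact absurd h hfb
      · rw [← hcomm]; exact h
    refine ih (Nat.card ↥Y) ?_ ↥Y rfl _ (dn_isBlock hf) ?_
    · rw [← heq]
      exact PsvAux.card_lt_of_ne_top hY
    · intro R hR hbr
      apply cycQ_map hR
      refine hC' _ (hR.map _) ?_
      have hRY : R.map Y.subtype ≤ Y := by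
        rintro _ ⟨y, _, rfl⟩
        exact y.2
      exact hasBr_of_mul (hR.map _) (hf.invBy.mono hRY) (hbY.mono hRY) hmul
        (RedAux.hasBr_up' hbr)

/-- **The blockwise weight conjecture** for the blocks whose defect groups `E` have a cyclic image of `E ⊓ M` modulo
`S`, for normal subgroups `S`, `M` such that `S` and the quotient by `M` are p-solvable -/
theorem base_q {p : ℕ} [Fact p.Prime] {k : Type v} [Field k] [IsAlgClosed k] [CharP k p]
    (H : Type u) [Group H] [Finite H] (b : MonoidAlgebra k H) (hb : IsBlock ⊤ b)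
    (hC : ∀ P : Subgroup H, IsPGroup p P → HasBr P b → CycQ p H P) : NavarroEq p ⊤ ⊤ b :=
  base_q_aux (Nat.card H) H rfl b hb hC

end Pool.Agent.Lib.P0c8ca5.Yy
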