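import Mathlib
import Pool.Agent.Lib.P0c8ca5F.Red3
import Pool.Agent.Lib.P0c8ca5Y.StepY
import Pool.Agent.Lib.P0c8ca5Z.Pr2

/-!
# Reduction of the blockwise weight conjecture to reduced blocks, p-solvable quotients
-/

namespace Pool.Agent.Lib.P0c8ca5

open MonoidAlgebra

universe u v

/-- `b` is the idempotent of a strongly reduced block of `H`: every p-solvable quotient of `H` has order prime
to `p`, it is abelian and generated by two elements if `b` is supported on the kernel, `O_p(H) = 1`, every normal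
subgroup of order prime to `p` is central, the centre of `H` is cyclic, for every normal subgroup `N`
of `H` there is only one block `c` of `N` which is covered by the block, and the block is faithful (only
the identity of `H` acts trivially on `kHb`). -/
structure Reduced4 (p : ℕ) {k : Type*} [Field k] {H : Type*} [Group H] (b : MonoidAlgebra k H) :
    Prop where
  block : IsBlock ⊤ b
  solv : ∀ (N : Subgroup H) [N.Normal], Ps.PSolv p (H ⧸ N) → ¬ p ∣ N.index
  two : ∀ (N : Subgroup H) [N.Normal], Ps.PSolv p (H ⧸ N) → (∀ x, b.coeff x ≠ 0 → x ∈ N) →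
    ∃ x y : H, y * x * y⁻¹ * x⁻¹ ∈ N ∧ N ⊔ Subgroup.closure {x, y} = ⊤
  core : ∀ P : Subgroup H, P.Normal → IsPGroup p P → P = ⊥
  central : ∀ N : Subgroup H, N.Normal → ¬ p ∣ Nat.card N → N ≤ Subgroup.center H
  cyclic : IsCyclic (Subgroup.center H)
  prim : ∀ N : Subgroup H, N.Normal → ∃! c : MonoidAlgebra k H, IsBlock N c ∧ b * c ≠ 0
  faithful : ∀ x : H, single x (1 : k) * b = b → x = 1

namespace Red4Aux

open Ps Bq Cy Zz

/-- the weight equality for a subgroup follows from the conjecture for its blocks -/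
theorem weq_sub {p : ℕ} [Fact p.Prime] {k : Type v} [Field k] [IsAlgClosed k] [CharP k p]
    {A : Type u} [Group A] [Fintype A] {b : MonoidAlgebra k A} (hb : IsBlock ⊤ b)
    (IH1 : ∀ Y : Subgroup A, Y ≠ ⊤ → ∀ c : MonoidAlgebra k A, IsBlock Y c →
      (∀ P : Subgroup A, P ≤ Y → IsPGroup p P → HasBr P c → HasBr P b) → NavarroEq p Y Y c)
    {Y : Subgroup A} (hY : Y ≠ ⊤) (hYb : SuppIn Y b) : WEq p Y b := by
  have hbY : InvBy Y b := hb.invBy.mono le_top
  apply Cy.weq_of_blocks hYb hbY hb.idem
  intro f hf hfb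
  apply IH1 Y hY f hf
  intro P hPY hP hbr
  exact Red3Aux.hasBr_below hYb hbY hb.idem hf hfb hPY hP hbr

theorem prm_of_index {p : ℕ} {A : Type*} [Group A] {M : Subgroup A} [M.Normal]
    (h : ¬ p ∣ M.index) (x : A) : Prm p M x :=
  ⟨M.index, h, M.pow_index_mem x⟩

theorem not_prm_of_index {p : ℕ} [Fact p.Prime] {A : Type*} [Group A] [Finite A]
    {M : Subgroup A} [M.Normal] (h : p ∣ M.index) : ¬ ∀ x : A, Prm p M x := by
  intro h0
  have h1 : p ∣ Nat.card (A ⧸ M) := h
  obtain ⟨y, hy⟩ := exists_prime_orderOf_dvd_card' p h1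
  obtain ⟨x, rfl⟩ := QuotientGroup.mk_surjective y
  obtain ⟨m, hm, hx⟩ := h0 x
  apply hm
  rw [← hy]
  apply orderOf_dvd_of_pow_eq_one
  rw [← QuotientGroup.mk_pow, QuotientGroup.eq_one_iff]
  exact hx

end Red4Aux

open Red3Aux Red4Aux

/-- the reduction of the blockwise weight conjecture to reduced blocks with central `O_{p'}`; the condition
`C` on the pairs `(H, P)` is inherited by `PairSyl` and by the central extensions of `H / N` by
`p'`-groups, `N` the largest normal `p'`-subgroup of `H` -/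
theorem baw_of_reduced4 {p : ℕ} [Fact p.Prime] {k : Type v} [Field k] [IsAlgClosed k] [CharP k p]
    (C : ∀ (H : Type u) [Group H], Subgroup H → Prop)
    (hC : ∀ (H H' : Type u) [Group H] [Group H'] [Finite H] (P : Subgroup H) (P' : Subgroup H'),
      IsPGroup p P → Yy.PairSyl p P' P → C H P → C H' P')
    (hC' : ∀ (H A : Type u) [Group H] [Finite H] [Group A] [Finite A] (N : Subgroup H) [N.Normal]
      (ψ : A →* H ⧸ N) (P : Subgroup H) (P' : Subgroup A), ¬ p ∣ Nat.card N →
      (∀ N' : Subgroup H, N'.Normal → ¬ p ∣ Nat.card N' → N' ≤ N) →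
      Function.Surjective ψ → ψ.ker ≤ Subgroup.center A → ¬ p ∣ Nat.card ψ.ker →
      IsPGroup p P' → P.map (QuotientGroup.mk' N) = P'.map ψ → C H P → C A P')
    (hred : ∀ (H : Type u) [Group H] [Finite H] (b : MonoidAlgebra k H),
      Reduced4 p b → PairCond C p b →
      (∃ P : Subgroup H, IsPGroup p P ∧ HasBr P b ∧ ¬ IsCyclic P) → NavarroEq p ⊤ ⊤ b) :
    ∀ (m n : ℕ) (H : Type u) [Group H] [Finite H], (Subgroup.center H).index = m →
      Nat.card H = n →
      ∀ b : MonoidAlgebra k H, IsBlock ⊤ b → PairCond C p b → NavarroEq p ⊤ ⊤ b := by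
  intro m
  induction m using Nat.strong_induction_on with
  | _ m ihm =>
  intro n
  induction n using Nat.strong_induction_on with
  | _ n ihn =>
  intro H _ _ hidx hcard b hb hdef
  -- the combined induction hypothesis
  have IH : ∀ (H' : Type u) [Group H'] [Finite H'], (Subgroup.center H').index ≤ m →
      ((Subgroup.center H').index < m ∨ Nat.card H' < n) →
      ∀ b : MonoidAlgebra k H', IsBlock ⊤ b → PairCond C p b → NavarroEq p ⊤ ⊤ b := by
    intro H' _ _ h1 h2 b' hb' hdef'
    rcases h2 with h2 | h2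
    · exact ihm _ h2 _ H' rfl rfl b' hb' hdef'
    · rcases lt_or_eq_of_le h1 with h4 | h4
      · exact ihm _ h4 _ H' rfl rfl b' hb' hdef'
      · exact ihn _ h2 H' h4 rfl b' hb' hdef'
  refine Yy.baw_of_reduced2_syl (p := p) (k := k) (G₀ := H) C hC ?_ n H hcard
    (IsSection.refl H) b hb hdef
  intro H' _ _ hsec' b' hb' hdef' hncyc
  have hidx' : (Subgroup.center H').index ≤ m := by
    rw [← hidx]
    exact Fg.index_center_le hsec'
  have hcard' : Nat.card H' ≤ n := by
    rw [← hcard]
    exact hsec'.card_le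
  by_cases hlt : (Subgroup.center H').index < m ∨ Nat.card H' < n
  · exact IH H' hidx' hlt b' hb'.block hdef'
  push Not at hlt
  have heqi : (Subgroup.center H').index = m := le_antisymm hidx' hlt.1
  have heqc : Nat.card H' = n := le_antisymm hcard' hlt.2
  have hcore : ∀ P : Subgroup H', P.Normal → IsPGroup p P → P = ⊥ := by
    intro P hPn hP
    apply hb'.quot ⊥ P inferInstance hPn bot_le
    · rw [Subgroup.card_bot]
      exact (Fact.out : p.Prime).one_lt.ne' ∘ Nat.dvd_one.1
    · intro x hx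
      obtain ⟨j, hj⟩ := hP ⟨x, hx⟩
      refine ⟨j, ?_⟩
      have h2 := congrArg Subtype.val hj
      exact Subgroup.mem_bot.2 h2
  -- the proper subgroups
  have IH1 : ∀ Y : Subgroup H', Y ≠ ⊤ → ∀ c : MonoidAlgebra k H', IsBlock Y c →
      (∀ P : Subgroup H', P ≤ Y → IsPGroup p P → HasBr P c → HasBr P b') →
      NavarroEq p Y Y c := by
    intro Y hY c hc hbr
    apply navarro_transport hc
    refine IH Y ((Fg.index_center_le (IsSection.of_subgroup Y)).trans hidx') (Or.inr ?_)
      _ (dn_isBlock hc) ?_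
    · rw [← heqc]
      exact lt_of_le_of_ne (Subgroup.card_le_card_group Y)
        (fun h => hY (Subgroup.eq_top_of_card_eq Y h))
    · intro P hpP hbrP
      refine hC _ _ _ _ (hpP.map _) (Yy.PairSyl.of_subgroup P) (hdef' _ (hpP.map _)
        (hbr _ ?_ (hpP.map _) (RedAux.hasBr_up' hbrP)))
      rintro _ ⟨x, _, rfl⟩
      exact x.2
  have : Fintype H' := Fintype.ofFinite H'
  -- a p-solvable quotient of order divisible by `p`
  by_cases hs : ∃ (M : Subgroup H') (_ : M.Normal), Ps.PSolv p (H' ⧸ M) ∧ p ∣ M.index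
  · obtain ⟨M, hMn, hM, hd⟩ := hs
    apply Red2Aux.navarro_of_weq hb'.block
    refine Yy.step_layer hb'.block hb'.prim hM (not_prm_of_index hd) ?_ ?_
    · intro T hT hpT
      apply hb'.residual T
      intro x
      obtain ⟨y, rfl⟩ := QuotientGroup.mk_surjective x
      obtain ⟨m, hm⟩ := hpT y
      refine ⟨m, ?_⟩
      rw [← QuotientGroup.mk_pow, QuotientGroup.eq_one_iff]
      exact hm
    · intro Y hY hYb
      exact weq_sub hb'.block IH1 hY hYb
  push Not at hs
  -- a p-solvable quotient which is not generated by two commuting elements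
  by_cases ht : ∃ (M : Subgroup H') (_ : M.Normal), Ps.PSolv p (H' ⧸ M) ∧ SuppIn M b' ∧
      ∀ x y : H', y * x * y⁻¹ * x⁻¹ ∈ M → M ⊔ Subgroup.closure {x, y} ≠ ⊤
  · obtain ⟨M, hMn, hM, hMb, hno⟩ := ht
    apply Red2Aux.navarro_of_weq hb'.block
    refine Zz.weq_pairs2 (N := M) le_top (fun x _ => mem_norm_of_normal M x)
      (fun y _ => prm_of_index (hs M hMn hM) y) (fun x _ y _ h => hno x y h) hMb
      hb'.block.invBy hb'.block.idem ?_
    intro Y hMY hY
    exact weq_sub hb'.block IH1 hY.ne (hMb.mono hMY)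
  push Not at ht
  obtain ⟨N, hN, hpN, hmax⟩ := Ps.exists_core (p := p) H'
  by_cases hNc : N ≤ Subgroup.center H'
  · refine hred H' b' ⟨hb'.block, fun M hMn hM => hs M hMn hM, fun M hMn hM hMb => ?_, hcore,
      fun N' hN' hpN' => (hmax N' hN' hpN').trans hNc, hb'.cyclic, hb'.prim, hb'.faithful⟩
      hdef' hncyc
    exact ht M hMn hM hMb
  -- the noncentral case
  have hZp : ¬ p ∣ Nat.card (Subgroup.center H') := Fg.core_central hcore
  have hZN : Subgroup.center H' ≤ N := hmax _ inferInstance hZp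
  have hidxN : Nat.card (H' ⧸ N) < m := by
    rw [← heqi]
    change N.index < _
    have h1 := Subgroup.relIndex_mul_index hZN
    have h2 : (Subgroup.center H').relIndex N ≠ 1 := by
      intro h0
      exact hNc (Subgroup.relIndex_eq_one.1 h0)
    have h3 : 0 < (Subgroup.center H').relIndex N := by
      rcases Nat.eq_zero_or_pos ((Subgroup.center H').relIndex N) with h0 | h0
      · rw [h0, zero_mul] at h1
        exact absurd h1.symm (Subgroup.index_ne_zero_of_finite)
      · exact h0
    have h4 : 0 < N.index := Nat.pos_of_ne_zero Subgroup.index_ne_zero_of_finite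
    rw [← h1]
    have h5 : 1 < (Subgroup.center H').relIndex N := by omega
    exact lt_mul_of_one_lt_left h4 h5
  have hP₀ : ∃ P : Subgroup H', IsPGroup p P ∧ HasBr P b' ∧ P ≠ ⊥ := by
    obtain ⟨P, h1, h2, h3⟩ := hncyc
    refine ⟨P, h1, h2, fun h0 => h3 ?_⟩
    rw [h0]
    infer_instance
  apply step_star hb' hN hpN hP₀
  · exact IH1
  · intro A' _ _ φ' hφ' hφZ hφp Y c hc hbr
    have h2 : (Subgroup.center A').index < m :=
      (Fg.index_center_le_of hφ' hφZ).trans_lt hidxN
    have h3 : (Subgroup.center ↥Y).index < m :=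
      (Fg.index_center_le (IsSection.of_subgroup Y)).trans_lt h2
    have : Fintype A' := Fintype.ofFinite A'
    apply navarro_transport hc
    refine IH Y h3.le (Or.inl h3) _ (dn_isBlock hc) ?_
    intro P' hpP' hbrP'
    obtain ⟨P, h4, h5, h6⟩ := hbr _ (by
      rintro _ ⟨x, _, rfl⟩
      exact x.2) (hpP'.map _) (RedAux.hasBr_up' hbrP')
    exact hC _ _ _ _ (hpP'.map _) (Yy.PairSyl.of_subgroup P')
      (hC' _ _ N φ' P _ hpN hmax hφ' hφZ hφp (hpP'.map _) h6 (hdef' P h4 h5))

end Pool.Agent.Lib.P0c8ca5
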