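import Mathlib
import Pool.Agent.Lib.P0c8ca5Y.Syl
import Pool.Agent.Lib.P0c8ca5F.CPr

/-!
# Central extensions of sections, pairs with a Sylow condition on the kernel
-/

namespace Pool.Agent.Lib.P0c8ca5.Yy

open Pool.Agent.Lib.P0c8ca5 Pool.Agent.Lib.P0c8ca5.Ps Pool.Agent.Lib.P0c8ca5.Fg

universe u v w

theorem relIndex_sup_eq {K : Type*} [Group K] [Finite K] (R Y : Subgroup K) [Y.Normal] :
    R.relIndex (R ⊔ Y) = R.relIndex Y := by
  have h1 : Nat.card R * R.relIndex (R ⊔ Y) = Nat.card ↥(R ⊔ Y) := by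
    have h := Subgroup.relIndex_mul_relIndex ⊥ R (R ⊔ Y) bot_le le_sup_left
    rwa [Subgroup.relIndex_bot_left, Subgroup.relIndex_bot_left] at h
  have h2 : Nat.card Y * Y.relIndex R = Nat.card ↥(R ⊔ Y) := by
    have h := Subgroup.relIndex_mul_relIndex ⊥ Y (R ⊔ Y) bot_le le_sup_right
    rwa [Subgroup.relIndex_bot_left, Subgroup.relIndex_bot_left, Subgroup.relIndex_sup_right] at h
  have h3 : Nat.card ↥(R ⊓ Y) * R.relIndex Y = Nat.card Y := by
    have h := Subgroup.relIndex_mul_relIndex ⊥ (R ⊓ Y) Y bot_le inf_le_right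
    rwa [Subgroup.relIndex_bot_left, Subgroup.relIndex_bot_left, Subgroup.inf_relIndex_right] at h
  have h4 : Nat.card ↥(R ⊓ Y) * Y.relIndex R = Nat.card R := by
    have h := Subgroup.relIndex_mul_relIndex ⊥ (R ⊓ Y) R bot_le inf_le_left
    rwa [Subgroup.relIndex_bot_left, Subgroup.relIndex_bot_left, Subgroup.inf_relIndex_left] at h
  have h5 : 0 < Nat.card R := Nat.card_pos
  apply Nat.eq_of_mul_eq_mul_left h5
  rw [h1, ← h2, ← h3, ← h4]
  ring

theorem relIndex_hom {K H' : Type*} [Group K] [Group H'] [Finite K] (f : K →* H')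
    (R : Subgroup K) {X : Subgroup K} (hX : f.ker ≤ X) :
    R.relIndex X = R.relIndex f.ker * ((R ⊓ X).map f).relIndex (X.map f) := by
  have h1 : (R ⊓ X) ⊔ f.ker ≤ X := sup_le inf_le_right hX
  have h2 := Subgroup.relIndex_mul_relIndex (R ⊓ X) ((R ⊓ X) ⊔ f.ker) X le_sup_left h1
  rw [relIndex_sup_eq, Subgroup.inf_relIndex_right] at h2
  have h3 : (R ⊓ X).relIndex f.ker = R.relIndex f.ker := by
    rw [← Subgroup.inf_relIndex_right (R ⊓ X), ← Subgroup.inf_relIndex_right R, inf_assoc,
      inf_eq_right.2 hX]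
  rw [Subgroup.relIndex_map_map, sup_eq_left.2 hX, ← h2, h3]

theorem PairSyl.trans {p : ℕ} [Fact p.Prime] {G₁ G₂ G₃ : Type*} [Group G₁] [Group G₂] [Group G₃]
    [Finite G₃] {P₁ : Subgroup G₁} {P₂ : Subgroup G₂} {P₃ : Subgroup G₃}
    (h : PairSyl p P₁ P₂) (h' : PairSyl p P₂ P₃) : PairSyl p P₁ P₃ := by
  obtain ⟨K, f, hf, hP, hk⟩ := h
  obtain ⟨K', f', hf', hP', hk'⟩ := h'
  let L : Subgroup K' := K.comap f'
  let g : L →* K := (f'.comp L.subtype).codRestrict K (fun x => x.2)
  let E : L ≃* L.map K'.subtype := L.equivMapOfInjective _ (Subgroup.subtype_injective _)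
  refine ⟨L.map K'.subtype, f.comp (g.comp E.symm.toMonoidHom), ?_, ?_, ?_⟩
  · intro x
    obtain ⟨y, rfl⟩ := hf x
    obtain ⟨z, hz⟩ := hf' y
    refine ⟨E ⟨z, by change f' z ∈ K; rw [hz]; exact y.2⟩, ?_⟩
    change f (g (E.symm (E _))) = f y
    rw [MulEquiv.symm_apply_apply]
    congr 1
    exact Subtype.ext hz
  · intro x hx
    obtain ⟨y, hy, rfl⟩ := hP hx
    have hy' : (y : G₂) ∈ P₂ := Subgroup.mem_subgroupOf.1 hy
    obtain ⟨z, hz, hzy⟩ := hP' hy'
    have hzL : z ∈ L := by
      change f' z ∈ K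
      rw [hzy]
      exact y.2
    refine ⟨E ⟨z, hzL⟩, ?_, ?_⟩
    · change ((E ⟨z, hzL⟩ : ↥(L.map K'.subtype)) : G₃) ∈ P₃
      exact Subgroup.mem_subgroupOf.1 hz
    · change f (g (E.symm (E ⟨z, hzL⟩))) = f y
      rw [MulEquiv.symm_apply_apply]
      congr 1
      exact Subtype.ext hzy
  · set F : ↥(L.map K'.subtype) →* G₁ := f.comp (g.comp E.symm.toMonoidHom) with hF
    -- the kernel
    let Z : Subgroup G₂ := f.ker.map K.subtype
    let X : Subgroup K' := Z.comap f'
    have hX : F.ker.map (L.map K'.subtype).subtype = X.map K'.subtype := by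
      ext x
      constructor
      · rintro ⟨w, hw, rfl⟩
        obtain ⟨z, rfl⟩ := E.surjective w
        have h1 : f (g z) = 1 := by
          have h2 : f (g (E.symm (E z))) = 1 := hw
          rwa [MulEquiv.symm_apply_apply] at h2
        exact ⟨z.1, ⟨g z, h1, rfl⟩, rfl⟩
      · rintro ⟨z, ⟨y, hy, hyz⟩, rfl⟩
        have hzL : z ∈ L := by
          change f' z ∈ K
          rw [← hyz]
          exact y.2
        refine ⟨E ⟨z, hzL⟩, ?_, rfl⟩
        change f (g (E.symm (E ⟨z, hzL⟩))) = 1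
        rw [MulEquiv.symm_apply_apply]
        have h3 : g ⟨z, hzL⟩ = y := Subtype.ext hyz.symm
        rw [h3]
        exact hy
    have h1 : (P₃.subgroupOf (L.map K'.subtype)).relIndex F.ker
        = (P₃.subgroupOf K').relIndex X := by
      have h2 : ∀ (T : Subgroup G₃) (Y : Subgroup ↥T),
          (P₃.subgroupOf T).relIndex Y = P₃.relIndex (Y.map T.subtype) := by
        intro T Y
        exact Subgroup.relIndex_comap P₃ T.subtype Y
      rw [h2, h2, hX]
    have hkX : f'.ker ≤ X := by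
      intro x hx
      change f' x ∈ Z
      rw [MonoidHom.mem_ker] at hx
      rw [hx]
      exact Z.one_mem
    rw [h1, relIndex_hom f' _ hkX]
    have hXZ : X.map f' = Z := Subgroup.map_comap_eq_self_of_surjective hf' Z
    rw [hXZ]
    intro hd
    rcases (Nat.Prime.dvd_mul (Fact.out : p.Prime)).1 hd with h3 | h3
    · exact hk' h3
    · apply hk
      have h4 : (P₂ ⊓ Z).relIndex Z = (P₂.subgroupOf K).relIndex f.ker := by
        rw [Subgroup.inf_relIndex_right]
        exact (Subgroup.relIndex_comap P₂ K.subtype f.ker).symm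
      rw [← h4]
      refine h3.trans (Subgroup.relIndex_dvd_of_le_left Z ?_)
      rintro x ⟨hx1, hx2⟩
      obtain ⟨z, hz, rfl⟩ := hP' hx1
      exact ⟨z, ⟨hz, hx2⟩, rfl⟩

/-- the image of `P ⊓ M` -/
theorem mem_map_inf {p : ℕ} [Fact p.Prime] {K H' : Type*} [Group K] [Finite K] [Group H']
    {f : K →* H'} {P M : Subgroup K} (hP : IsPGroup p P) (hM : M.Normal)
    (hk : ¬ p ∣ P.relIndex f.ker) {y : H'} (h1 : y ∈ P.map f) (h2 : y ∈ M.map f) :
    y ∈ (P ⊓ M).map f := by
  obtain ⟨a, ha, rfl⟩ := h1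
  obtain ⟨m, hm, hma⟩ := h2
  let q : K →* K ⧸ M := QuotientGroup.mk' M
  have hr : m⁻¹ * a ∈ f.ker := by
    rw [MonoidHom.mem_ker, map_mul, map_inv, hma, inv_mul_cancel]
  have hqa : q a ∈ (P.map q) ⊓ (f.ker.map q) := by
    refine ⟨⟨a, ha, rfl⟩, ⟨m⁻¹ * a, hr, ?_⟩⟩
    have h3 : q m = 1 := (QuotientGroup.eq_one_iff (N := M) m).2 hm
    rw [map_mul, map_inv, h3, inv_one, one_mul]
  have hle : (P.map q) ⊓ (f.ker.map q) ≤ (P ⊓ f.ker).map q := by
    have h3 : (P ⊓ f.ker).map q ≤ (P.map q) ⊓ (f.ker.map q) :=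
      le_inf (Subgroup.map_mono inf_le_left) (Subgroup.map_mono inf_le_right)
    have h4 := Subgroup.relIndex_mul_relIndex _ _ _ h3 (inf_le_right : (P.map q) ⊓ (f.ker.map q) ≤ _)
    have h5 : ((P ⊓ f.ker).map q).relIndex (f.ker.map q) ∣ P.relIndex f.ker := by
      rw [← Subgroup.relIndex_comap, ← Subgroup.inf_relIndex_right P]
      exact Subgroup.relIndex_dvd_of_le_left _ (Subgroup.le_comap_map q _)
    have h6 : ¬ p ∣ ((P ⊓ f.ker).map q).relIndex ((P.map q) ⊓ (f.ker.map q)) := by
      intro hd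
      apply hk
      refine dvd_trans ?_ h5
      rw [← h4]
      exact hd.mul_right _
    have h7 : IsPGroup p ↥((P.map q) ⊓ (f.ker.map q)) := (hP.map q).to_le inf_le_left
    obtain ⟨n, hn⟩ := IsPGroup.iff_card.1 h7
    have h8 := Subgroup.relIndex_dvd_card ((P ⊓ f.ker).map q) ((P.map q) ⊓ (f.ker.map q))
    rw [hn] at h8
    obtain ⟨i, -, hi⟩ := (Nat.dvd_prime_pow (Fact.out : p.Prime)).1 h8
    rcases Nat.eq_zero_or_pos i with h0 | h0
    · rw [h0, pow_zero] at hi
      exact Subgroup.relIndex_eq_one.1 hi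
    · exfalso
      apply h6
      rw [hi]
      exact dvd_pow_self p h0.ne'
  obtain ⟨t, ⟨ht1, ht2⟩, hta⟩ := hle hqa
  have h3 : t⁻¹ * a ∈ M := by
    rw [← QuotientGroup.eq]
    exact hta
  have h4 : a * t⁻¹ ∈ M := by
    have h5 := hM.conj_mem _ h3 t
    rwa [mul_assoc, mul_assoc, mul_inv_cancel_left] at h5
  refine ⟨a * t⁻¹, ⟨P.mul_mem ha (P.inv_mem ht1), h4⟩, ?_⟩
  have h5 : f t = 1 := ht2
  rw [map_mul, map_inv, h5, inv_one, mul_one]

/-- `H` is a central extension by a group of order prime to `p` of the image of a subgroup `K'` of `K`, the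
image of `P` is contained in the image of `K' ∩ E`, and `E` contains a Sylow p-subgroup of the kernel. -/
def CSyl (p : ℕ) {H : Type u} [Group H] (P : Subgroup H) {K : Type w} [Group K]
    (E : Subgroup K) : Prop :=
  ∃ (L : Type u) (_ : Group L) (π : H →* L), Function.Surjective π ∧
    π.ker ≤ Subgroup.center H ∧ ¬ p ∣ Nat.card π.ker ∧ PairSyl p (P.map π) E

theorem CSyl.mono {p : ℕ} [Fact p.Prime] {H : Type u} [Group H] {P : Subgroup H} {K : Type w}
    [Group K] {E : Subgroup K} {K' : Type*} [Group K'] [Finite K'] {E' : Subgroup K'}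
    (h : CSyl p P E) (hE : PairSyl p E E') : CSyl p P E' := by
  obtain ⟨L, _, π, h1, h2, h3, h4⟩ := h
  exact ⟨L, inferInstance, π, h1, h2, h3, h4.trans hE⟩

theorem CSyl.of_section {p : ℕ} [Fact p.Prime] {H H' : Type u} [Group H] [Group H']
    {P : Subgroup H} {P' : Subgroup H'} {K : Type w} [Group K] [Finite K] {E : Subgroup K}
    (hs : PairSyl p P' P) (h : CSyl p P E) : CSyl p P' E := by
  obtain ⟨L, instL, π, hπ, hπZ, hπp, hLG⟩ := h
  obtain ⟨K, f, hf, hP, hfk⟩ := hs
  have hZc : (π.ker.subgroupOf K).map f ≤ Subgroup.center H' := by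
    refine le_trans (Subgroup.map_mono ?_) (CsAux.map_center_le hf)
    refine le_trans ?_ (CsAux.subgroupOf_center_le K)
    intro x hx
    rw [Subgroup.mem_subgroupOf] at hx ⊢
    exact hπZ hx
  have hZn : ((π.ker.subgroupOf K).map f).Normal := by
    refine ⟨fun n hn g => ?_⟩
    have h1 := Subgroup.mem_center_iff.1 (hZc hn) g
    rw [h1, mul_inv_cancel_right]
    exact hn
  have hker : (QuotientGroup.mk' ((π.ker.subgroupOf K).map f)).ker = (π.ker.subgroupOf K).map f :=
    QuotientGroup.ker_mk' _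
  refine ⟨H' ⧸ (π.ker.subgroupOf K).map f, inferInstance,
    QuotientGroup.mk' ((π.ker.subgroupOf K).map f), QuotientGroup.mk'_surjective _, ?_, ?_, ?_⟩
  · rw [hker]
    exact hZc
  · rw [hker]
    intro hd
    apply hπp
    refine hd.trans ((Subgroup.card_map_dvd _ f).trans ?_)
    have h1 : Nat.card (π.ker.subgroupOf K) = Nat.card (π.ker ⊓ K : Subgroup H) := by
      have h2 : (π.ker.subgroupOf K).map K.subtype = π.ker ⊓ K :=
        Subgroup.subgroupOf_map_subtype _ _
      rw [← h2]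
      exact Nat.card_congr ((π.ker.subgroupOf K).equivMapOfInjective _
        K.subtype_injective).toEquiv
    rw [h1]
    exact Subgroup.card_dvd_of_le inf_le_left
  · refine PairSyl.trans ?_ hLG
    obtain ⟨φ, hφ⟩ := CsAux.exists_lift (π.subgroupMap K) (π.subgroupMap_surjective K)
      ((QuotientGroup.mk' ((π.ker.subgroupOf K).map f)).comp f) (by
        intro x hx
        rw [MonoidHom.mem_ker] at hx ⊢
        have h1 : π (x : H) = 1 := congrArg Subtype.val hx
        change QuotientGroup.mk' _ (f x) = 1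
        rw [← MonoidHom.mem_ker, hker]
        exact ⟨x, Subgroup.mem_subgroupOf.2 ((MonoidHom.mem_ker).2 h1), rfl⟩)
    refine ⟨K.map π, φ, ?_, ?_, ?_⟩
    · intro y
      obtain ⟨z, rfl⟩ := QuotientGroup.mk'_surjective _ y
      obtain ⟨x, rfl⟩ := hf z
      exact ⟨π.subgroupMap K x, hφ x⟩
    · rintro _ ⟨z, hz, rfl⟩
      obtain ⟨x, hx, rfl⟩ := hP hz
      exact ⟨π.subgroupMap K x, Subgroup.mem_subgroupOf.2 ⟨x, Subgroup.mem_subgroupOf.1 hx, rfl⟩,
        hφ x⟩
    · -- the kernel of `φ` is the image of the kernel of `f`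
      have h1 : φ.ker.map (K.map π).subtype = (f.ker.map K.subtype).map π := by
        ext y
        constructor
        · rintro ⟨w, hw, rfl⟩
          obtain ⟨x, rfl⟩ := π.subgroupMap_surjective K w
          have h2 : QuotientGroup.mk' ((π.ker.subgroupOf K).map f) (f x) = 1 := by
            have h3 := hφ x
            have h4 : φ (π.subgroupMap K x) = 1 := hw
            rw [h4] at h3
            exact h3.symm
          rw [← MonoidHom.mem_ker, hker] at h2
          obtain ⟨z, hz, hzx⟩ := h2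
          have hz' : π (z : H) = 1 := Subgroup.mem_subgroupOf.1 hz
          refine ⟨((z⁻¹ * x : ↥K) : H), ⟨z⁻¹ * x, ?_, rfl⟩, ?_⟩
          · change f (z⁻¹ * x) = 1
            rw [map_mul, map_inv, hzx, inv_mul_cancel]
          · change π ((z : H)⁻¹ * (x : H)) = π (x : H)
            rw [map_mul, map_inv, hz', inv_one, one_mul]
        · rintro ⟨_, ⟨x, hx, rfl⟩, rfl⟩
          refine ⟨π.subgroupMap K x, ?_, rfl⟩
          change φ (π.subgroupMap K x) = 1
          rw [hφ x]
          have h2 : f x = 1 := hx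
          change QuotientGroup.mk' _ (f x) = 1
          rw [h2, map_one]
      have h2 : ((P.map π).subgroupOf (K.map π)).relIndex φ.ker
          = (P.map π).relIndex ((f.ker.map K.subtype).map π) := by
        rw [← h1]
        exact Subgroup.relIndex_comap (P.map π) (K.map π).subtype φ.ker
      rw [h2]
      intro hd
      apply hfk
      have h3 : (P.subgroupOf K).relIndex f.ker = P.relIndex (f.ker.map K.subtype) :=
        Subgroup.relIndex_comap P K.subtype f.ker
      rw [h3]
      refine hd.trans ?_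
      rw [← Subgroup.relIndex_comap]
      exact Subgroup.relIndex_dvd_of_le_left _ (Subgroup.le_comap_map π P)

theorem PairSyl.refl {p : ℕ} [Fact p.Prime] {H : Type*} [Group H] (P : Subgroup H) :
    PairSyl p P P := by
  refine PairSyl.of_hom (MonoidHom.id H) Function.surjective_id (by rw [Subgroup.map_id]) ?_
  rw [MonoidHom.ker_id, Subgroup.relIndex_bot_right]
  exact (Fact.out : p.Prime).one_lt.ne' ∘ Nat.dvd_one.1

theorem CSyl.of_pairSyl {p : ℕ} [Fact p.Prime] {H : Type u} [Group H] {P : Subgroup H}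
    {K : Type w} [Group K] {E : Subgroup K} (h : PairSyl p P E) : CSyl p P E := by
  have hp : p.Prime := Fact.out
  refine ⟨H, inferInstance, MonoidHom.id H, Function.surjective_id, ?_, ?_, ?_⟩
  · rw [MonoidHom.ker_id]
    exact bot_le
  · rw [MonoidHom.ker_id, Subgroup.card_bot]
    exact hp.not_dvd_one
  · rwa [Subgroup.map_id]

theorem CSyl.of_quot {p : ℕ} [Fact p.Prime] {H A : Type u} [Group H] [Group A] [Finite H]
    {P : Subgroup H} {P' : Subgroup A} {K : Type w} [Group K] [Finite K] {E : Subgroup K}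
    (h : CSyl p P E) {N : Subgroup H} [N.Normal] (hN : ¬ p ∣ Nat.card N)
    (hmax : ∀ N' : Subgroup H, N'.Normal → ¬ p ∣ Nat.card N' → N' ≤ N)
    (ψ : A →* H ⧸ N) (hψ : Function.Surjective ψ) (hψZ : ψ.ker ≤ Subgroup.center A)
    (hψp : ¬ p ∣ Nat.card ψ.ker) (hP : P.map (QuotientGroup.mk' N) = P'.map ψ) :
    CSyl p P' E := by
  obtain ⟨L, instL, π, hπ, hπZ, hπp, hLG⟩ := h
  refine ⟨H ⧸ N, inferInstance, ψ, hψ, hψZ, hψp, PairSyl.trans ?_ hLG⟩
  have h1 : π.ker ≤ N := hmax _ inferInstance hπp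
  obtain ⟨φ, hφ⟩ := CsAux.exists_lift π hπ (QuotientGroup.mk' N) (by
    rw [QuotientGroup.ker_mk']
    exact h1)
  refine PairSyl.of_hom φ ?_ ?_ ?_
  · intro y
    obtain ⟨z, rfl⟩ := QuotientGroup.mk'_surjective _ y
    exact ⟨π z, hφ z⟩
  · rw [← hP]
    rintro _ ⟨x, hx, rfl⟩
    exact ⟨π x, ⟨x, hx, rfl⟩, hφ x⟩
  · intro hd
    apply hN
    have h2 : φ.ker = N.map π := by
      ext y
      obtain ⟨x, rfl⟩ := hπ y
      rw [MonoidHom.mem_ker, hφ]
      constructor
      · intro h3
        exact ⟨x, (QuotientGroup.eq_one_iff (N := N) x).1 h3, rfl⟩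
      · rintro ⟨z, hz, hzx⟩
        have h4 : z⁻¹ * x ∈ π.ker := by
          rw [MonoidHom.mem_ker, map_mul, map_inv, hzx, inv_mul_cancel]
        have h5 := N.mul_mem hz (h1 h4)
        rw [mul_inv_cancel_left] at h5
        exact (QuotientGroup.eq_one_iff (N := N) x).2 h5
    have h3 := Subgroup.relIndex_dvd_card (P.map π) φ.ker
    rw [h2] at h3 hd
    exact (hd.trans h3).trans (Subgroup.card_map_dvd N π)

/-- if the quotients of `H` have no p-solvable quotients other than p'-groups, `E` may be replaced by `E ⊓ M` -/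
theorem CSyl.inf {p : ℕ} [Fact p.Prime] {H : Type u} [Group H] {P : Subgroup H}
    {K : Type w} [Group K] [Finite K] {E M : Subgroup K} (hE : IsPGroup p E) (hM : M.Normal)
    (hMs : PSolv p (K ⧸ M)) (hP : IsPGroup p P)
    (hH : ∀ (N : Subgroup H) [N.Normal], PSolv p (H ⧸ N) → P ≤ N) (h : CSyl p P E) :
    CPair p P (E ⊓ M) := by
  obtain ⟨L, instL, π, hπ, hπZ, hπp, K', f, hf, hPf, hk⟩ := h
  refine ⟨L, instL, π, hπ, hπZ, hπp, K', f, hf, ?_⟩
  have hMn : (M.subgroupOf K').Normal := hM.subgroupOf K'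
  have hMf : ((M.subgroupOf K').map f).Normal := hMn.map f hf
  -- the quotient is p-solvable
  have hps : PSolv p (L ⧸ (M.subgroupOf K').map f) := by
    have h1 : IsSection (L ⧸ (M.subgroupOf K').map f) (K ⧸ M) := by
      have h2 : IsSection (↥K' ⧸ M.subgroupOf K') (K ⧸ M) := by
        refine IsSection.of_injective (QuotientGroup.lift (M.subgroupOf K')
          ((QuotientGroup.mk' M).comp K'.subtype) ?_) ?_
        · intro x hx
          exact (QuotientGroup.eq_one_iff (N := M) _).2 (Subgroup.mem_subgroupOf.1 hx)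
        · rw [injective_iff_map_eq_one]
          intro x
          induction x using QuotientGroup.induction_on with
          | H z =>
            intro hz
            rw [QuotientGroup.lift_mk] at hz
            rw [QuotientGroup.eq_one_iff]
            exact Subgroup.mem_subgroupOf.2 ((QuotientGroup.eq_one_iff (N := M) _).1 hz)
      refine (IsSection.of_surjective (QuotientGroup.map (M.subgroupOf K')
        ((M.subgroupOf K').map f) f (Subgroup.le_comap_map f _)) ?_).trans h2
      intro y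
      obtain ⟨z, rfl⟩ := QuotientGroup.mk'_surjective _ y
      obtain ⟨x, rfl⟩ := hf z
      exact ⟨QuotientGroup.mk x, rfl⟩
    exact hMs.of_section h1
  have hPM : P.map π ≤ (M.subgroupOf K').map f := by
    have hMc : (((M.subgroupOf K').map f).comap π).Normal := hMf.comap π
    have h1 : P ≤ ((M.subgroupOf K').map f).comap π := by
      apply hH
      refine hps.of_equiv ?_
      exact (QuotientGroup.quotientKerEquivOfSurjective
        ((QuotientGroup.mk' ((M.subgroupOf K').map f)).comp π)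
        ((QuotientGroup.mk'_surjective _).comp hπ)).symm.trans
        (QuotientGroup.quotientMulEquivOfEq (by
          ext x
          rw [MonoidHom.mem_ker, Subgroup.mem_comap]
          exact QuotientGroup.eq_one_iff (N := (M.subgroupOf K').map f) (π x)))
    rintro _ ⟨x, hx, rfl⟩
    exact h1 hx
  intro y hy
  have h1 : y ∈ ((E.subgroupOf K') ⊓ (M.subgroupOf K')).map f :=
    mem_map_inf (hE.comap_subtype) hMn hk (hPf hy) (hPM hy)
  exact h1

end Pool.Agent.Lib.P0c8ca5.Yy
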