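import Mathlib
import Pool.Agent.Lib.P0c8ca5Y.StepY
import Pool.Agent.Lib.P0c8ca5T.LocW

/-!
# Navarro's equality: the local condition with p-solvable normal subgroups and quotients
-/

namespace Pool.Agent.Lib.P0c8ca5.Yy

open MonoidAlgebra Pool.Agent.Lib.P0c8ca5 Pool.Agent.Lib.P0c8ca5.Cy Pool.Agent.Lib.P0c8ca5.Bq
  Pool.Agent.Lib.P0c8ca5.Ps Pool.Agent.Lib.P0c8ca5.Zz

universe u v

variable {p : ℕ} {k : Type v} [Field k]

/-- `(E ⊓ M) S / S` is cyclic for some `S`, `M`, normal in `K`, such that `S` and `K / M` are p-solvable -/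
def CycRel (p : ℕ) {A : Type u} [Group A] (K E : Subgroup A) : Prop :=
  ∃ S M : Subgroup A, S ≤ K ∧ M ≤ K ∧ K ≤ Subgroup.normalizer (S : Set A) ∧
    K ≤ Subgroup.normalizer (M : Set A) ∧ PSolv p ↥S ∧ PSolv p ↥(sec K M) ∧
    IsCyclic ↥(sec (E ⊓ M) S)

theorem normal_subgroupOf {A : Type u} [Group A] {S K : Subgroup A}
    (h : K ≤ Subgroup.normalizer (S : Set A)) : (S.subgroupOf K).Normal := by
  refine ⟨fun n hn g => ?_⟩
  rw [Subgroup.mem_subgroupOf] at hn ⊢
  exact (Subgroup.mem_normalizer_iff.1 (h g.2) _).1 hn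

/-- passing to a subgroup -/
theorem CycRel.cycQ {A : Type u} [Group A] {K E K' P : Subgroup A} (h : CycRel p K E)
    (hK : K' ≤ K) (hPE : P ≤ E) (hPK : P ≤ K') : CycQ p ↥K' (P.subgroupOf K') := by
  obtain ⟨S, M, hSK, hMK, hSn, hMn, hS, hM, hc⟩ := h
  have hS' : (S.subgroupOf K').Normal := normal_subgroupOf (hK.trans hSn)
  have hM' : (M.subgroupOf K').Normal := normal_subgroupOf (hK.trans hMn)
  refine ⟨S.subgroupOf K', M.subgroupOf K', hS', hM', ?_, ?_, ?_⟩
  · -- `S ∩ K'`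
    let g : ↥(S.subgroupOf K') →* ↥S :=
      { toFun := fun x => ⟨x.1.1, Subgroup.mem_subgroupOf.1 x.2⟩
        map_one' := rfl
        map_mul' := fun _ _ => rfl }
    refine hS.of_section (IsSection.of_injective g ?_)
    intro x y hxy
    have h1 := congrArg (fun z : ↥S => (z : A)) hxy
    exact Subtype.ext (Subtype.ext h1)
  · -- `K' / (M ∩ K')`
    let α : ↥K' →* NQ M := qhom (hK.trans hMn)
    have hα : ∀ x, α x ∈ sec K M := fun x => qm_mem_sec _ (hK x.2)
    let β : ↥K' →* ↥(sec K M) := α.codRestrict _ hα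
    have hβ : M.subgroupOf K' ≤ β.ker := by
      intro x hx
      rw [MonoidHom.mem_ker]
      exact Subtype.ext (qm_eq_one_iff.2 (Subgroup.mem_subgroupOf.1 hx))
    refine hM.of_section (IsSection.of_injective (QuotientGroup.lift (M.subgroupOf K') β hβ) ?_)
    rw [injective_iff_map_eq_one]
    intro x
    induction x using QuotientGroup.induction_on with
    | H z =>
      intro hz
      rw [QuotientGroup.lift_mk] at hz
      rw [QuotientGroup.eq_one_iff]
      exact Subgroup.mem_subgroupOf.2 (qm_eq_one_iff.1 (congrArg Subtype.val hz))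
  · -- the cyclic group
    have hEM : E ⊓ M ≤ Subgroup.normalizer (S : Set A) := inf_le_right.trans (hMK.trans hSn)
    rw [← qhom_range hEM] at hc
    let L : Subgroup ↥K' := P.subgroupOf K' ⊓ M.subgroupOf K'
    let ι : ↥L →* ↥(E ⊓ M) :=
      { toFun := fun x => ⟨x.1.1, Subgroup.mem_inf.2 ⟨hPE (Subgroup.mem_subgroupOf.1 x.2.1),
          Subgroup.mem_subgroupOf.1 x.2.2⟩⟩
        map_one' := rfl
        map_mul' := fun _ _ => rfl }
    let β : ↥L →* ↥K' ⧸ S.subgroupOf K' := (QuotientGroup.mk' (S.subgroupOf K')).comp L.subtype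
    have hβ : L.map (QuotientGroup.mk' (S.subgroupOf K')) = β.range := by
      ext w
      constructor
      · rintro ⟨x, hx, rfl⟩
        exact ⟨⟨x, hx⟩, rfl⟩
      · rintro ⟨x, rfl⟩
        exact ⟨x.1, x.2, rfl⟩
    change IsCyclic ↥(L.map (QuotientGroup.mk' (S.subgroupOf K')))
    rw [hβ]
    refine cyc_of_ker (α := (qhom hEM).comp ι) ?_ ?_
    · intro x hx
      have h3 : ι x ∈ (qhom hEM).ker := hx
      rw [qhom_ker] at h3
      rw [MonoidHom.mem_ker]
      exact (QuotientGroup.eq_one_iff (N := S.subgroupOf K') _).2 (Subgroup.mem_subgroupOf.2 h3)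
    · refine cyc_of_le ?_ hc
      rintro _ ⟨x, rfl⟩
      exact ⟨ι x, rfl⟩

/-- the weight equality for an arbitrary central idempotent -/
theorem weq_Y [Fact p.Prime] [CharP k p] [IsAlgClosed k] {A : Type u} [Group A] [Fintype A]
    {K : Subgroup A} {c : MonoidAlgebra k A} (hc : SuppIn K c) (hci : InvBy K c) (hcc : c * c = c)
    (hst : ∀ P : Subgroup A, P ≤ K → IsPGroup p P → HasBr P c → CycQ p ↥K (P.subgroupOf K)) :
    WEq p K c := by
  apply Cy.weq_of_blocks hc hci hcc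
  intro b hb hbc
  apply navarro_transport hb
  apply base_q _ _ (dn_isBlock hb)
  have hmem : c ∈ fixAlg k K K := mem_fixAlg.2 ⟨hc, hci⟩
  have hcomm : c * b = b * c := commute_of hc hb.invBy
  have hmul : b * c = b := by
    rcases hb.mul_eq hmem hcc with h | h
    · rw [hcomm] at h; exact absurd h hbc
    · rw [← hcomm]; exact h
  intro P hP hbr
  have hPK : P.map K.subtype ≤ K := by
    rintro _ ⟨y, _, rfl⟩
    exact y.2
  have h1 := hst (P.map K.subtype) hPK (hP.map _) (hasBr_of_mul (hP.map _) (hb.invBy.mono hPK)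
    (hci.mono hPK) hmul (RedAux.hasBr_up' hbr))
  have h2 : (P.map K.subtype).subgroupOf K = P := by
    rw [Subgroup.subgroupOf]
    exact Subgroup.comap_map_eq_self_of_injective K.subtype_injective P
  rwa [h2] at h1

/-- the weight equality for the chain stabilizers -/
theorem weq_locY [Fact p.Prime] [CharP k p] [IsAlgClosed k]
    {A : Type u} [Group A] [Fintype A] {G : Subgroup A} {e c : MonoidAlgebra k A}
    {Q K : Subgroup A} (hQp : IsPGroup p Q)
    (hCK : G ⊓ Subgroup.centralizer (Q : Set A) ≤ K)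
    (hKQ : K ≤ G ⊓ Subgroup.normalizer (Q : Set A)) (hsub : ∀ x, c.coeff x ≠ 0 → e.coeff x ≠ 0)
    (hcen : ∀ x, c.coeff x ≠ 0 → x ∈ Subgroup.centralizer (Q : Set A))
    (hcC : SuppIn (G ⊓ Subgroup.centralizer (Q : Set A)) c)
    (hcN : InvBy (Subgroup.normalizer (Q : Set A)) c)
    (hcc : c * c = c)
    (hU : ∀ E, IsDefectGroup p ⊤ e E → Q ≤ E →
      CycRel p (G ⊓ Subgroup.normalizer (Q : Set A)) E) : WEq p K c := by
  have hcinv : InvBy K c := hcN.mono (hKQ.trans inf_le_right)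
  refine weq_Y (hcC.mono hCK) hcinv hcc ?_
  intro P hPK hPp hbr
  have hPQ : P ≤ Subgroup.normalizer (Q : Set A) := hPK.trans (hKQ.trans inf_le_right)
  have hbr' : HasBr (P ⊔ Q) c := by
    obtain ⟨y, hy, hy0⟩ := hbr
    refine ⟨y, ?_, hy0⟩
    have h1 : ∀ T : Subgroup A, y ∈ Subgroup.centralizer (T : Set A) ↔
        T ≤ Subgroup.centralizer ({y} : Set A) := by
      intro T
      rw [Subgroup.mem_centralizer_iff]
      constructor
      · intro h t ht
        rw [Subgroup.mem_centralizer_iff]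
        intro z hz
        rw [Set.mem_singleton_iff] at hz
        rw [hz]
        exact (h t ht).symm
      · intro h t ht
        exact (Subgroup.mem_centralizer_iff.1 (h ht) y rfl).symm
    rw [h1]
    exact sup_le ((h1 _).1 hy) ((h1 _).1 (hcen y hy0))
  have hsup : IsPGroup p ↥(P ⊔ Q) := hPp.to_sup_of_normal_right' hQp hPQ
  obtain ⟨E, hE, hle⟩ := exists_defect_ge (p := p) hsup (hasBr_sub hsub hbr')
  exact (hU E hE (le_sup_right.trans hle)).cycQ hKQ (le_sup_left.trans hle) hPK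

/-- **Navarro's equality**, general form -/
theorem navarro_Y_rel [Fact p.Prime] [CharP k p] [IsAlgClosed k]
    {A : Type u} [Group A] [Fintype A] {G H : Subgroup A} (hn : G.Normal) (hGH : G ≤ H)
    (hp : ∀ x : A, ∃ n : ℕ, x ^ p ^ n ∈ G) {e : MonoidAlgebra k A}
    (he : IsBlock G e) (hinv : InvBy ⊤ e)
    (hfix : ∀ Q : Subgroup A, Q ≤ H → IsPGroup p Q → G ⊔ Q = H → Radical p H Q →
      ∀ E, IsDefectGroup p ⊤ e E → Q ≤ E → CycRel p (G ⊓ Subgroup.normalizer (Q : Set A)) E) :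
    NavarroEq p G H e := by
  apply navarro_loc_rad hn hGH hp he hinv
  intro Q hQH hQp hGQ hrad _ K hCK hKN c hsub hcen hcC hcinv hcc
  exact weq_locY hQp hCK hKN hsub hcen hcC hcinv hcc (hfix Q hQH hQp hGQ hrad)

/-! ### special cases of the condition -/

theorem psolv_sec_self (p : ℕ) {A : Type u} [Group A] (K : Subgroup A) : PSolv p ↥(sec K K) := by
  have h1 : sec K K = ⊥ := by
    rw [eq_bot_iff]
    intro w hw
    obtain ⟨x, hx, hx', rfl⟩ := mem_sec.1 hw
    exact Subgroup.mem_bot.2 (qm_eq_one_iff.2 hx)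
  rw [h1]
  exact ⟨0, fun _ => ⊥, rfl, Subsingleton.elim _ _, fun _ => inferInstance,
    fun i hi => absurd hi (Nat.not_lt_zero i)⟩

theorem CycRel.of_cycPs {A : Type u} [Group A] {K E : Subgroup A} (h : CycPs p K (E ⊓ K)) :
    CycRel p K E := by
  obtain ⟨S, hSK, hn, hS, hc⟩ := h
  exact ⟨S, K, hSK, le_rfl, hn, Subgroup.le_normalizer, hS, psolv_sec_self p K, hc⟩

/-- two steps -/
theorem psolv_sec_of_hypExt [Fact p.Prime] {A : Type u} [Group A] [Finite A] {M N K : Subgroup A}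
    (h : HypExt p M N K) : PSolv p ↥(sec K M) := by
  have hMn : K ≤ Subgroup.normalizer (M : Set A) := h.hC
  have hN : (sec N M ≤ sec K M) := by
    intro w hw
    obtain ⟨x, hx, hx', rfl⟩ := mem_sec.1 hw
    exact qm_mem_sec _ (h.ext.NH hx)
  have hNn : ((sec N M).subgroupOf (sec K M)).Normal := by
    refine ⟨?_⟩
    rintro ⟨w, hw⟩ hwN ⟨g, hg⟩
    rw [Subgroup.mem_subgroupOf] at hwN ⊢
    obtain ⟨x, hx, hx', rfl⟩ := mem_sec.1 hwN
    obtain ⟨y, hy, hy', rfl⟩ := mem_sec.1 hg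
    have h1 : y * x * y⁻¹ ∈ N := (Subgroup.mem_normalizer_iff.1 (h.ext.hN hy) _).1 hx
    exact qm_mem_sec (x := y * x * y⁻¹) (hMn (h.ext.NH h1)) h1
  refine ⟨2, fun i => match i with
    | 0 => ⊥
    | 1 => (sec N M).subgroupOf (sec K M)
    | _ + 2 => ⊤, rfl, rfl, ?_, ?_⟩
  · intro i
    match i with
    | 0 => exact (inferInstance : (⊥ : Subgroup ↥(sec K M)).Normal)
    | 1 => exact hNn
    | _ + 2 => exact (inferInstance : (⊤ : Subgroup ↥(sec K M)).Normal)
  · intro i hi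
    have hi' : i = 0 ∨ i = 1 := by omega
    rcases hi' with rfl | rfl
    · refine ⟨bot_le, Or.inl ?_⟩
      rintro ⟨w, hw⟩ hwN
      have hwN' : w ∈ sec N M := Subgroup.mem_subgroupOf.1 hwN
      obtain ⟨x, hx, hx', rfl⟩ := mem_sec.1 hwN'
      obtain ⟨m, hm⟩ := h.pgrp x hx
      refine ⟨m, Subgroup.mem_bot.2 (Subtype.ext ?_)⟩
      change (qm M x hx') ^ p ^ m = 1
      have h2 : (qm M x hx') ^ p ^ m = qm M (x ^ p ^ m) (Subgroup.pow_mem _ hx' _) := rfl
      rw [h2, qm_eq_one_iff]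
      exact hm
    · refine ⟨le_top, Or.inr ?_⟩
      rintro ⟨w, hw⟩ -
      obtain ⟨x, hx, hx', rfl⟩ := mem_sec.1 hw
      refine ⟨N.relIndex K, h.ext.idx, ?_⟩
      change (⟨qm M x hx', hw⟩ : ↥(sec K M)) ^ N.relIndex K ∈ (sec N M).subgroupOf (sec K M)
      rw [Subgroup.mem_subgroupOf]
      have hNnK : (N.subgroupOf K).Normal := normal_subgroupOf h.ext.hN
      have h3 : (⟨x, hx⟩ : ↥K) ^ (N.subgroupOf K).index ∈ N.subgroupOf K :=
        Subgroup.pow_index_mem (N.subgroupOf K) _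
      have h4 : x ^ N.relIndex K ∈ N := Subgroup.mem_subgroupOf.1 h3
      exact qm_mem_sec (x := x ^ N.relIndex K) (Subgroup.pow_mem _ hx' _) h4

end Pool.Agent.Lib.P0c8ca5.Yy
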