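import Mathlib
import Pool.Agent.Lib.P0c8ca5Y.LocY
import Pool.Agent.Lib.P0c8ca5T.LocX

/-!
# Navarro's equality: one defect group, conditions modulo `V`
-/

namespace Pool.Agent.Lib.P0c8ca5.Yy

open MonoidAlgebra Pool.Agent.Lib.P0c8ca5 Pool.Agent.Lib.P0c8ca5.Cy Pool.Agent.Lib.P0c8ca5.Bq
  Pool.Agent.Lib.P0c8ca5.Ps Pool.Agent.Lib.P0c8ca5.Zz

universe u v

variable {p : ℕ} {k : Type v} [Field k]

/-- a group with a homomorphism to a p-solvable group, whose kernel is contained in `M` -/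
theorem psolv_sec_of_hom {A : Type u} [Group A] {K M : Subgroup A}
    (hn : K ≤ Subgroup.normalizer (M : Set A)) {X : Type*} [Group X] (hX : PSolv p X)
    (f : ↥K →* X) (hker : ∀ x, f x = 1 → (x : A) ∈ M) : PSolv p ↥(sec K M) := by
  have hα : ∀ x, qhom hn x ∈ sec K M := fun x => qm_mem_sec _ x.2
  let β : ↥K →* ↥(sec K M) := (qhom hn).codRestrict _ hα
  have hβ : f.ker ≤ β.ker := by
    intro x hx
    rw [MonoidHom.mem_ker]
    exact Subtype.ext (qm_eq_one_iff.2 (hker x hx))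
  let γ : ↥K ⧸ f.ker →* ↥(sec K M) := QuotientGroup.lift f.ker β hβ
  have hs : IsSection (↥(sec K M)) X := by
    refine ⟨f.range, γ.comp (QuotientGroup.quotientKerEquivRange f).symm.toMonoidHom, ?_⟩
    rintro ⟨w, hw⟩
    obtain ⟨x, hx, hx', rfl⟩ := mem_sec.1 hw
    refine ⟨QuotientGroup.quotientKerEquivRange f (QuotientGroup.mk ⟨x, hx⟩), ?_⟩
    change γ ((QuotientGroup.quotientKerEquivRange f).symm _) = _
    rw [MulEquiv.symm_apply_apply]
    rfl
  exact hX.of_section hs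

theorem norm_inf_left {A : Type u} [Group A] {K T : Subgroup A}
    (h : K ≤ Subgroup.normalizer (T : Set A)) :
    K ≤ Subgroup.normalizer ((K ⊓ T : Subgroup A) : Set A) := by
  intro x hx
  have h1 : cg x K = K := cg_of_mem hx
  have h2 : cg x T = T := cg_eq_self_iff.2 (h hx)
  rw [← cg_eq_self_iff, cg_inf, h1, h2]

/-- the condition modulo `V` -/
theorem cycRel_of_quot {A : Type u} [Group A] {V : Subgroup A} [hV : V.Normal]
    (hVs : PSolv p ↥V) {K E : Subgroup A} {Kb Mb : Subgroup (A ⧸ V)}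
    (hK : K ≤ Kb.comap (QuotientGroup.mk' V)) (hMn : Kb ≤ Subgroup.normalizer (Mb : Set (A ⧸ V)))
    (hps : PSolv p ↥(sec Kb Mb)) (hc : IsCyclic ↥(E.map (QuotientGroup.mk' V) ⊓ Mb)) :
    CycRel p K E := by
  set π := QuotientGroup.mk' V with hπ
  have hKM : K ≤ Subgroup.normalizer ((Mb.comap π : Subgroup A) : Set A) :=
    hK.trans (comap_norm π hMn)
  have hKV : K ≤ Subgroup.normalizer (V : Set A) := fun x _ => mem_norm_of_normal V x
  refine ⟨K ⊓ V, K ⊓ Mb.comap π, inf_le_left, inf_le_left, norm_inf_left hKV, norm_inf_left hKM,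
    hVs.of_le inf_le_right, ?_, ?_⟩
  · let f : ↥K →* ↥(sec Kb Mb) :=
      { toFun := fun x => ⟨qm Mb (π x) (hMn (hK x.2)), qm_mem_sec _ (hK x.2)⟩
        map_one' := Subtype.ext (qm_eq_one_iff.2 (by
          change π 1 ∈ _
          rw [map_one]
          exact Subgroup.one_mem _))
        map_mul' := fun x y => Subtype.ext rfl }
    refine psolv_sec_of_hom (norm_inf_left hKM) hps f ?_
    intro x hx
    have h1 : qm Mb (π x) (hMn (hK x.2)) = 1 := congrArg Subtype.val hx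
    rw [qm_eq_one_iff] at h1
    exact Subgroup.mem_inf.2 ⟨x.2, h1⟩
  · let f : ↥(E ⊓ (K ⊓ Mb.comap π)) →* ↥(E.map π ⊓ Mb) :=
      { toFun := fun x => ⟨π x, Subgroup.mem_inf.2 ⟨⟨x, x.2.1, rfl⟩, x.2.2.2⟩⟩
        map_one' := Subtype.ext (map_one π)
        map_mul' := fun x y => Subtype.ext (map_mul π x.1 y.1) }
    refine isCyclic_sec_of_hom hc f ?_ ((inf_le_right.trans inf_le_left).trans (norm_inf_left hKV))
    intro x hx
    have h3 : π x = 1 := congrArg Subtype.val hx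
    exact Subgroup.mem_inf.2 ⟨x.2.2.1, (QuotientGroup.eq_one_iff (N := V) _).1 h3⟩

theorem CycRel.cg {A : Type u} [Group A] {K E : Subgroup A} (h : CycRel p K E) (x : A) :
    CycRel p (cg x K) (cg x E) := by
  obtain ⟨S, M, hSK, hMK, hSn, hMn, hS, hM, hc⟩ := h
  have hnn : ∀ T : Subgroup A, K ≤ Subgroup.normalizer (T : Set A) →
      Pool.Agent.Lib.P0c8ca5.cg x K ≤
        Subgroup.normalizer ((Pool.Agent.Lib.P0c8ca5.cg x T : Subgroup A) : Set A) := by
    intro T hT y hy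
    rw [mem_cg] at hy
    have h1 := cg_eq_self_iff.2 (hT hy)
    rw [← cg_eq_self_iff, cg_cg]
    have e1 : y * x = x * (x⁻¹ * y * x) := by group
    rw [e1, ← cg_cg, h1]
  refine ⟨Pool.Agent.Lib.P0c8ca5.cg x S, Pool.Agent.Lib.P0c8ca5.cg x M, cg_le_cg hSK,
    cg_le_cg hMK, hnn S hSn, hnn M hMn, hS.of_equiv
    (Subgroup.equivMapOfInjective S (MulAut.conj x).toMonoidHom (MulAut.conj x).injective), ?_, ?_⟩
  · let κ : ↥(Pool.Agent.Lib.P0c8ca5.cg x K) →* ↥K :=
      { toFun := fun y => ⟨x⁻¹ * y * x, mem_cg.1 y.2⟩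
        map_one' := Subtype.ext (by
          change x⁻¹ * 1 * x = 1
          group)
        map_mul' := fun y z => Subtype.ext (by
          change x⁻¹ * (y.1 * z.1) * x = x⁻¹ * y.1 * x * (x⁻¹ * z.1 * x)
          group) }
    let f : ↥(Pool.Agent.Lib.P0c8ca5.cg x K) →* ↥(sec K M) :=
      ((qhom hMn).comp κ).codRestrict (sec K M) (fun y => qm_mem_sec _ (κ y).2)
    refine psolv_sec_of_hom (hnn M hMn) hM f ?_
    intro y hy
    have h1 : κ y ∈ (qhom hMn).ker := congrArg Subtype.val hy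
    rw [qhom_ker] at h1
    exact mem_cg.2 h1
  · rw [← cg_inf]
    have hEn : E ⊓ M ≤ Subgroup.normalizer (S : Set A) := inf_le_right.trans (hMK.trans hSn)
    let ι : ↥(Pool.Agent.Lib.P0c8ca5.cg x (E ⊓ M)) →* ↥(E ⊓ M) :=
      { toFun := fun y => ⟨x⁻¹ * y * x, mem_cg.1 y.2⟩
        map_one' := Subtype.ext (by
          change x⁻¹ * 1 * x = 1
          group)
        map_mul' := fun y z => Subtype.ext (by
          change x⁻¹ * (y.1 * z.1) * x = x⁻¹ * y.1 * x * (x⁻¹ * z.1 * x)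
          group) }
    have hle : Pool.Agent.Lib.P0c8ca5.cg x (E ⊓ M) ≤ Subgroup.normalizer
        ((Pool.Agent.Lib.P0c8ca5.cg x S : Subgroup A) : Set A) :=
      (cg_le_cg (inf_le_right.trans hMK)).trans (hnn S hSn)
    rw [← qhom_range hle]
    refine cyc_of_ker (α := (qhom hEn).comp ι) ?_ ?_
    · intro y hy
      have h1 : ι y ∈ (qhom hEn).ker := hy
      rw [qhom_ker] at h1 ⊢
      exact mem_cg.2 h1
    · refine cyc_of_le ?_ hc
      rw [← qhom_range hEn]
      rintro _ ⟨y, rfl⟩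
      exact ⟨ι y, rfl⟩

/-- the condition on the fixed points -/
theorem cycRel_of_fixV [Fact p.Prime] {A : Type u} [Group A] [Finite A] {G : Subgroup A}
    [hn : G.Normal] {V : Subgroup A} [hV : V.Normal] (hVs : PSolv p ↥V) (hVG : V ≤ G)
    {E Q : Subgroup A} (hEp : IsPGroup p E) (hQE : Q ≤ E)
    (hfix : ∀ S ≤ Q, G ⊔ S = G ⊔ Q → FixV p G E V S) :
    CycRel p (G ⊓ Subgroup.normalizer (Q : Set A)) E := by
  classical
  have : Fintype A := Fintype.ofFinite A
  have hQp : IsPGroup p Q := hEp.to_le hQE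
  set π := QuotientGroup.mk' V with hπ
  have hπs : Function.Surjective π := QuotientGroup.mk'_surjective V
  have hnm : (G.map π).Normal := hn.map π hπs
  obtain ⟨H, hH⟩ : ∃ H : Subgroup A, H = G ⊔ Q := ⟨_, rfl⟩
  have hGH : G ≤ H := by rw [hH]; exact le_sup_left
  have hQH : Q ≤ H := by rw [hH]; exact le_sup_right
  have hGQ' : G.map π ⊔ Q.map π = H.map π := by rw [← Subgroup.map_sup, hH]
  have hHn : H.map π ≤ Subgroup.normalizer (G.map π : Set (A ⧸ V)) := fun x _ =>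
    mem_norm_of_normal (G.map π) x
  have : Fintype (A ⧸ V) := Fintype.ofFinite _
  obtain ⟨K₀, hK₀⟩ := aut_main2 (p := p) (G := G.map π) (X := H.map π) (Q := Q.map π)
    (K := G.map π ⊓ Subgroup.normalizer (Q.map π : Set (A ⧸ V)))
    (Subgroup.map_mono hGH) hHn ⟨Subgroup.map_mono hQH, hQp.map π, hGQ'⟩ inf_le_left
    inf_le_right (inf_le_inf_left _ (Subgroup.centralizer_le_normalizer _)) (by
      intro S' hS' hGS'
      -- lift `S'`
      set S : Subgroup A := Q ⊓ S'.comap π with hS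
      have hSmap : S.map π = S' := by
        apply le_antisymm
        · rintro _ ⟨x, hx, rfl⟩
          exact hx.2
        · intro y hy
          obtain ⟨x, hx, rfl⟩ := hS' hy
          exact ⟨x, ⟨hx, hy⟩, rfl⟩
      have hGS : G ⊔ S = H := by
        apply le_antisymm (sup_le hGH (inf_le_left.trans hQH))
        intro x hx
        have h3 : π x ∈ (G ⊔ S).map π := by
          rw [Subgroup.map_sup, hSmap, hGS']
          exact ⟨x, hx, rfl⟩
        obtain ⟨y, hy, hyx⟩ := h3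
        have h4 : y⁻¹ * x ∈ V := by
          rw [← QuotientGroup.eq]
          exact hyx
        have h5 := (G ⊔ S).mul_mem hy ((le_sup_left : G ≤ G ⊔ S) (hVG h4))
        rwa [mul_inv_cancel_left] at h5
      have h3 := hfix S inf_le_left (by rw [hGS, hH])
      unfold FixV at h3
      rw [← hπ, hSmap] at h3
      rcases h3 with h3 | h3
      · left
        exact cyc_of_le (inf_le_inf_right _ (inf_le_inf_right _
          (Subgroup.map_mono hQE))) h3
      · right
        exact inf_bot_of_not_dvd _ _ (hQp.map π) h3)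
  refine cycRel_of_quot hVs ?_ hK₀.hC (psolv_sec_of_hypExt hK₀) ?_
  · intro x hx
    exact Subgroup.mem_inf.2 ⟨⟨x, hx.1, rfl⟩, Subgroup.le_normalizer_map π ⟨x, hx.2, rfl⟩⟩
  · have h4 := hfix Q le_rfl rfl
    unfold FixV at h4
    rw [← hπ] at h4
    rcases h4 with h4 | h4
    · refine cyc_of_le ?_ h4
      exact le_inf (le_inf inf_le_left (inf_le_right.trans ((opc_le _ _).trans inf_le_left)))
        (inf_le_right.trans ((opc_le _ _).trans inf_le_right))
    · rw [inf_bot_of_not_dvd _ _ (hEp.map π) h4]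
      exact isCyclic_of_subsingleton

/-- **One defect group** -/
theorem navarro_mixY [Fact p.Prime] [CharP k p] [IsAlgClosed k]
    {A : Type u} [Group A] [Fintype A] {G : Subgroup A} [hn : G.Normal]
    (hp : ∀ x : A, ∃ n : ℕ, x ^ p ^ n ∈ G) {e : MonoidAlgebra k A}
    (he : IsBlock G e) (hinv : InvBy ⊤ e) {E : Subgroup A} (hE : IsDefectGroup p ⊤ e E)
    {V : Subgroup A} [hV : V.Normal] (hVs : PSolv p ↥V) (hVG : V ≤ G)
    {H : Subgroup A} (hGH : G ≤ H)
    (Sp : Subgroup A → Prop) (hSp : ∀ (x : A) (S : Subgroup A), Sp S → Sp (cg x S))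
    (hSH : ∀ S : Subgroup A, G ⊔ S = H → Sp S)
    (hloc : ∀ Q ≤ E, Sp Q → Radical p (G ⊔ Q) Q →
      CycRel p (G ⊓ Subgroup.normalizer (Q : Set A)) E ∨
      ∀ S ≤ Q, G ⊔ S = G ⊔ Q → FixV p G E V S) : NavarroEq p G H e := by
  classical
  have hnG : (⊤ : Subgroup A) ≤ Subgroup.normalizer (G : Set A) := fun x _ =>
    mem_norm_of_normal G x
  have heT : IsBlock (⊤ : Subgroup A) e := isBlock_up' le_top hnG (fun x _ => hp x) he hinv
  have hcc : ∀ (x : A) (S : Subgroup A), cg x (cg x⁻¹ S) = S := by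
    intro x S
    rw [cg_cg, mul_inv_cancel, cg_one]
  apply navarro_Y_rel hn hGH hp he hinv
  intro Q hQH hQp hGQ hrad E' hE' hQE'
  have hrad' : Radical p (G ⊔ Q) Q := by rwa [hGQ]
  have hQs := hSH Q hGQ
  obtain ⟨x, rfl⟩ := Rk.defect_conj heT hE hE'
  have h3 : cg x⁻¹ Q ≤ E := by
    have := cg_le_cg (g := x⁻¹) hQE'
    rwa [cg_cg, inv_mul_cancel, cg_one] at this
  have h4 : Radical p (G ⊔ cg x⁻¹ Q) (cg x⁻¹ Q) := by
    have h5 := hrad'.cg x⁻¹
    rwa [cg_sup, cg_normal] at h5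
  have hN : Subgroup.normalizer (Q : Set A)
      = cg x (Subgroup.normalizer ((cg x⁻¹ Q : Subgroup A) : Set A)) := by
    ext z
    rw [mem_cg, ← cg_eq_self_iff, ← cg_eq_self_iff, cg_cg]
    have e1 : x⁻¹ * z * x * x⁻¹ = x⁻¹ * z := by group
    have e2 : cg (x⁻¹ * z) Q = cg x⁻¹ (cg z Q) := by rw [cg_cg]
    rw [e1, e2]
    constructor
    · intro h1
      rw [h1]
    · intro h1
      have h2 := congrArg (cg x) h1
      rwa [hcc, hcc] at h2
  have hGN : G ⊓ Subgroup.normalizer (Q : Set A)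
      = cg x (G ⊓ Subgroup.normalizer ((cg x⁻¹ Q : Subgroup A) : Set A)) := by
    rw [cg_inf, cg_normal, ← hN]
  rcases hloc _ h3 (hSp _ _ hQs) h4 with h5 | h5
  · have h6 := h5.cg x
    rwa [← hGN] at h6
  · refine cycRel_of_fixV hVs hVG hE'.isPGroup hQE' ?_
    intro S hS hSs
    have h8 : G ⊔ cg x⁻¹ S = G ⊔ cg x⁻¹ Q := by
      have h9 := congrArg (cg x⁻¹) hSs
      rwa [cg_sup, cg_sup, cg_normal] at h9
    have h7 := (h5 (cg x⁻¹ S) (cg_le_cg hS) h8).cg x
    rwa [hcc] at h7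

/-- passing to a subgroup -/
theorem CycRel.mono {A : Type u} [Group A] {K K' E : Subgroup A} (h : CycRel p K E)
    (hK : K' ≤ K) : CycRel p K' E := by
  obtain ⟨S, M, hSK, hMK, hSn, hMn, hS, hM, hc⟩ := h
  refine ⟨K' ⊓ S, K' ⊓ M, inf_le_left, inf_le_left, norm_inf_left (hK.trans hSn),
    norm_inf_left (hK.trans hMn), hS.of_le inf_le_right, ?_, ?_⟩
  · let ι : ↥K' →* ↥K := Subgroup.inclusion hK
    let f : ↥K' →* ↥(sec K M) :=
      ((qhom hMn).comp ι).codRestrict (sec K M) (fun y => qm_mem_sec _ (ι y).2)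
    refine psolv_sec_of_hom (norm_inf_left (hK.trans hMn)) hM f ?_
    intro y hy
    have h1 : ι y ∈ (qhom hMn).ker := congrArg Subtype.val hy
    rw [qhom_ker] at h1
    exact Subgroup.mem_inf.2 ⟨y.2, h1⟩
  · have hEn : E ⊓ M ≤ Subgroup.normalizer (S : Set A) := inf_le_right.trans (hMK.trans hSn)
    rw [← qhom_range hEn] at hc
    let ι : ↥(E ⊓ (K' ⊓ M)) →* ↥(E ⊓ M) := Subgroup.inclusion (inf_le_inf_left _ inf_le_right)
    let f : ↥(E ⊓ (K' ⊓ M)) →* ↥(qhom hEn).range :=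
      ((qhom hEn).comp ι).codRestrict _ (fun y => ⟨ι y, rfl⟩)
    refine isCyclic_sec_of_hom hc f ?_
      ((inf_le_right.trans inf_le_left).trans (norm_inf_left (hK.trans hSn)))
    intro y hy
    have h1 : ι y ∈ (qhom hEn).ker := congrArg Subtype.val hy
    rw [qhom_ker] at h1
    exact Subgroup.mem_inf.2 ⟨y.2.2.1, h1⟩

end Pool.Agent.Lib.P0c8ca5.Yy
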