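import Mathlib
import Pool.Agent.Lib.P0c8ca5Y.Red4
import Pool.Agent.Lib.P0c8ca5Y.CSyl
import Pool.Agent.Lib.P0c8ca5Y.MixY
import Pool.Agent.Lib.P0c8ca5F.LcR

/-!
# The local condition with reduced blocks, p-solvable quotients
-/

namespace Pool.Agent.Lib.P0c8ca5.Yy

open MonoidAlgebra Pool.Agent.Lib.P0c8ca5 Pool.Agent.Lib.P0c8ca5.Cy Pool.Agent.Lib.P0c8ca5.Bq
  Pool.Agent.Lib.P0c8ca5.Ps Pool.Agent.Lib.P0c8ca5.Fg

universe u v w

/-- The blockwise weight conjecture holds for the reduced blocks with noncyclic defect groups such that all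
defect groups satisfy the condition `C`. -/
def BAWRed4 (p : ℕ) (k : Type v) [Field k] (C : ∀ (L : Type u) [Group L], Subgroup L → Prop) :
    Prop :=
  ∀ (L : Type u) [Group L] [Finite L] (b : MonoidAlgebra k L),
    Reduced4 p b → (∃ D, IsDefectGroup p ⊤ b D ∧ ¬ IsCyclic D) →
    (∀ D : Subgroup L, IsDefectGroup p ⊤ b D → C L D) → NavarroEq p ⊤ ⊤ b

/-- `K` has a normal subgroup `M` with `K / M` p-solvable such that the blockwise weight conjecture holds for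
the reduced blocks with noncyclic defect groups of the groups `L` whose defect groups are over `E ∩ M`, `E ∈ 𝓔`. -/
def RedCond4 (p : ℕ) (k : Type v) [Field k] {Γ : Type u} [Group Γ] (K : Subgroup Γ)
    (𝓔 : Set (Subgroup Γ)) : Prop :=
  ∃ M : Subgroup Γ, M ≤ K ∧ K ≤ Subgroup.normalizer (M : Set Γ) ∧ PSolv p ↥(sec K M) ∧
    BAWRed4.{u, v} p k (fun L _ D => ∃ E ∈ 𝓔, CPair p D ((E ⊓ M).subgroupOf K))

variable {p : ℕ} {k : Type v} [Field k]

theorem base_fam4 [Fact p.Prime] [IsAlgClosed k] [CharP k p]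
    {K : Type w} [Group K] [Finite K] {M : Subgroup K} (hM : M.Normal) (hMs : PSolv p (K ⧸ M))
    {𝓔 : Set (Subgroup K)} (h𝓔 : ∀ E ∈ 𝓔, IsPGroup p E)
    (hyp : BAWRed4.{u, v} p k (fun L _ D => ∃ E ∈ 𝓔, CPair p D (E ⊓ M)))
    (B : Type u) [Group B] [Finite B] (e : MonoidAlgebra k B) (he : IsBlock ⊤ e)
    (hC : PairCond (fun L _ D => ∃ E ∈ 𝓔, CSyl p D E) p e) : NavarroEq p ⊤ ⊤ e := by
  refine baw_of_reduced4 (p := p) (k := k) (fun L _ D => ∃ E ∈ 𝓔, CSyl p D E)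
    (fun H H' _ _ _ P P' _ hs ⟨E, hE, h⟩ => ⟨E, hE, h.of_section hs⟩)
    (fun H A _ _ _ _ N _ ψ P P' hN hmax hψ hψZ hψp _ hP ⟨E, hE, h⟩ =>
      ⟨E, hE, h.of_quot hN hmax ψ hψ hψZ hψp hP⟩) ?_ _ _ B rfl rfl e he hC
  intro H _ _ b hb hC hnc
  have : Fintype H := Fintype.ofFinite H
  apply hyp H b hb
  · obtain ⟨P, h1, h2, h3⟩ := hnc
    obtain ⟨D, h4, h5⟩ := exists_defect (p := p) (N := ⊤) le_top h1 h2
    refine ⟨D, h4, fun hc => h3 ?_⟩
    exact isCyclic_of_injective (Subgroup.inclusion h5) (Subgroup.inclusion_injective h5)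
  · intro D hD
    obtain ⟨E, hE, h1⟩ := hC D hD.isPGroup hD.br
    refine ⟨E, hE, h1.inf (h𝓔 E hE) hM hMs hD.isPGroup ?_⟩
    intro N _ hN
    rw [← Subgroup.relIndex_eq_one]
    have h2 : N.relIndex D ∣ N.index := Subgroup.relIndex_dvd_index_of_normal N D
    have h3 : N.relIndex D ∣ Nat.card D := Subgroup.relIndex_dvd_card N D
    obtain ⟨n, hn⟩ := IsPGroup.iff_card.1 hD.isPGroup
    rw [hn] at h3
    obtain ⟨i, -, hi⟩ := (Nat.dvd_prime_pow (Fact.out : p.Prime)).1 h3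
    rcases Nat.eq_zero_or_pos i with h0 | h0
    · rw [hi, h0, pow_zero]
    · exfalso
      apply hb.solv N hN
      refine dvd_trans ?_ h2
      rw [hi]
      exact dvd_pow_self p h0.ne'

/-- the weight equality for an arbitrary central idempotent -/
theorem weq_of_base [Fact p.Prime] [CharP k p] [IsAlgClosed k]
    (C : ∀ (L : Type u) [Group L], Subgroup L → Prop)
    (hbase : ∀ (B : Type u) [Group B] [Finite B] (e : MonoidAlgebra k B), IsBlock ⊤ e →
      PairCond C p e → NavarroEq p ⊤ ⊤ e)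
    {A : Type u} [Group A] [Fintype A]
    {K : Subgroup A} {c : MonoidAlgebra k A} (hc : SuppIn K c) (hci : InvBy K c) (hcc : c * c = c)
    (hst : ∀ P : Subgroup A, P ≤ K → IsPGroup p P → HasBr P c → C ↥K (P.subgroupOf K)) :
    WEq p K c := by
  apply Cy.weq_of_blocks hc hci hcc
  intro b hb hbc
  apply navarro_transport hb
  apply hbase _ _ (dn_isBlock hb)
  have hmem : c ∈ fixAlg k K K := mem_fixAlg.2 ⟨hc, hci⟩
  have hcomm : c * b = b * c := commute_of hc hb.invBy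
  have hmul : b * c = b := by
    rcases hb.mul_eq hmem hcc with h | h
    · rw [hcomm] at h; exact absurd h hbc
    · rw [← hcomm]; exact h
  intro P hP hbr
  have hPK : P.map K.subtype ≤ K := by
    rintro _ ⟨y, _, rfl⟩
    exact y.2
  have h1 := hst (P.map K.subtype) hPK (hP.map _) (hasBr_of_mul (hP.map _) (hb.invBy.mono hPK)
    (hci.mono hPK) hmul (RedAux.hasBr_up' hbr))
  have h2 : (P.map K.subtype).subgroupOf K = P := by
    rw [Subgroup.subgroupOf]
    exact Subgroup.comap_map_eq_self_of_injective K.subtype_injective P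
  rwa [h2] at h1

theorem pairSyl_incl [Fact p.Prime] {Γ : Type u} [Group Γ] {K' K : Subgroup Γ} (h : K' ≤ K)
    {P E : Subgroup Γ} (hPE : P ≤ E) : PairSyl p (P.subgroupOf K') (E.subgroupOf K) := by
  let ε : ↥(K'.subgroupOf K) ≃* ↥K' := Subgroup.subgroupOfEquivOfLe h
  refine ⟨K'.subgroupOf K, ε.toMonoidHom, ε.surjective, ?_, ?_⟩
  · intro x hx
    have hx' : (x : Γ) ∈ P := Subgroup.mem_subgroupOf.1 hx
    refine ⟨⟨⟨x, h x.2⟩, Subgroup.mem_subgroupOf.2 x.2⟩, ?_, rfl⟩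
    exact Subgroup.mem_subgroupOf.2 (Subgroup.mem_subgroupOf.2 (hPE hx'))
  · have h1 : ε.toMonoidHom.ker = ⊥ := by
      rw [MonoidHom.ker_eq_bot_iff]
      exact ε.injective
    rw [h1, Subgroup.relIndex_bot_right]
    exact (Fact.out : p.Prime).one_lt.ne' ∘ Nat.dvd_one.1

theorem psolv_quot_of_sec {A : Type u} [Group A] {K M : Subgroup A}
    (hn : K ≤ Subgroup.normalizer (M : Set A)) (h : PSolv p ↥(sec K M)) [(M.subgroupOf K).Normal] :
    PSolv p (↥K ⧸ M.subgroupOf K) := by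
  let f : ↥K →* ↥(sec K M) := (qhom hn).codRestrict (sec K M) (fun y => qm_mem_sec _ y.2)
  have hf : M.subgroupOf K ≤ f.ker := by
    intro x hx
    rw [MonoidHom.mem_ker]
    exact Subtype.ext (qm_eq_one_iff.2 (Subgroup.mem_subgroupOf.1 hx))
  refine h.of_section (IsSection.of_injective (QuotientGroup.lift (M.subgroupOf K) f hf) ?_)
  rw [injective_iff_map_eq_one]
  intro x
  induction x using QuotientGroup.induction_on with
  | H z =>
    intro hz
    rw [QuotientGroup.lift_mk] at hz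
    rw [QuotientGroup.eq_one_iff]
    exact Subgroup.mem_subgroupOf.2 (qm_eq_one_iff.1 (congrArg Subtype.val hz))

/-- the weight equality for the chain stabilizers -/
theorem weq_redCond4 [Fact p.Prime] [CharP k p] [IsAlgClosed k]
    {A : Type u} [Group A] [Fintype A] {G : Subgroup A} {e c : MonoidAlgebra k A}
    {Q K : Subgroup A} (hQp : IsPGroup p Q)
    (hKQ : K ≤ G ⊓ Subgroup.normalizer (Q : Set A))
    (hCK : G ⊓ Subgroup.centralizer (Q : Set A) ≤ K)
    (hsub : ∀ x, c.coeff x ≠ 0 → e.coeff x ≠ 0)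
    (hcen : ∀ x, c.coeff x ≠ 0 → x ∈ Subgroup.centralizer (Q : Set A))
    (hcC : SuppIn (G ⊓ Subgroup.centralizer (Q : Set A)) c)
    (hcN : InvBy (Subgroup.normalizer (Q : Set A)) c) (hcc : c * c = c)
    (hU : RedCond4 p k (G ⊓ Subgroup.normalizer (Q : Set A))
      {E | IsDefectGroup p ⊤ e E ∧ Q ≤ E}) : WEq p K c := by
  classical
  obtain ⟨M, hMK, hMn, hMs, hyp⟩ := hU
  set K₀ : Subgroup A := G ⊓ Subgroup.normalizer (Q : Set A) with hK₀
  have hMn' : (M.subgroupOf K₀).Normal := normal_subgroupOf hMn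
  have hcinv : InvBy K c := hcN.mono (hKQ.trans inf_le_right)
  have hinf : ∀ E : Subgroup A, (E ⊓ M).subgroupOf K₀ = E.subgroupOf K₀ ⊓ M.subgroupOf K₀ :=
    fun E => rfl
  let 𝓔 : Set (Subgroup ↥K₀) :=
    {E' | ∃ E, (IsDefectGroup p ⊤ e E ∧ Q ≤ E) ∧ E' = E.subgroupOf K₀}
  have hyp' : BAWRed4.{u, v} p k (fun L _ D => ∃ E ∈ 𝓔, CPair p D (E ⊓ M.subgroupOf K₀)) := by
    intro L _ _ b hb hnc hD
    apply hyp L b hb hnc
    intro D hD'
    obtain ⟨_, ⟨E, hE, rfl⟩, h1⟩ := hD D hD'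
    exact ⟨E, hE, by rwa [hinf]⟩
  refine weq_of_base (fun L _ D => ∃ E ∈ 𝓔, CSyl p D E) ?_ (hcC.mono hCK) hcinv hcc ?_
  · intro B _ _ e he hC
    refine base_fam4 (M := M.subgroupOf K₀) hMn' (psolv_quot_of_sec hMn hMs) (𝓔 := 𝓔) ?_ hyp' B e
      he hC
    rintro _ ⟨E, hE, rfl⟩
    exact hE.1.isPGroup.comap_subtype
  · intro P hPK hPp hbr
    have hPQ : P ≤ Subgroup.normalizer (Q : Set A) := hPK.trans (hKQ.trans inf_le_right)
    have hbr' : HasBr (P ⊔ Q) c := by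
      obtain ⟨y, hy, hy0⟩ := hbr
      refine ⟨y, ?_, hy0⟩
      have h1 : ∀ T : Subgroup A, y ∈ Subgroup.centralizer (T : Set A) ↔
          T ≤ Subgroup.centralizer ({y} : Set A) := by
        intro T
        rw [Subgroup.mem_centralizer_iff]
        constructor
        · intro h t ht
          rw [Subgroup.mem_centralizer_iff]
          intro z hz
          rw [Set.mem_singleton_iff] at hz
          rw [hz]
          exact (h t ht).symm
        · intro h t ht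
          exact (Subgroup.mem_centralizer_iff.1 (h ht) y rfl).symm
      rw [h1]
      exact sup_le ((h1 _).1 hy) ((h1 _).1 (hcen y hy0))
    have hsup : IsPGroup p ↥(P ⊔ Q) := hPp.to_sup_of_normal_right' hQp hPQ
    obtain ⟨E, hE, hle⟩ := exists_defect_ge (p := p) hsup (hasBr_sub hsub hbr')
    exact ⟨_, ⟨E, ⟨hE, le_sup_right.trans hle⟩, rfl⟩,
      CSyl.of_pairSyl (pairSyl_incl hKQ (le_sup_left.trans hle))⟩

theorem RedCond4.mono {Γ : Type u} [Group Γ] {K K' : Subgroup Γ}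
    {𝓔 𝓔' : Set (Subgroup Γ)} (h : RedCond4 p k K 𝓔) (hK : K' ≤ K)
    (hE : ∀ E' ∈ 𝓔', ∃ E ∈ 𝓔, K ⊓ E' ≤ E) : RedCond4 p k K' 𝓔' := by
  obtain ⟨M, hMK, hMn, hMs, hyp⟩ := h
  refine ⟨K' ⊓ M, inf_le_left, norm_inf_left (hK.trans hMn), ?_, ?_⟩
  · let ι : ↥K' →* ↥K := Subgroup.inclusion hK
    let f : ↥K' →* ↥(sec K M) :=
      ((qhom hMn).comp ι).codRestrict (sec K M) (fun y => qm_mem_sec _ (ι y).2)
    refine psolv_sec_of_hom (norm_inf_left (hK.trans hMn)) hMs f ?_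
    intro y hy
    have h1 : ι y ∈ (qhom hMn).ker := congrArg Subtype.val hy
    rw [qhom_ker] at h1
    exact Subgroup.mem_inf.2 ⟨y.2, h1⟩
  · intro L _ _ b hb hnc hD
    apply hyp L b hb hnc
    intro D hD'
    obtain ⟨E', hE', h1⟩ := hD D hD'
    obtain ⟨E, hEE, h2⟩ := hE E' hE'
    refine ⟨E, hEE, h1.mono (pairSec_incl hK ?_)⟩
    rintro _ ⟨x, hx, rfl⟩
    have h3 := Subgroup.mem_subgroupOf.1 hx
    exact ⟨h2 ⟨hMK h3.2.2, h3.1⟩, h3.2.2⟩

end Pool.Agent.Lib.P0c8ca5.Yy
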